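import Pool.Agent.Lib.MP_3a1514_mp.Data

set_option maxRecDepth 100000

namespace Pool.Agent.Lib.MP_3a1514_mp

theorem c0 : chk tA tB vlist (T.sa (T.sc (T.sb (T.sd (T.se (T.sa (T.sc (T.sb (T.sd (T.se (T.sa (T.sc (T.sb (T.sd (T.se (T.sa (T.sc (T.sb (T.sd T.cor (T.lf 660821 2)) (T.lf 660821 2)) (T.sb (T.sd (T.lf 660821 1) (T.lf 286307 3)) (T.lf 268077 3))) (T.sd (T.sb (T.lf 660821 1) (T.lf 268170 3)) (T.lf 251290 3))) (T.sa (T.sc (T.sb (T.sd (T.sa (T.lf 566418 4) (T.lf 312882 5)) (T.lf 279042 6)) (T.lf 262615 6)) (T.lf 241082 3)) (T.lf 228018 3))) (T.se (T.sa T.out (T.lf 219088 3)) (T.lf 201224 7))) (T.se (T.sc (T.lf 495616 2) (T.sd (T.lf 219088 3) (T.lf 330410 2))) (T.sd (T.lf 201224 7) (T.lf 283209 2)))) (T.sb (T.sd (T.se (T.sb (T.lf 495616 1) (T.lf 219088 3)) (T.lf 201224 7)) (T.lf 179006 3)) (T.lf 167178 3))) (T.sd (T.sb (T.se (T.sd (T.lf 495616 1) (T.sc (T.lf 219088 3) (T.lf 330410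 1))) (T.sc (T.lf 201224 7) (T.lf 283209 1))) (T.lf 167291 3)) (T.lf 156419 3))) (T.sa (T.sc (T.sb (T.sd (T.sa (T.sc (T.sb (T.sd (T.lf 495616 4) (T.lf 234146 6)) (T.lf 221021 6)) (T.lf 206103 7)) (T.lf 197180 5)) (T.lf 183818 6)) (T.lf 164026 7)) (T.lf 150494 7)) (T.lf 142077 7))) (T.se (T.sa T.out (T.lf 142881 7)) (T.sa T.out (T.lf 118720 7)))) (T.se (T.sc (T.sa T.out (T.sd (T.lf 152824 35184374261903) (T.lf 198246 2))) (T.sd (T.lf 142881 7) (T.sa T.out (T.lf 117864 3)))) (T.sd (T.sc (T.sa T.out (T.lf 125573 7)) (T.lf 118720 7)) (T.sa T.out (T.lf 110193 7))))) (T.sb (T.sd (T.se (T.sb (T.sd (T.lf 330410 1) (T.lf 152824 17592188217511)) (T.lf 142881 7)) (T.sb (T.sd (T.lf 150848 2055) (T.lf 125573 7)) (T.lf 118720 7))) (T.lf 111466 3)) (T.lf 108734 7))) (T.sd (T.sb (T.se (T.sd (T.sb (T.lf 330410 1) (T.sc (T.lf 152824 17592188217487) (T.lf 198246 1))) (T.sc (T.lf 142881 7) (T.sb (T.lf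 198246 1) (T.lf 117864 3)))) (T.sc (T.sd (T.sb (T.lf 150848 2055) (T.lf 125573 7)) (T.lf 118720 7)) (T.sb (T.sd (T.lf 198246 1) (T.lf 110253 7)) (T.lf 110193 7)))) (T.lf 108873 7)) (T.lf 96324 7))) (T.sa (T.sc (T.sb (T.sd (T.sa (T.sc (T.sb (T.sd (T.sa (T.sc (T.lf 330410 4) (T.lf 172050 7)) (T.lf 164260 7)) (T.lf 154235 6)) (T.lf 138462 6)) (T.lf 128647 7)) (T.lf 122123 7)) (T.lf 108605 7)) (T.sd (T.lf 108605 7) (T.lf 101237 2168063))) (T.lf 95060 39)) (T.sd (T.sb (T.sc (T.lf 108605 7) (T.lf 101237 11263)) (T.lf 89371 7)) (T.lf 85374 15)))) (T.se (T.sa T.out (T.sc (T.sb (T.se (T.sd (T.lf 109365 7) T.out) (T.lf 94409 2097343)) (T.se (T.sc (T.sa T.out (T.lf 91443 7)) (T.lf 90737 135)) (T.sd (T.lf 89494 135) T.out))) (T.lf 82879 2471679))) (T.sa T.out (T.sc (T.sb (T.lf 84738 191) (T.sd (T.lf 79022 63) T.out)) (T.lf 73132 255))))) (T.sd (T.se (T.sc (T.sa T.out (T.sd (T.se (T.sb (T.lf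 109650 7) T.out) (T.lf 95008 2190847)) (T.se (T.sc (T.sa T.out (T.lf 93034 7)) (T.lf 90812 2097295)) (T.lf 86440 19207679)))) (T.sa T.out (T.lf 82879 20002303))) (T.sc (T.sa T.out (T.sd (T.lf 85519 65791) (T.sb (T.lf 80939 175) T.out))) (T.sa T.out (T.lf 73132 255)))) (T.se (T.sa T.out (T.sc (T.se (T.sc (T.sa T.out (T.lf 85076 135)) (T.sa T.out (T.lf 75990 135))) (T.sc (T.sa T.out (T.lf 78132 7)) (T.lf 75260 2097343))) (T.se (T.sb (T.lf 74836 191) T.out) (T.lf 69194 2430207)))) (T.sa T.out (T.sc (T.sc (T.sd (T.lf 75184 2162943) T.out) (T.sd (T.lf 70781 127) T.out)) (T.sb (T.lf 65735 255) T.out)))))) (T.sb (T.sd (T.se (T.sb (T.sd (T.se (T.sb (T.lf 247808 1) (T.sd (T.lf 198246 1) (T.sa T.out (T.lf 141604 1)))) (T.sb (T.sd (T.lf 198246 1) (T.sa T.out (T.lf 141604 1))) (T.sa T.out (T.sd (T.lf 141604 1) (T.lf 89376 7))))) (T.sa T.out (T.se (T.sb (T.sd (T.lf 141604 1) (T.lf 93034 7))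 (T.lf 90812 8359)) (T.lf 86440 1096703)))) (T.sd (T.sa T.out (T.se (T.sd (T.sb (T.lf 141604 1) (T.lf 91443 7)) (T.lf 90737 135)) (T.sc (T.lf 89494 135) T.out))) (T.lf 82879 19938303))) (T.sb (T.sd (T.sa T.out (T.sb (T.sd (T.se (T.lf 141604 1) (T.lf 91334 7)) (T.lf 89510 10415)) (T.sd (T.lf 89226 10287) (T.lf 82821 47)))) (T.sa T.out (T.sc (T.lf 80939 175) T.out))) (T.sd (T.sa T.out (T.sc (T.lf 79022 111) T.out)) (T.lf 73132 255)))) (T.lf 71700 2177791)) (T.sd (T.lf 71286 511) (T.se (T.sa T.out (T.lf 62820 52776578957311)) (T.sa T.out (T.lf 55982 20824063)))))) (T.sd (T.sb (T.sc (T.se (T.sd (T.sb (T.se (T.sd (T.lf 247808 1) (T.sb (T.lf 198246 1) (T.sc (T.lf 113559 17592186054911) (T.lf 141604 1)))) (T.sd (T.sb (T.lf 198246 1) (T.sc (T.lf 112348 10399) (T.lf 141604 1))) (T.sc (T.sb (T.sa (T.lf 112903 7) (T.lf 141604 1)) (T.lf 101770 7)) (T.sb (T.lf 141604 1) (T.lf 89376 7))))) (T.sc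 (T.se (T.sa (T.lf 109650 7) (T.sd (T.lf 104808 8335) (T.lf 96166 7))) (T.lf 95008 2190847)) (T.se (T.sd (T.sb (T.lf 141604 1) (T.lf 93034 7)) (T.lf 90812 8335)) (T.lf 86440 1093631)))) (T.sb (T.sc (T.se (T.sa (T.lf 109365 7) (T.sb (T.lf 104363 8351) (T.lf 95976 7))) (T.lf 94409 8383)) (T.se (T.sb (T.sd (T.lf 141604 1) (T.lf 91443 7)) (T.lf 90737 135)) (T.sa (T.lf 89494 135) (T.lf 83329 8351)))) (T.lf 82879 2404351))) (T.sd (T.sb (T.sc (T.sd (T.sb (T.sa (T.lf 113221 7) (T.lf 103709 10271)) (T.lf 98339 10399)) (T.sa (T.lf 94034 15) (T.lf 90288 10431))) (T.sd (T.sb (T.se (T.lf 141604 1) (T.lf 91334 7)) (T.lf 89510 10431)) (T.sb (T.lf 89226 10303) (T.lf 82821 31)))) (T.sc (T.lf 85519 2303) (T.sa (T.lf 80939 175) (T.lf 75764 10495)))) (T.sb (T.sc (T.lf 84738 191) (T.sa (T.lf 79022 63) (T.lf 75376 191))) (T.lf 73132 255)))) (T.se (T.sb (T.sd (T.lf 165205 1) (T.se (T.sb (T.sd (T.lf 141604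 1) (T.lf 85076 8327)) (T.sd (T.lf 84436 7) (T.lf 75990 135))) (T.sb (T.sd (T.lf 110136 1) (T.lf 78132 7)) (T.lf 75260 8383)))) (T.sd (T.se (T.sd (T.sb (T.lf 141604 1) (T.lf 85076 8327)) (T.sb (T.lf 84436 7) (T.lf 75990 135))) (T.sd (T.sb (T.lf 110136 1) (T.lf 78132 7)) (T.lf 75260 8431))) (T.se (T.sa (T.lf 74836 239) (T.lf 71832 8383)) (T.lf 69194 44031)))) (T.sb (T.sd (T.sb (T.sd (T.lf 123904 1) (T.lf 80617 36898010440893250559)) (T.sd (T.lf 80617 36898010438745255935) (T.lf 74905 10495))) (T.sb (T.sa (T.lf 75184 10495) (T.lf 70868 8383)) (T.sa (T.lf 70781 127) (T.lf 66826 63)))) (T.sd (T.sd (T.sc (T.lf 75184 10495) (T.lf 70868 8431)) (T.sc (T.lf 70781 127) (T.lf 66826 111))) (T.sa (T.lf 65735 255) (T.lf 62163 255)))))) (T.sc (T.lf 71700 2174463) (T.se (T.sd (T.sb (T.se (T.sd (T.lf 77227 8447) (T.lf 72542 207)) (T.sc (T.lf 70559 239) (T.lf 67845 207))) (T.lf 64821 1060351)) (T.lf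 62820 52776578449407)) (T.sd (T.sb (T.sc (T.lf 66319 511) (T.lf 62598 10751)) (T.lf 59819 1060351)) (T.lf 55982 20316159))))) (T.sb (T.sc (T.lf 71286 1279) (T.se (T.sb (T.sd (T.se (T.sb (T.lf 77227 8447) (T.lf 72542 183)) (T.sa (T.lf 70559 191) (T.lf 67845 183))) (T.lf 64821 47871)) (T.lf 62820 52776578957311)) (T.sb (T.sd (T.sa (T.lf 66319 767) (T.lf 62598 11007)) (T.lf 59819 47871)) (T.lf 55982 20824063)))) (T.sc (T.se (T.sc (T.sa (T.se (T.sc (T.lf 77227 2097407) (T.lf 72542 159)) (T.sd (T.lf 70559 191) (T.lf 67845 159))) (T.lf 64821 2426367)) (T.lf 62820 52776578449407)) (T.sc (T.sa (T.sd (T.lf 66319 1279) (T.lf 62598 2163967)) (T.lf 59819 2426367)) (T.lf 55982 20316159))) (T.lf 51640 255))))) 0 512 0 512 0 512 0 512 0 256 = true := by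
  decide +kernel

theorem c1 : chk tA tB vlist (T.sa (T.sc (T.sb (T.sd (T.sa (T.sc (T.sb (T.sd (T.sa (T.sc (T.sb (T.sd (T.lf 247808 4) (T.se (T.lf 128656 7) (T.lf 165205 4))) (T.sd (T.se (T.lf 128656 7) (T.lf 165205 4)) (T.lf 108980 7))) (T.sb (T.sd (T.se (T.lf 128656 7) (T.lf 165205 4)) (T.lf 112756 7)) (T.lf 107128 536938535))) (T.sd (T.sb (T.sc (T.se (T.lf 128656 7) (T.lf 165205 4)) (T.lf 108980 7)) (T.lf 107324 2063)) (T.lf 102464 67631))) (T.lf 95913 536938559)) (T.lf 88185 65647)) (T.sb (T.sd (T.lf 95913 536938607) (T.lf 80949 47)) (T.lf 79403 111))) (T.lf 79305 539885567)) (T.sa T.out (T.sc (T.sb (T.lf 70560 65663) (T.se (T.lf 70424 65663) (T.lf 61946 65663))) (T.lf 64326 2695167)))) (T.sd (T.sc (T.sa T.out (T.sd (T.lf 71402 83071) (T.se (T.lf 69334 66815) (T.lf 64235 127)))) (T.sa T.out (T.lf 64326 2187263))) (T.sa T.out (T.sc (T.se (T.sd (T.lf 66110 2168063) T.out) (T.sd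 (T.lf 61327 70783) T.out)) (T.se (T.sb (T.lf 60375 65791) T.out) (T.sb (T.lf 56423 2168063) T.out)))))) (T.sb (T.sd (T.sb (T.sd (T.sa T.out (T.se (T.lf 79207 4503600165944319) (T.lf 69334 2159))) (T.sa T.out (T.se (T.lf 69334 2815) (T.lf 64235 127)))) (T.sd (T.sa T.out (T.se (T.lf 70424 2175) (T.lf 61946 2175))) (T.lf 64326 606207))) (T.sa T.out (T.sb (T.se (T.lf 62851 6911) (T.lf 56374 596735)) (T.lf 53587 72447)))) (T.sd (T.sa T.out (T.sd (T.se (T.lf 62281 6655) (T.lf 55233 73215)) (T.lf 54819 6655))) (T.sa T.out (T.se (T.sc (T.lf 53611 18948095) T.out) (T.sc (T.lf 49874 20807679) T.out)))))) (T.sd (T.sb (T.sc (T.sd (T.sb (T.sc (T.lf 80943 2431) (T.se (T.lf 79207 4503600165941247) (T.lf 69334 2111))) (T.sc (T.lf 71402 18815) (T.se (T.lf 69334 2559) (T.lf 64235 127)))) (T.sb (T.sc (T.lf 70560 2175) (T.se (T.lf 70424 2175) (T.lf 61946 2175))) (T.lf 64326 98303))) (T.sb (T.sd (T.se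 (T.sb (T.sd (T.lf 76835 10367) (T.lf 71638 2111)) (T.sd (T.lf 71638 2159) (T.lf 66047 2175))) (T.sa (T.lf 67636 2175) (T.lf 63833 2431))) (T.se (T.sa (T.lf 66110 11263) (T.lf 62461 11263)) (T.sa (T.lf 61327 2943) (T.lf 56798 11263)))) (T.sd (T.se (T.sc (T.lf 66110 11263) (T.lf 62461 11263)) (T.sc (T.lf 61327 2943) (T.lf 56798 11263))) (T.se (T.sa (T.lf 60375 2303) (T.lf 56049 3071)) (T.sa (T.lf 56423 11263) (T.lf 53564 12287)))))) (T.sc (T.sc (T.sd (T.lf 64480 2305844672028737535) (T.se (T.lf 62851 67071) (T.lf 56374 85503))) (T.sd (T.se (T.lf 62851 3583) (T.lf 56374 85503)) (T.lf 53587 69119))) (T.sd (T.se (T.sb (T.sc (T.lf 59616 2559) (T.lf 57563 10751)) (T.lf 54217 17924095)) (T.sb (T.sc (T.lf 56862 3583) (T.lf 52726 1081343)) (T.sc (T.lf 50793 19967) (T.lf 48614 1146879)))) (T.se (T.sb (T.lf 53611 1130495) (T.lf 49224 1535)) (T.sb (T.lf 49874 20578303) (T.lf 46281 73727))))))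 (T.sb (T.sc (T.sb (T.sc (T.lf 61891 3839) (T.se (T.lf 62281 3839) (T.lf 55233 73727))) (T.sc (T.se (T.lf 62281 67327) (T.lf 55233 69631)) (T.lf 54819 3839))) (T.sb (T.se (T.sd (T.sa (T.lf 59616 2815) (T.lf 57563 11007)) (T.lf 54217 901119)) (T.sd (T.sa (T.lf 54841 7167) (T.lf 53836 49151)) (T.sa (T.lf 50793 531199) (T.lf 48614 638975)))) (T.se (T.sd (T.lf 53611 114687) (T.lf 49224 4863)) (T.sd (T.lf 49874 4063231) (T.lf 46281 73727))))) (T.sc (T.sc (T.se (T.sa (T.sd (T.lf 59616 66815) (T.lf 57563 2163967)) (T.lf 54217 2482175)) (T.sa (T.sd (T.lf 56862 67071) (T.lf 52726 2447359)) (T.sd (T.lf 50793 83455) (T.lf 48614 2449407)))) (T.se (T.sa (T.lf 53611 2433023) (T.lf 49224 1535)) (T.sa (T.lf 49874 19791871) (T.lf 46281 73727)))) (T.se (T.lf 46767 1535) (T.lf 44459 2195455)))))) 0 512 0 512 0 512 0 512 256 512 = true := by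
  decide +kernel

theorem c2 : chk tA tB vlist (T.se (T.sa T.out (T.sc (T.sb (T.se (T.sd (T.sc (T.sa T.out (T.lf 67368 144170163677020159)) (T.sb (T.lf 66532 255) (T.lf 61826 2463487))) T.out) (T.sd (T.sc (T.sa T.out (T.lf 60494 37383415136255)) (T.sb (T.lf 58811 767) (T.lf 56223 2471679))) T.out)) (T.se (T.sc (T.sa T.out (T.sd (T.lf 59655 35184391329535) T.out)) (T.sd (T.sa T.out (T.lf 54820 255)) T.out)) (T.sc (T.sd (T.sa T.out (T.lf 54207 35188686323711)) T.out) (T.sd (T.sa T.out (T.lf 49363 2430719)) T.out)))) (T.sb (T.sd (T.lf 53498 33535) T.out) (T.sd (T.se (T.sa T.out (T.lf 49775 255)) (T.sa T.out (T.lf 44606 2463743))) T.out)))) (T.sa T.out (T.sc (T.sb (T.sd (T.sc (T.se (T.sa T.out (T.sb (T.lf 55518 67327) (T.lf 53073 2426623))) (T.sa T.out (T.sb (T.lf 51923 368383) (T.lf 49790 2990079)))) (T.se (T.sb (T.lf 53284 2989823) (T.sa T.out (T.lf 48215 1791))) (T.sb (T.lf 50267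 556793855) (T.sa T.out (T.lf 45452 2433023))))) T.out) (T.sd (T.sc (T.se (T.sa T.out (T.sb (T.lf 50429 2430207) (T.lf 49259 2098431))) (T.sa T.out (T.sb (T.lf 46457 19783679) (T.lf 45437 2447359)))) (T.se (T.sa T.out (T.lf 47133 20840447)) (T.sa T.out (T.sb (T.lf 43417 3006463) (T.lf 42115 19783679))))) T.out)) (T.sb (T.sd (T.sb (T.se (T.lf 48726 564991) (T.lf 46529 2998271)) (T.se (T.lf 46385 38655) (T.lf 44119 19922943))) T.out) (T.sd (T.se (T.sa T.out (T.sc (T.lf 42519 19243007) (T.lf 40566 4863))) (T.sa T.out (T.sc (T.sb (T.lf 41538 2433023) (T.lf 39809 19767295)) (T.lf 38715 2990079)))) T.out))))) 0 512 0 512 0 512 512 1024 0 512 = true := by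
  decide +kernel

theorem c3 : chk tA tB vlist (T.sd (T.se (T.sc (T.sa T.out (T.sd (T.se (T.sc (T.sb (T.sa T.out (T.sd (T.lf 69237 1503) (T.lf 64092 1279))) T.out) (T.sb (T.sd (T.lf 64751 511) (T.lf 61979 35184392371711)) T.out)) (T.sc (T.sb (T.sd (T.sa T.out (T.lf 61927 1535)) (T.sa T.out (T.lf 57587 1535))) T.out) (T.sb (T.sd (T.lf 58726 2115071) (T.lf 55373 35188688027647)) T.out))) (T.se (T.sc (T.sa T.out (T.sb (T.se (T.lf 61492 255) (T.lf 58291 255)) T.out)) (T.sb (T.sa T.out (T.lf 53760 1279)) T.out)) (T.sc (T.sb (T.sa T.out (T.lf 54519 4315240447)) T.out) (T.sb (T.sa T.out (T.lf 50557 2426367)) T.out))))) (T.sa T.out (T.sd (T.sb (T.lf 53498 1049087) T.out) (T.sb (T.se (T.sc (T.sa T.out (T.lf 48712 255)) (T.lf 49775 255)) (T.sc (T.sa T.out (T.lf 46561 1279)) (T.lf 44606 19994623))) T.out)))) (T.sc (T.sa T.out (T.sd (T.sb (T.sc (T.sd (T.se (T.sa T.out (T.lf 56724 83455)) (T.sa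 T.out (T.lf 53536 85503))) (T.se (T.sa T.out (T.lf 53160 2442751)) (T.sa T.out (T.lf 49756 2448895)))) (T.sd (T.se (T.lf 54459 3231231) (T.lf 51740 20283391)) (T.se (T.sa T.out (T.lf 48660 1535)) (T.sa T.out (T.lf 46410 87551))))) T.out) (T.sc (T.sb (T.se (T.sa T.out (T.sd (T.lf 50431 2180607) (T.lf 48009 2163967))) (T.sa T.out (T.sd (T.lf 47020 2449407) (T.lf 44800 2446847)))) T.out) (T.sb (T.se (T.sa T.out (T.lf 45882 20971519)) (T.sa T.out (T.sd (T.lf 44464 2447359) (T.lf 42477 2447359)))) T.out)))) (T.sa T.out (T.sd (T.sb (T.sd (T.se (T.lf 48726 1072639) (T.lf 46529 20021247)) (T.se (T.lf 46385 1054207) (T.lf 44119 20938751))) T.out) (T.sb (T.se (T.sc (T.sa T.out (T.lf 42895 19224575)) (T.sa T.out (T.lf 40566 1535))) (T.sc (T.sa T.out (T.sd (T.lf 41488 88063) (T.lf 39708 19226623))) (T.sa T.out (T.lf 38715 20013055)))) T.out))))) (T.se (T.sa T.out (T.sc (T.se (T.sc (T.sa T.out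 (T.sd (T.sb (T.lf 54580 255) T.out) T.out)) (T.sa T.out (T.sd (T.sb (T.lf 48644 255) T.out) T.out))) (T.sc (T.sa T.out (T.sd (T.sb (T.lf 49919 255) T.out) T.out)) (T.sd (T.sb (T.sa T.out (T.lf 45460 1279)) T.out) T.out))) (T.se (T.sb (T.sd (T.sa T.out (T.sc (T.lf 44848 255) (T.lf 42159 255))) T.out) T.out) (T.sb (T.sd (T.sa T.out (T.sc (T.lf 43728 1279) (T.lf 41570 2102527))) T.out) T.out)))) (T.sa T.out (T.sc (T.sd (T.sc (T.sb (T.se (T.sa T.out (T.lf 46528 2426111)) (T.sa T.out (T.lf 43903 4314322943))) T.out) (T.sb (T.se (T.sa T.out (T.lf 42678 2430463)) (T.sa T.out (T.sd (T.lf 40597 2430975) T.out))) T.out)) T.out) (T.sb (T.sd (T.se (T.sa T.out (T.sc (T.lf 39589 20305919) (T.lf 37963 19240959))) (T.sa T.out (T.sc (T.sd (T.lf 38547 19357695) T.out) (T.sb (T.lf 36671 19767295) T.out)))) T.out) T.out))))) 0 512 512 1024 0 512 0 1024 0 512 = true := by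
  decide +kernel

theorem c4 : chk tA tB vlist (T.sb (T.sd (T.se (T.sb (T.sd (T.se (T.sb (T.sd (T.se (T.lf 198246 1) (T.sa T.out (T.lf 141604 1))) (T.sa T.out (T.se (T.lf 110136 1) (T.sc (T.sb (T.lf 99123 1) (T.lf 68064 8359)) T.out)))) (T.sd (T.sa T.out (T.se (T.lf 110136 1) (T.sc (T.sd (T.lf 99123 1) (T.lf 67968 8295)) T.out))) (T.sa T.out (T.sc (T.se (T.lf 66614 17592187137023) (T.lf 61289 8447)) T.out)))) (T.sb (T.sd (T.sa T.out (T.sb (T.lf 110136 1) (T.sc (T.lf 70128 11263) T.out))) (T.sa T.out (T.sc (T.sb (T.lf 66181 11007) (T.lf 62375 8319)) T.out))) (T.sa T.out (T.sd (T.sc (T.sd (T.lf 65898 8447) (T.lf 62240 10495)) T.out) (T.sc (T.sa T.out (T.lf 56646 127)) T.out))))) (T.sa T.out (T.se (T.sb (T.sd (T.sc (T.se (T.lf 67312 8959) (T.lf 63215 8959)) T.out) (T.sc (T.se (T.lf 61492 255) (T.lf 58291 255)) T.out)) (T.sc (T.sd (T.lf 58920 17592204442623) (T.lf 53760 767)) T.out))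 (T.sb (T.sc (T.sd (T.sa T.out (T.lf 55977 255)) (T.lf 54519 2165882879)) T.out) (T.sc (T.sd (T.lf 53769 48127) (T.lf 50557 47871)) T.out))))) (T.sd (T.sa T.out (T.se (T.sd (T.sb (T.sc (T.se (T.lf 67231 1057023) (T.lf 63026 8447)) T.out) (T.sc (T.lf 59655 17592203918335) T.out)) (T.sc (T.sb (T.lf 58872 17592203918335) (T.lf 54820 255)) T.out)) (T.sd (T.sc (T.sb (T.lf 58288 17873919) (T.lf 54207 18691717726207)) T.out) (T.sc (T.sb (T.lf 53670 1059839) (T.lf 49363 1063935)) T.out)))) (T.sa T.out (T.sc (T.se (T.sb (T.sd (T.lf 54554 255) (T.lf 48712 255)) (T.lf 49775 255)) (T.sb (T.sd (T.lf 49201 15359) (T.lf 46561 767)) (T.lf 44606 17842175))) T.out)))) (T.sb (T.sd (T.sa T.out (T.sb (T.sd (T.se (T.sc (T.sb (T.lf 66960 10879) (T.lf 62863 10367)) T.out) (T.sc (T.lf 59431 4504719004925951) T.out)) (T.sc (T.se (T.sb (T.lf 60001 639) (T.lf 57047 639)) (T.sa T.out (T.lf 53067 639))) T.out))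 (T.sd (T.sc (T.se (T.sd (T.lf 59683 10623) (T.lf 56890 10623)) (T.sa T.out (T.lf 52903 2175))) T.out) (T.sc (T.se (T.sa T.out (T.lf 52318 255)) (T.sa T.out (T.lf 47325 3071))) T.out)))) (T.sa T.out (T.sb (T.sc (T.se (T.sd (T.sa T.out (T.lf 51676 767)) (T.sa T.out (T.lf 48009 11007))) (T.sd (T.sa T.out (T.lf 49471 11007)) (T.sa T.out (T.lf 44800 572415)))) T.out) (T.sc (T.se (T.sd (T.sa T.out (T.lf 47916 767)) (T.lf 45882 20971519)) (T.sd (T.sa T.out (T.lf 46148 48127)) (T.sa T.out (T.lf 42477 573439)))) T.out)))) (T.sd (T.sa T.out (T.sc (T.sd (T.se (T.sb (T.lf 53703 18481151) (T.sa T.out (T.lf 49259 8703))) (T.sb (T.sa T.out (T.lf 48209 3071)) (T.sa T.out (T.lf 45437 1081343)))) (T.se (T.sb (T.lf 49925 20578303) (T.lf 47133 20840447)) (T.sb (T.sa T.out (T.lf 46054 1063935)) (T.sa T.out (T.lf 42115 18481151))))) T.out)) (T.sa T.out (T.sc (T.se (T.sb (T.sd (T.lf 47026 20561919) (T.lf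 42895 17874943)) (T.sd (T.lf 42519 17940479) (T.lf 40566 4863))) (T.sb (T.sd (T.sa T.out (T.lf 42021 1687551)) (T.sa T.out (T.lf 39708 1687551))) (T.sd (T.sa T.out (T.lf 39809 18464767)) (T.lf 38715 18431999)))) T.out))))) (T.se (T.sa T.out (T.sb (T.sd (T.sc (T.se (T.sb (T.sd (T.lf 55881 33535) T.out) (T.lf 48670 37631)) (T.sb (T.sa T.out (T.sd (T.lf 47947 767) T.out)) (T.lf 45227 19447807))) T.out) T.out) (T.sc (T.sd (T.lf 42479 4863) T.out) T.out))) (T.sa T.out (T.sb (T.sd (T.sc (T.sb (T.se (T.sa T.out (T.sd (T.lf 45990 45823) T.out)) (T.sa T.out (T.sd (T.lf 42472 638975) T.out))) (T.se (T.lf 43248 29343743) (T.sa T.out (T.lf 39798 20300431359)))) T.out) T.out) (T.sc (T.sd (T.lf 38747 436207615) T.out) T.out))))) (T.sd (T.se (T.sa T.out (T.sd (T.sb (T.se (T.sc (T.sd (T.sb (T.lf 54578 17834495) T.out) (T.lf 50373 1049087)) T.out) (T.sc (T.sd (T.sb (T.lf 51072 17841151) T.out) (T.lf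 45264 17842175)) T.out)) T.out) (T.sb (T.sc (T.lf 43731 511) T.out) T.out))) (T.sa T.out (T.sd (T.sb (T.sc (T.sd (T.se (T.sb (T.sa T.out (T.lf 44787 1063935)) T.out) (T.sb (T.sa T.out (T.lf 42551 87818239)) T.out)) (T.se (T.sa T.out (T.lf 41464 20316159)) (T.sa T.out (T.sb (T.lf 40226 18481151) T.out)))) T.out) T.out) (T.sb (T.sc (T.se (T.lf 38817 6143) (T.lf 37550 20938751)) T.out) T.out)))) (T.se (T.sa T.out (T.sc (T.sb (T.sd (T.se (T.lf 42407 20232191) (T.sa T.out (T.lf 37422 16783359))) T.out) T.out) T.out)) (T.sa T.out (T.sc (T.sb (T.sd (T.se (T.sa T.out (T.lf 35751 20430847)) (T.sa T.out (T.sc (T.sb (T.lf 35262 19210239) T.out) T.out))) T.out) T.out) T.out))))) 0 512 0 1024 512 1024 0 1024 0 512 = true := by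
  decide +kernel

theorem c5 : chk tA tB vlist (T.sd (T.sb (T.se (T.sd (T.sb (T.se (T.lf 198246 1) (T.sc (T.sd (T.lf 165205 1) (T.sa (T.sb (T.lf 141604 1) (T.lf 85298 10399)) (T.lf 123904 1))) (T.lf 141604 1))) (T.sc (T.sa (T.se (T.sd (T.sb (T.lf 141604 1) (T.lf 87204 17592187137535)) (T.sc (T.lf 86838 8351) (T.lf 80295 135))) (T.sc (T.sd (T.lf 86336 11775) (T.lf 80121 159)) (T.sd (T.lf 79927 8335) (T.lf 74329 15)))) (T.se (T.sd (T.lf 123904 1) (T.lf 75800 41471)) (T.sd (T.lf 75702 10719) (T.lf 70348 8607)))) (T.se (T.lf 110136 1) (T.sa (T.sd (T.lf 99123 1) (T.lf 68064 8335)) (T.lf 90112 1))))) (T.sb (T.sc (T.sa (T.se (T.sb (T.sd (T.lf 141604 1) (T.lf 86863 8351)) (T.sc (T.lf 86648 41151) (T.lf 80187 8343))) (T.sc (T.sb (T.lf 85426 8351) (T.lf 78068 159)) (T.lf 76564 43519))) (T.se (T.sb (T.lf 123904 1) (T.lf 75654 41151)) (T.sb (T.lf 99123 1) (T.lf 70023 8351)))) (T.se (T.lf 110136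 1) (T.sa (T.sb (T.lf 99123 1) (T.lf 67968 8223)) (T.lf 90112 1)))) (T.sc (T.sa (T.sc (T.se (T.lf 78744 9727) (T.lf 73389 191)) (T.lf 70399 44543)) (T.sc (T.se (T.lf 71222 8703) (T.lf 66707 8383)) (T.lf 64488 8447))) (T.sa (T.se (T.lf 66614 17592187137023) (T.lf 61289 8447)) (T.se (T.lf 61514 8351) (T.lf 57935 31)))))) (T.sd (T.sb (T.sc (T.sa (T.sd (T.sb (T.se (T.lf 141604 1) (T.lf 86610 10271)) (T.sc (T.lf 86029 10687) (T.lf 79731 15))) (T.sc (T.sb (T.lf 85308 10271) (T.lf 79443 31)) (T.lf 76412 10751))) (T.sd (T.sb (T.lf 123904 1) (T.lf 75532 10527)) (T.sb (T.lf 99123 1) (T.lf 69969 31)))) (T.sd (T.lf 110136 1) (T.sa (T.lf 70128 11263) (T.lf 90112 1)))) (T.sc (T.sa (T.sc (T.sd (T.se (T.lf 80347 10719) (T.lf 75735 10655)) (T.lf 73004 28159)) (T.sd (T.lf 72273 8703) (T.lf 67929 191))) (T.sc (T.sd (T.lf 71032 10687) (T.lf 66619 8703)) (T.lf 64385 8639))) (T.sa (T.sd (T.lf 66181 10751)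 (T.lf 62375 8319)) (T.lf 59542 36893506839117885439)))) (T.sc (T.sb (T.sa (T.sc (T.se (T.sb (T.lf 79217 31) (T.lf 73031 159)) (T.lf 72409 10495)) (T.sb (T.lf 71576 10431) (T.lf 67600 191))) (T.sc (T.se (T.lf 69872 8383) (T.lf 66034 8383)) (T.lf 63833 10687))) (T.sa (T.sc (T.lf 67491 45055) (T.lf 62983 10751)) (T.sc (T.lf 61638 61439) (T.lf 57994 8447)))) (T.sb (T.sa (T.sb (T.lf 65898 8447) (T.lf 62240 10495)) (T.lf 59246 11263)) (T.sa (T.sc (T.lf 59480 255) (T.lf 56646 127)) (T.lf 53827 8319)))))) (T.sc (T.se (T.sd (T.sa (T.sb (T.sc (T.se (T.lf 79821 273919) (T.lf 74531 8703)) (T.se (T.lf 73766 8415) (T.lf 69086 223))) (T.sc (T.lf 69237 1503) (T.lf 64092 511))) (T.sb (T.sc (T.se (T.lf 72205 8703) (T.lf 67771 8671)) (T.lf 65315 1059327)) (T.sc (T.lf 64149 1338879) (T.lf 59985 8703)))) (T.sa (T.sc (T.lf 64751 1279) (T.lf 61979 17592189579263)) (T.sb (T.sc (T.lf 62905 9727) (T.lf 58956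 255)) (T.sc (T.lf 56818 1535) (T.lf 53804 255))))) (T.sd (T.sa (T.sc (T.sb (T.sd (T.lf 70608 28159) (T.lf 64866 1535)) (T.lf 61927 1535)) (T.sb (T.lf 63833 11775) (T.lf 57587 1535))) (T.sb (T.sc (T.sd (T.lf 64514 9727) (T.lf 58695 9727)) (T.lf 57623 511)) (T.sc (T.lf 58450 290303) (T.lf 54811 511)))) (T.sa (T.sc (T.lf 58726 26111) (T.lf 55373 18691718643711)) (T.sc (T.sb (T.lf 56039 290303) (T.lf 52734 26111)) (T.sb (T.lf 52188 511) (T.lf 48614 1535)))))) (T.se (T.sd (T.sb (T.sa (T.se (T.lf 67312 8703) (T.lf 63215 8703)) (T.lf 60257 1059327)) (T.sa (T.se (T.lf 61492 255) (T.lf 58291 255)) (T.lf 55340 8703))) (T.sa (T.sb (T.lf 58920 17592187416575) (T.lf 53760 511)) (T.sb (T.lf 54510 255) (T.lf 50799 255)))) (T.sd (T.sa (T.sb (T.sc (T.lf 60127 255) (T.lf 55977 255)) (T.lf 54519 1099513004031)) (T.sb (T.lf 54423 8703) (T.lf 50706 511))) (T.sa (T.sb (T.lf 53769 1060863) (T.lf 50557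 1060351)) (T.sb (T.lf 49968 255) (T.lf 46052 9727))))))) (T.sb (T.sc (T.se (T.sa (T.sb (T.sd (T.sc (T.se (T.lf 79462 41215) (T.lf 73722 191)) (T.lf 70918 36965600719206219775)) (T.lf 67368 72112569622855679)) (T.sc (T.lf 66532 255) (T.lf 61826 307199))) (T.sb (T.sd (T.se (T.sc (T.lf 71858 41119) (T.lf 67226 31)) (T.sc (T.lf 66975 8383) (T.lf 62905 31))) (T.sc (T.lf 62197 304895) (T.lf 59567 32959))) (T.sd (T.sc (T.lf 62705 304383) (T.lf 57612 8447)) (T.sc (T.lf 58311 295167) (T.lf 53064 255))))) (T.sa (T.sb (T.sd (T.sc (T.lf 67512 44799) (T.lf 63156 11007)) (T.lf 60494 19791213363199)) (T.sc (T.lf 58811 1279) (T.lf 56223 2404351))) (T.sb (T.sd (T.sc (T.lf 61596 45055) (T.lf 58073 8447)) (T.sc (T.lf 55977 304895) (T.lf 53953 33023))) (T.sd (T.sc (T.lf 56810 42495) (T.lf 52459 8703)) (T.sc (T.lf 53209 296191) (T.lf 48699 42239)))))) (T.se (T.sb (T.sd (T.sa (T.se (T.lf 67231 41215)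 (T.lf 63026 8447)) (T.lf 60049 41215)) (T.sa (T.lf 59655 17592187400191) (T.lf 53982 41215))) (T.sa (T.sd (T.lf 58872 17592187400191) (T.lf 54820 255)) (T.sd (T.lf 54440 8447) (T.lf 50693 255)))) (T.sb (T.sa (T.sd (T.lf 58288 1355775) (T.lf 54207 17594337574911)) (T.sd (T.lf 54012 8447) (T.lf 49207 8959))) (T.sa (T.sd (T.lf 53670 44031) (T.lf 49363 45055)) (T.sd (T.lf 49821 8703) (T.lf 46791 41727)))))) (T.sc (T.sa (T.lf 53498 263423) (T.se (T.sc (T.sd (T.lf 56238 54975584927743) (T.lf 50413 1279)) (T.sd (T.lf 52783 1372159) (T.lf 48181 263423))) (T.sc (T.sd (T.sb (T.lf 51082 263679) (T.lf 48183 1279)) (T.lf 46719 263423)) (T.sd (T.sb (T.lf 47971 1535) (T.lf 45160 1535)) (T.lf 45208 305151))))) (T.sa (T.se (T.sd (T.sb (T.lf 54554 255) (T.lf 48712 255)) (T.lf 49775 255)) (T.sd (T.sb (T.lf 49201 12287) (T.lf 46561 511)) (T.lf 44606 311295))) (T.se (T.sd (T.sb (T.lf 50473 255) (T.lf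 47456 255)) (T.sb (T.lf 47416 255) (T.lf 44849 255))) (T.sd (T.sb (T.lf 46687 511) (T.lf 42646 10239)) (T.sb (T.lf 42776 43007) (T.lf 40489 10239)))))))) 512 1024 0 512 0 512 0 512 0 256 = true := by
  decide +kernel

end Pool.Agent.Lib.MP_3a1514_mp
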