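import Pool.Agent.Lib.MP_3a1514_mp.Data

set_option maxRecDepth 100000

namespace Pool.Agent.Lib.MP_3a1514_mp

theorem c6 : chk tA tB vlist (T.sd (T.sb (T.sc (T.sd (T.sb (T.sa (T.se (T.sc (T.sd (T.sb (T.lf 81819 10527) (T.lf 76420 2335)) (T.lf 73417 10751)) (T.sd (T.lf 73174 10559) (T.lf 68389 10559))) (T.sc (T.lf 69614 28543) (T.lf 64747 11135))) (T.se (T.sd (T.sc (T.lf 71740 10751) (T.lf 67135 31)) (T.lf 64752 36898010991185752063)) (T.sc (T.lf 63410 28671) (T.lf 59493 2367)))) (T.sa (T.se (T.sc (T.sd (T.lf 70424 28159) (T.lf 66473 3583)) (T.lf 63620 1099512803327)) (T.sc (T.lf 63394 94207) (T.lf 59088 28159))) (T.se (T.sc (T.lf 62522 1372159) (T.lf 58683 8575)) (T.sc (T.lf 58106 28159) (T.lf 54580 2431))))) (T.sa (T.sb (T.se (T.sc (T.lf 67389 323583) (T.lf 63061 11263)) (T.sc (T.lf 60506 20479) (T.lf 58508 12287))) (T.se (T.sc (T.lf 61898 28159) (T.lf 56754 12287)) (T.sc (T.lf 55458 94207) (T.lf 53098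 28671)))) (T.sb (T.se (T.sc (T.lf 61567 61439) (T.lf 58050 10623)) (T.sc (T.lf 55935 28671) (T.lf 53919 2431))) (T.se (T.sc (T.lf 56748 28671) (T.lf 53515 8703)) (T.sc (T.lf 53114 389119) (T.lf 50161 11775)))))) (T.sd (T.sb (T.se (T.sa (T.sd (T.lf 66960 10623) (T.lf 62863 10367)) (T.lf 59998 10623)) (T.sa (T.lf 59431 4505251580870655) (T.lf 55064 10559))) (T.sa (T.se (T.sd (T.lf 60001 383) (T.lf 57047 383)) (T.sc (T.lf 54606 11263) (T.lf 53067 383))) (T.se (T.lf 54336 8575) (T.lf 50576 11135)))) (T.sb (T.sa (T.se (T.sb (T.lf 59683 10879) (T.lf 56890 10879)) (T.sc (T.lf 55424 2943) (T.lf 52903 2175))) (T.se (T.lf 53995 8575) (T.lf 50218 2431))) (T.sa (T.se (T.sc (T.lf 53716 10751) (T.lf 52318 255)) (T.sc (T.lf 49813 12287) (T.lf 47325 3071))) (T.se (T.lf 49784 8703) (T.lf 46734 11263)))))) (T.sc (T.sa (T.sd (T.sc (T.se (T.sb (T.sd (T.lf 63361 28671) (T.lf 60312 17919)) (T.lf 56724 19967)) (T.sb (T.lf 56838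 550294126591) (T.lf 53536 85503))) (T.se (T.sb (T.lf 57554 1077247) (T.lf 53160 1076735)) (T.sb (T.lf 53866 1142783) (T.lf 49756 1142783)))) (T.sc (T.se (T.lf 54459 355839) (T.lf 51740 3538943)) (T.se (T.sb (T.lf 53056 3583) (T.lf 48660 1535)) (T.sb (T.lf 48702 94207) (T.lf 46410 20479))))) (T.sd (T.sc (T.se (T.sb (T.lf 56678 1649268879359) (T.lf 54354 1338879)) (T.sb (T.lf 54224 323583) (T.lf 49388 290815))) (T.se (T.sb (T.lf 54345 10751) (T.lf 51059 1535)) (T.sb (T.lf 49920 3583) (T.lf 46449 17919)))) (T.sc (T.se (T.sb (T.lf 53154 290815) (T.lf 48098 290303)) (T.sb (T.lf 48264 39321599) (T.lf 45334 290815))) (T.se (T.sb (T.lf 50130 1535) (T.lf 46487 9727)) (T.sb (T.lf 45361 28671) (T.lf 42960 28671)))))) (T.sd (T.sa (T.se (T.sb (T.sc (T.lf 55443 10751) (T.lf 51676 511)) (T.sc (T.lf 50431 28159) (T.lf 48009 10751))) (T.sb (T.sc (T.lf 51944 28671) (T.lf 49471 10751)) (T.sc (T.lf 47020 1146879) (T.lf 44800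 1077247)))) (T.se (T.sb (T.lf 50345 8703) (T.lf 47316 10751)) (T.sb (T.lf 47266 10751) (T.lf 43760 28671)))) (T.sa (T.se (T.sb (T.sc (T.lf 50226 11775) (T.lf 47916 511)) (T.lf 45882 20971519)) (T.sb (T.sc (T.lf 46599 1114111) (T.lf 46148 28671)) (T.sc (T.lf 44464 1081343) (T.lf 42477 1081343)))) (T.se (T.sb (T.lf 46640 10751) (T.lf 43254 1077247)) (T.sb (T.lf 44052 1372159) (T.lf 41031 102236159))))))) (T.sb (T.sc (T.sa (T.sb (T.se (T.sd (T.sc (T.lf 60438 323583) (T.lf 56765 12287)) (T.sc (T.lf 55518 3839) (T.lf 53073 44799))) (T.sd (T.sc (T.lf 55455 126975) (T.lf 53023 126975)) (T.sc (T.lf 51923 118783) (T.lf 49790 393215)))) (T.se (T.sc (T.lf 53284 389119) (T.sd (T.lf 53877 2047) (T.lf 48215 1791))) (T.sc (T.lf 50267 545128447) (T.sd (T.lf 48103 393215) (T.lf 45911 126975))))) (T.sb (T.se (T.sd (T.sc (T.lf 55329 323583) (T.lf 52324 9215)) (T.sc (T.lf 51676 389119) (T.lf 49993 44031))) (T.sd (T.sc (T.lf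 52748 4505252703240191) (T.lf 49980 12287)) (T.sc (T.sa (T.lf 48198 323583) (T.lf 47579 36863)) (T.lf 46019 393215)))) (T.se (T.sd (T.sc (T.lf 52649 323583) (T.lf 49790 9727)) (T.sc (T.lf 47524 389119) (T.lf 45957 43007))) (T.sd (T.sc (T.sa (T.lf 48639 20479) (T.lf 47126 4095)) (T.lf 45929 61439)) (T.sc (T.sa (T.lf 45874 282623) (T.lf 44017 315391)) (T.lf 42985 5767167)))))) (T.sa (T.sb (T.se (T.sd (T.lf 53703 1966079) (T.sc (T.lf 50429 44031) (T.lf 49259 8959))) (T.sd (T.sc (T.lf 49874 61439) (T.lf 48209 3071)) (T.sc (T.lf 46457 1966079) (T.lf 45437 573439)))) (T.se (T.sd (T.lf 49925 4063231) (T.lf 47133 20840447)) (T.sd (T.sc (T.lf 47136 65535) (T.lf 46054 45055)) (T.sc (T.lf 43417 917503) (T.lf 42115 917503))))) (T.sb (T.se (T.sd (T.lf 49845 9215) (T.lf 46734 41983)) (T.sd (T.lf 46724 11263) (T.sc (T.lf 44937 44031) (T.lf 43204 767)))) (T.se (T.sd (T.lf 45496 11263) (T.lf 43866 307199)) (T.sd (T.lf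 43844 1372159) (T.sc (T.lf 41110 323583) (T.lf 39525 44031))))))) (T.sc (T.sa (T.sc (T.se (T.lf 48726 346111) (T.lf 46529 2490367)) (T.se (T.lf 46385 264191) (T.lf 44119 4194303))) (T.sc (T.se (T.sd (T.sb (T.lf 48651 290303) (T.lf 45366 17919)) (T.lf 44228 323583)) (T.sd (T.sb (T.lf 44834 7733247) (T.lf 42685 282623)) (T.lf 41920 67108863))) (T.se (T.sd (T.sb (T.lf 46009 10239) (T.lf 42903 10239)) (T.lf 41906 7733247)) (T.sd (T.sb (T.lf 43538 1372159) (T.lf 40574 290815)) (T.sb (T.lf 40098 5767167) (T.lf 38644 323583)))))) (T.sa (T.se (T.sd (T.sb (T.lf 47026 3538943) (T.lf 42895 1114111)) (T.sb (T.lf 42519 1425407) (T.lf 40566 1535))) (T.sd (T.sb (T.sc (T.lf 43909 65535) (T.lf 42021 1179647)) (T.sc (T.lf 41488 24575) (T.lf 39708 1179647))) (T.sb (T.sc (T.lf 41538 114687) (T.lf 40215 393215)) (T.lf 38715 393215)))) (T.se (T.sd (T.sb (T.lf 43830 45055) (T.lf 40028 1572863)) (T.sb (T.lf 41594 1572863) (T.lf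 38911 1376255))) (T.sd (T.sb (T.sc (T.lf 41569 45055) (T.lf 39107 11263)) (T.sc (T.lf 39294 61439) (T.lf 37538 45055))) (T.sb (T.sc (T.lf 38933 1441791) (T.lf 37622 61439)) (T.sc (T.lf 37107 327679) (T.lf 35533 1376255))))))))) 512 1024 0 512 0 512 0 512 256 512 = true := by
  decide +kernel

theorem c7 : chk tA tB vlist (T.se (T.sb (T.sd (T.se (T.sb (T.lf 123904 1) (T.sd (T.lf 99123 1) (T.sa (T.sc (T.lf 58932 8447) (T.lf 70802 1)) (T.lf 70802 1)))) (T.sb (T.sd (T.lf 99123 1) (T.sa (T.sc (T.lf 58718 8319) (T.lf 70802 1)) (T.lf 70802 1))) (T.sd (T.sc (T.sa (T.lf 58718 8319) (T.lf 70802 1)) (T.lf 70802 1)) (T.sa (T.sc (T.lf 53241 127) (T.lf 48716 111)) (T.lf 48107 8447))))) (T.se (T.sb (T.sd (T.sa (T.sc (T.lf 59443 8959) (T.lf 70802 1)) (T.lf 70802 1)) (T.sa (T.sc (T.lf 54580 255) (T.lf 50885 119)) (T.lf 49091 8959))) (T.sd (T.sa (T.sc (T.lf 53861 255) (T.lf 49176 119)) (T.lf 48495 8319)) (T.sa (T.sc (T.lf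 48644 255) (T.lf 44724 127)) (T.lf 45191 255)))) (T.sb (T.sd (T.sa (T.sc (T.lf 53613 8447) (T.lf 50149 119)) (T.lf 48386 8319)) (T.sa (T.sc (T.lf 49919 255) (T.lf 44841 127)) (T.lf 45076 8831))) (T.sa (T.sc (T.sd (T.lf 49365 255) (T.lf 45460 767)) (T.lf 44731 17592187141119)) (T.sc (T.lf 44660 1092607) (T.lf 41967 8319)))))) (T.sd (T.se (T.sd (T.sb (T.sc (T.sa (T.lf 59443 8703) (T.lf 70802 1)) (T.lf 70802 1)) (T.sc (T.sa (T.lf 54580 255) (T.lf 50885 95)) (T.lf 49091 8703))) (T.sb (T.sc (T.sa (T.lf 53861 255) (T.lf 49176 95)) (T.lf 48495 8319)) (T.sc (T.sa (T.lf 48644 255) (T.lf 44724 127)) (T.lf 45191 255)))) (T.sd (T.sb (T.sc (T.sa (T.lf 53613 8447) (T.lf 50149 95)) (T.lf 48386 8319)) (T.sc (T.sa (T.lf 49919 255) (T.lf 44841 127)) (T.lf 45076 8575))) (T.sc (T.sa (T.sb (T.lf 49365 255) (T.lf 45460 511)) (T.lf 44731 17592187138047)) (T.sa (T.lf 44660 1092607) (T.lf 41967 8319))))) (T.se (T.sa (T.sc (T.sb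 (T.sd (T.lf 48889 255) (T.lf 44848 255)) (T.sd (T.lf 44848 255) (T.lf 42159 255))) (T.sb (T.lf 45070 1057791) (T.lf 42510 17873919))) (T.sc (T.sd (T.lf 45070 1090047) (T.lf 42510 1355775)) (T.sb (T.lf 42229 255) (T.lf 39850 255)))) (T.sa (T.sc (T.sb (T.sd (T.lf 46207 255) (T.lf 43728 767)) (T.sd (T.lf 43728 511) (T.lf 41570 9215))) (T.sb (T.lf 42017 17594354417663) (T.sd (T.lf 39449 255) (T.lf 37725 767)))) (T.sc (T.sd (T.lf 42017 18691718053887) (T.sb (T.lf 39449 255) (T.lf 37725 511))) (T.sb (T.lf 39468 255) (T.lf 37474 8703))))))) (T.sb (T.sd (T.sb (T.sd (T.se (T.sa (T.sc (T.lf 59295 10623) (T.lf 70802 1)) (T.lf 70802 1)) (T.sa (T.sc (T.lf 54423 2175) (T.lf 49211 111)) (T.lf 49057 10623))) (T.se (T.sa (T.sc (T.lf 53564 8831) (T.lf 50111 47)) (T.lf 48375 8319)) (T.sa (T.sc (T.lf 49845 2687) (T.lf 44787 127)) (T.lf 45059 8831)))) (T.sd (T.se (T.sc (T.sa (T.lf 53564 8575) (T.lf 50111 47)) (T.lf 48375 8319))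 (T.sc (T.sa (T.lf 49845 2431) (T.lf 44787 127)) (T.lf 45059 8575))) (T.sa (T.sc (T.se (T.lf 49259 8447) (T.lf 46252 11135)) (T.lf 44624 1092607)) (T.sc (T.lf 44624 1092607) (T.lf 41940 127))))) (T.sa (T.sb (T.sc (T.se (T.sd (T.lf 49555 8831) (T.lf 46528 43775)) (T.sd (T.lf 45541 11263) (T.lf 43903 2149236735))) (T.se (T.sd (T.lf 44798 127) (T.lf 43666 127)) (T.lf 42394 2308636671))) (T.sc (T.se (T.sd (T.lf 46072 767) (T.lf 42678 48127)) (T.sd (T.lf 42615 1097727) (T.sa (T.lf 40597 49151) (T.lf 40610 11263)))) (T.se (T.sd (T.lf 41652 127) (T.lf 38852 767)) (T.sd (T.lf 40005 8831) (T.lf 37664 11263))))) (T.sb (T.sc (T.se (T.lf 44771 2149367807) (T.lf 42172 2149515263)) (T.se (T.lf 42153 639) (T.lf 39761 9087))) (T.sc (T.se (T.lf 41888 18693874515967) (T.sd (T.lf 39522 895) (T.lf 38728 11263))) (T.se (T.lf 39439 639) (T.lf 37427 9215)))))) (T.sd (T.sc (T.sd (T.sa (T.se (T.sb (T.lf 49555 8575) (T.lf 46528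 1059327)) (T.sb (T.lf 45541 11263) (T.lf 43903 1099512872959))) (T.se (T.sb (T.lf 44798 127) (T.lf 43666 127)) (T.lf 42394 1099614322687))) (T.sa (T.se (T.sb (T.lf 46072 511) (T.lf 42678 1060863)) (T.sb (T.lf 42615 1097727) (T.sc (T.lf 40597 1064959) (T.lf 40610 11263)))) (T.se (T.sb (T.lf 41652 127) (T.lf 38852 511)) (T.sb (T.lf 40005 8575) (T.lf 37664 11263))))) (T.sd (T.sa (T.se (T.lf 44771 1099529519103) (T.lf 42172 1099530174463)) (T.se (T.lf 42153 383) (T.lf 39761 9087))) (T.sa (T.se (T.lf 41888 18693933236223) (T.sb (T.lf 39522 895) (T.lf 38728 11263))) (T.se (T.lf 39439 383) (T.lf 37427 9215))))) (T.sa (T.sc (T.se (T.sb (T.sd (T.lf 43399 1092607) (T.lf 39589 18661375)) (T.sd (T.lf 39589 18153471) (T.lf 37963 1359871))) (T.sb (T.sd (T.sa (T.lf 40628 16383) (T.lf 39040 11263)) (T.sa (T.lf 38547 1818623) (T.lf 37232 1097727))) (T.sd (T.sc (T.lf 38547 1310719) (T.lf 37232 1097727)) (T.sa (T.lf 36671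 18464767) (T.lf 35630 1507327))))) (T.se (T.sb (T.sd (T.lf 40683 255) (T.lf 37154 9215)) (T.sd (T.lf 38674 1023) (T.lf 35810 1063935))) (T.sb (T.sd (T.lf 38652 9215) (T.lf 35424 1622015)) (T.sd (T.lf 35374 18006015) (T.lf 34059 96468991))))) (T.sc (T.se (T.sd (T.sb (T.lf 40683 255) (T.lf 37154 9215)) (T.sb (T.lf 38674 1023) (T.lf 35810 45055))) (T.sd (T.sb (T.lf 38652 9215) (T.lf 35424 1114111)) (T.sb (T.lf 35374 1245183) (T.lf 34059 96468991)))) (T.se (T.sb (T.lf 36542 9215) (T.lf 35579 1092607)) (T.sb (T.lf 35560 44031) (T.lf 34017 96468991)))))))) 512 1024 0 512 512 1024 0 512 0 512 = true := by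
  decide +kernel

theorem c8 : chk tA tB vlist (T.se (T.sc (T.sd (T.sa (T.sb (T.se (T.lf 56197 1535) (T.lf 51993 17919)) (T.se (T.sc (T.sd (T.sa T.out (T.lf 54932 1503)) (T.sa T.out (T.lf 51106 1279))) (T.sd (T.lf 51195 1535) (T.lf 50515 1535))) (T.sc (T.sd (T.sa T.out (T.lf 49830 1535)) (T.sa T.out (T.lf 46735 1535))) (T.sd (T.lf 47627 1535) (T.lf 45589 2377215))))) (T.sb (T.se (T.sd (T.sc (T.sb (T.lf 58112 26111) (T.lf 54932 1503)) (T.sb (T.lf 56056 511) (T.lf 51106 511))) (T.sc (T.lf 51195 1535) (T.lf 50515 1535))) (T.sd (T.sc (T.sb (T.lf 53991 26111) (T.lf 49830 1535)) (T.sb (T.lf 49864 1535) (T.lf 46735 1535))) (T.sc (T.lf 47627 1535) (T.lf 45128 288255)))) (T.lf 46604 1535))) (T.sa (T.sb (T.se (T.sc (T.sa (T.lf 55881 263423) (T.lf 51201 1279)) (T.lf 48670 263679)) (T.sc (T.sd (T.lf 50351 3491327) (T.sa (T.lf 47947 1279) (T.lf 45334 1279))) (T.lf 45227 3504127))) (T.se (T.sc (T.sa T.out (T.lf 47389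 2360831)) (T.sa T.out (T.lf 45612 263423))) (T.sc (T.sa T.out (T.lf 45518 2360831)) (T.sd (T.lf 44668 3425791) (T.lf 42719 19224063))))) (T.sb (T.lf 44356 2369023) (T.se (T.sc (T.lf 45589 35184396596735) (T.lf 41108 1535)) (T.sc (T.lf 41437 24499711) (T.lf 39107 1535)))))) (T.sd (T.sb (T.sa (T.se (T.sd (T.sb (T.lf 55881 1049087) (T.lf 51201 511)) (T.lf 48670 1050111)) (T.sd (T.sc (T.lf 50351 1338879) (T.sb (T.lf 47947 511) (T.lf 45334 511))) (T.lf 45227 3440639))) (T.se (T.sd (T.sb (T.lf 51715 511) (T.lf 47389 1058303)) (T.sb (T.lf 47928 511) (T.lf 45612 1049087))) (T.sd (T.sb (T.lf 46848 1058303) (T.lf 45518 1058303)) (T.sc (T.lf 44668 1336831) (T.lf 42719 1110015))))) (T.sa (T.lf 43822 1058303) (T.se (T.sd (T.lf 45589 17592273399807) (T.lf 41108 1535)) (T.sd (T.lf 41437 85258239) (T.lf 39107 1535))))) (T.sa (T.sb (T.lf 42479 1535) (T.se (T.sc (T.lf 43109 20280831) (T.lf 39758 1535)) (T.sc (T.lf 40053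 35184463839231) (T.lf 38208 3413503)))) (T.sb (T.se (T.sd (T.lf 43109 3469311) (T.lf 39758 1535)) (T.sd (T.lf 40053 17592277794815) (T.lf 38208 1320959))) (T.lf 36647 1535))))) (T.sc (T.sd (T.sa (T.sb (T.sc (T.sd (T.lf 51147 19967) (T.lf 47774 288355493515100159)) (T.lf 46438 662175743)) (T.sc (T.sd (T.lf 46795 8710881279) (T.se (T.lf 45642 4348805119) (T.lf 43296 2442751))) (T.sd (T.lf 43604 1132031) (T.lf 42315 125272063)))) (T.sb (T.sd (T.sc (T.lf 46795 549797101567) (T.se (T.lf 45642 1099548721151) (T.lf 43296 1076735))) (T.sc (T.lf 43604 282111) (T.lf 42315 108527615))) (T.lf 40653 1328639))) (T.sa (T.sb (T.sc (T.se (T.sd (T.lf 46683 3538943) (T.sa (T.lf 45990 2360831) (T.lf 43480 263679))) (T.sd (T.lf 44657 12943622143) (T.sa (T.lf 42472 2449407) (T.lf 40563 2447359)))) (T.se (T.lf 43248 24641535) (T.sd (T.lf 41440 350207) (T.lf 39798 13555990527)))) (T.sc (T.se (T.sd (T.lf 43532 4353122303) (T.lf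 42034 4319434751)) (T.sd (T.lf 41125 53829631) (T.lf 39333 4420272127))) (T.se (T.sd (T.lf 40692 20283391) (T.lf 39169 20404223)) (T.sd (T.lf 38562 20275199) (T.lf 37729 58155007))))) (T.sb (T.lf 39580 125304831) (T.sc (T.lf 38330 41375743) (T.lf 36331 3495423))))) (T.sd (T.sb (T.sa (T.sd (T.se (T.sc (T.lf 46683 20316159) (T.sb (T.lf 45990 1058303) (T.lf 43480 1050111))) (T.sc (T.lf 44657 1649389076479) (T.sb (T.lf 42472 1146879) (T.lf 40563 1081343)))) (T.se (T.lf 43248 87556095) (T.sc (T.lf 41440 1073151) (T.lf 39798 1650198577151)))) (T.sd (T.se (T.sc (T.lf 43532 1099613863935) (T.lf 42034 1099580112895)) (T.sc (T.lf 41125 34996223) (T.lf 39333 1099636932607))) (T.se (T.sc (T.lf 40692 3538943) (T.lf 39169 1507327)) (T.sc (T.lf 38562 1441791) (T.lf 37729 102236159))))) (T.sa (T.lf 39580 125304831) (T.sd (T.lf 38330 102137855) (T.lf 36331 1339391)))) (T.sa (T.sb (T.lf 38747 134217727) (T.se (T.sc (T.sd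 (T.lf 38145 3429887) (T.lf 37029 20404223)) (T.lf 36131 20412415)) (T.sc (T.sd (T.lf 36522 3495935) (T.lf 35390 20447231)) (T.lf 34573 18148037490638847)))) (T.sb (T.se (T.sd (T.sc (T.lf 38145 1337343) (T.lf 37029 1507327)) (T.lf 36131 3604479)) (T.sd (T.sc (T.lf 36522 1376255) (T.lf 35390 20447231)) (T.lf 34573 127042985132031))) (T.lf 33396 1341439)))))) 512 1024 512 1024 0 512 0 512 0 512 = true := by
  decide +kernel

theorem c9 : chk tA tB vlist (T.se (T.sd (T.sb (T.se (T.sd (T.sc (T.sa (T.sb (T.lf 50998 255) (T.lf 48203 511)) (T.sb (T.lf 47552 223) (T.lf 43574 255))) (T.sa (T.sb (T.lf 46492 239) (T.lf 43495 255)) (T.lf 43185 511))) (T.sc (T.sa (T.sb (T.lf 47336 255) (T.lf 42791 511)) (T.lf 43034 18691785031679)) (T.sa (T.lf 42987 18033090227388415) (T.lf 40295 511)))) (T.sc (T.sa (T.sd (T.sb (T.lf 46099 1049087) (T.lf 43854 1060863)) (T.sb (T.lf 43158 1057279) (T.lf 41261 1058303))) (T.sd (T.sb (T.lf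 42304 383) (T.lf 39976 511)) (T.sb (T.lf 40425 255) (T.lf 38076 511)))) (T.sd (T.sa (T.sb (T.lf 42347 255) (T.lf 40492 511)) (T.lf 40243 511)) (T.sa (T.sb (T.lf 39912 255) (T.lf 37621 1049087)) (T.lf 37845 1057279))))) (T.sc (T.sa (T.se (T.sd (T.lf 43572 18033090294579199) (T.lf 40589 1049087)) (T.sd (T.sc (T.lf 41995 1058303) (T.lf 39788 84967423)) (T.lf 38548 17835519))) (T.se (T.sd (T.sb (T.lf 41106 511) (T.lf 39137 1049087)) (T.lf 38259 18149375)) (T.sd (T.sb (T.lf 38559 1049087) (T.lf 36743 1050111)) (T.lf 36512 85393407)))) (T.sa (T.se (T.sd (T.sb (T.lf 42757 1048831) T.out) (T.lf 37822 18031990782869503)) (T.sd (T.sb (T.lf 39173 1049087) T.out) (T.sb (T.lf 36677 1057791) T.out))) (T.se (T.sd (T.lf 39202 1058815) (T.lf 36957 1058815)) (T.sd (T.lf 36905 17870847) (T.lf 34256 85393407)))))) (T.sb (T.sc (T.sa (T.se (T.lf 42407 20232191) (T.sd (T.lf 39177 20447231) (T.lf 37422 1054719))) (T.se (T.sd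 (T.lf 40603 1355775) (T.lf 37845 1353727)) (T.sd (T.sb (T.lf 37680 511) (T.lf 36352 1057279)) (T.lf 35787 20447231)))) (T.sa (T.se (T.sd (T.lf 40576 17873919) (T.lf 37832 17871871)) (T.sd (T.sb (T.lf 38208 511) (T.lf 36658 1057279)) (T.lf 35756 17592274124799))) (T.se (T.sd (T.lf 38050 8703) (T.lf 36235 1090559)) (T.sd (T.lf 35191 1093631) (T.lf 33647 17874943))))) (T.sc (T.sa (T.lf 36223 1050111) (T.se (T.lf 35902 18130943) (T.lf 33564 87556095))) (T.sa (T.se (T.lf 35508 19970047) (T.lf 33497 18075971563290623)) (T.se (T.sd (T.lf 34426 1091583) (T.lf 32067 17868799)) (T.sd (T.lf 32048 85393407) (T.lf 31088 18266111))))))) (T.sd (T.sb (T.sc (T.sa (T.sd (T.se (T.sb (T.lf 43217 1081343) (T.lf 42155 1099632738303)) (T.sb (T.sc (T.lf 41098 1081343) (T.lf 39595 1060863)) (T.sc (T.lf 39377 84967423) (T.lf 37942 1081343)))) (T.se (T.sb (T.lf 41547 18153471) (T.lf 38433 18153471)) (T.sb (T.sc (T.lf 38822 1179647)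 (T.lf 37118 1081343)) (T.sc (T.lf 37133 17858559) (T.lf 36012 85131263))))) (T.sd (T.se (T.sb (T.lf 39977 511) (T.lf 39624 1049087)) (T.sb (T.lf 38145 1059327) (T.lf 36398 1060863))) (T.se (T.sb (T.lf 37640 1057279) (T.lf 36685 1058303)) (T.sb (T.lf 35877 1077247) (T.lf 34349 1114111))))) (T.sa (T.sd (T.se (T.sb (T.lf 39956 511) (T.lf 38571 1057791)) (T.sb (T.lf 39087 1057791) (T.lf 36689 85098495))) (T.se (T.sb (T.lf 38088 1057279) (T.lf 35795 1064959)) (T.sb (T.lf 35907 18006015) (T.lf 34349 27488327565311)))) (T.sd (T.se (T.lf 37968 1057279) (T.lf 36133 1110015)) (T.se (T.lf 35159 1097727) (T.lf 33593 1099639554047))))) (T.sc (T.sa (T.sd (T.se (T.sc (T.lf 38507 17858047) (T.lf 37307 1099633262591)) (T.sc (T.lf 37068 85164031) (T.sb (T.lf 36721 84967423) T.out))) (T.se (T.lf 36592 19955711) (T.lf 34488 121634815))) (T.sd (T.se (T.sc (T.lf 37299 1076735) (T.lf 35270 68186111)) (T.lf 35009 71468381634559))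 (T.se (T.lf 34422 125304831) (T.lf 32429 1099905892351)))) (T.sa (T.sd (T.se (T.sb (T.lf 36677 17842175) T.out) (T.sb (T.sa T.out (T.lf 33973 1060863)) T.out)) (T.se (T.sb (T.lf 35205 18006015) T.out) (T.sb (T.sa T.out (T.lf 32512 17973247)) T.out))) (T.sd (T.se (T.sb (T.lf 34616 511) (T.lf 33243 1057279)) (T.sb (T.lf 32912 1059839) (T.lf 31356 68169727))) (T.se (T.sb (T.lf 33231 1057279) (T.lf 31379 1060863)) (T.sb (T.lf 30993 1196031) (T.lf 30253 68321279))))))) (T.sb (T.sc (T.sa (T.se (T.sd (T.sb (T.lf 38078 18284543) (T.lf 36296 1064959)) (T.lf 35751 20430847)) (T.sd (T.sb (T.sc (T.lf 36791 1310719) (T.lf 35537 18022399)) (T.lf 34588 88080383)) (T.sb (T.sc (T.lf 35262 1163263) (T.lf 33850 18087935)) (T.lf 33128 18317311)))) (T.se (T.sd (T.sb (T.lf 36321 1058815) (T.lf 34430 1097727)) (T.sb (T.lf 34396 1097727) (T.lf 32846 1359871))) (T.sd (T.sb (T.lf 34722 18284543) (T.lf 33152 85458943)) (T.sb (T.lf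 32490 110784324310617030655) (T.lf 31527 125829119))))) (T.sa (T.se (T.sd (T.sb (T.lf 36248 1063935) (T.lf 34337 17874943)) (T.sb (T.lf 34719 1097727) (T.lf 33128 18006015))) (T.sd (T.sb (T.sa T.out (T.lf 33190 1063935)) (T.sa T.out (T.lf 32093 1228799))) (T.sb (T.sa T.out (T.lf 32421 1097727)) (T.sa T.out (T.lf 31155 18022399))))) (T.se (T.sd (T.lf 34219 18691827695615) (T.sb (T.lf 32075 1057791) (T.lf 30725 1095679))) (T.sd (T.sb (T.lf 32054 1059839) (T.lf 31077 1228799)) (T.sb (T.lf 30654 1228799) (T.lf 29895 85983231)))))) (T.sc (T.sa (T.se (T.lf 33597 17831935) (T.lf 32536 20414463)) (T.se (T.sd (T.lf 32451 18284543) (T.lf 31194 18135039)) (T.sd (T.lf 30885 121110527) (T.lf 30279 87490559)))) (T.sa (T.se (T.sd (T.sb (T.lf 33164 18006015) T.out) (T.lf 31245 20365311)) (T.sd (T.sb (T.sa T.out (T.lf 31176 18022399)) T.out) (T.sa T.out (T.lf 29598 390070271)))) (T.se (T.sd (T.sb (T.lf 31023 1062911) (T.lf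 30197 17840127)) (T.sb (T.lf 29834 1228799) (T.lf 29230 17971199))) (T.sd (T.sb (T.lf 29931 85393407) (T.lf 28941 85393407)) (T.sb (T.lf 29132 92274687) (T.lf 28032 87556095))))))))) 512 1024 512 1024 512 1024 0 512 0 512 = true := by
  decide +kernel

theorem c10 : chk tA tB vlist (T.se (T.sb (T.sc (T.sa (T.sd (T.lf 53956 296703) (T.se (T.sc (T.sb (T.sa T.out (T.lf 53754 295103)) (T.sa T.out (T.lf 50442 262399))) (T.sb (T.lf 51613 33023) (T.lf 49232 296191))) (T.sc (T.sb (T.sa T.out (T.lf 48658 296191)) (T.sa T.out (T.lf 45997 296191))) (T.sb (T.lf 47180 33535) (T.lf 44603 2463487))))) (T.sd (T.se (T.sb (T.sc (T.sd (T.lf 59295 295167) (T.lf 53754 295103)) (T.sd (T.lf 53655 33023) (T.lf 50442 33023))) (T.sc (T.lf 51613 262399) (T.lf 48043 296191))) (T.sb (T.sc (T.sd (T.lf 51859 296703) (T.lf 48512 296191)) (T.sd (T.lf 50799 41727) (T.lf 45997 295679))) (T.sc (T.lf 47180 263423) (T.lf 44603 307199)))) (T.lf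 44665 2402047))) (T.sd (T.se (T.sa (T.sb (T.sd (T.lf 54578 303871) (T.lf 50536 33023)) (T.lf 50373 33535)) (T.sb (T.sd (T.lf 51490 33023) (T.lf 48661 33535)) (T.sd (T.lf 47803 41215) (T.lf 43860 33535)))) (T.sa (T.sb (T.sd (T.lf 51072 307199) (T.lf 47555 303871)) (T.lf 45264 311295)) (T.sb (T.sd (T.lf 47346 33535) (T.lf 45019 305151)) (T.sd (T.lf 44385 43007) (T.lf 40531 304895))))) (T.sa (T.lf 43752 308991) (T.se (T.sb (T.sc (T.lf 44135 295679) (T.lf 43015 303871)) (T.lf 40558 295679)) (T.sb (T.sc (T.lf 41626 305151) (T.lf 40544 311295)) (T.lf 38116 309247)))))) (T.sc (T.sa (T.se (T.sd (T.sc (T.sa (T.lf 54578 2393343) (T.lf 50536 262399)) (T.lf 50373 263423)) (T.sc (T.sa T.out (T.lf 48661 263423)) (T.sa T.out (T.lf 43860 263423)))) (T.sd (T.sc (T.sa (T.lf 51072 2463487) (T.lf 47555 2393343)) (T.lf 45264 2463743)) (T.sc (T.sa T.out (T.lf 45019 2397951)) (T.sa T.out (T.lf 40531 2393855))))) (T.sd (T.lf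 43752 2402303) (T.se (T.sc (T.sb (T.lf 44135 296191) (T.lf 43015 2393343)) (T.lf 40558 296191)) (T.sc (T.sb (T.lf 41001 2394111) (T.lf 40544 2463743)) (T.lf 38580 2394111))))) (T.sa (T.sd (T.lf 43731 1279) (T.se (T.sc (T.lf 43036 19240703) (T.lf 40125 295167)) (T.sc (T.sa T.out (T.lf 38414 263935)) (T.lf 37740 300799)))) (T.sd (T.se (T.sb (T.lf 43036 1355775) (T.lf 40125 34047)) (T.sb (T.sd (T.lf 40555 34815) (T.lf 38414 34559)) (T.lf 37740 296959))) (T.lf 36515 296703))))) (T.sb (T.sc (T.sa (T.sd (T.se (T.lf 47846 368639) (T.sb (T.sc (T.lf 47385 364287) (T.sd (T.lf 45808 376831) (T.lf 43764 300799))) (T.sc (T.sa (T.lf 45808 2465791) (T.lf 43764 296959)) (T.lf 42369 301055)))) (T.se (T.sc (T.sb (T.sa T.out (T.lf 45813 300799)) (T.sa T.out (T.lf 43506 2463487))) (T.sb (T.lf 43790 2998271) (T.sa T.out (T.lf 40579 296703)))) (T.sc (T.sb (T.sa T.out (T.sd (T.lf 43591 368383) T.out)) (T.sa T.out (T.sd (T.lf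 41480 2465791) T.out))) (T.sb (T.sa T.out (T.lf 40667 892927)) (T.sa T.out (T.lf 38624 11517951)))))) (T.sd (T.se (T.sb (T.sc (T.sd (T.lf 48086 393215) (T.lf 45813 296959)) (T.sd (T.lf 45390 307199) (T.lf 43506 307199))) (T.sc (T.lf 43790 2490367) (T.sd (T.lf 43037 305151) (T.lf 40579 296703)))) (T.sb (T.sc (T.sd (T.sa (T.lf 45849 389119) (T.lf 44411 323583)) (T.sa (T.lf 43591 364543) (T.lf 41899 4587519))) (T.sd (T.sa (T.lf 43396 323583) (T.lf 42511 36863)) (T.sa (T.lf 41480 376831) (T.lf 40233 327679)))) (T.sc (T.sd (T.lf 42333 587202559) (T.lf 40667 385023)) (T.sd (T.lf 40561 16777215) (T.lf 38624 6815743))))) (T.se (T.lf 40383 2473983) (T.sb (T.sc (T.lf 40319 368639) (T.lf 38812 2202949124095)) (T.sc (T.lf 38812 2204995944447) (T.lf 36471 368639)))))) (T.sd (T.sa (T.sb (T.se (T.sd (T.sc (T.lf 47013 45055) (T.lf 44787 45055)) (T.lf 43872 2998271)) (T.sd (T.sc (T.lf 44353 3145727) (T.lf 42551 12582911))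 (T.sc (T.lf 41911 901119) (T.lf 40243 11534335)))) (T.se (T.sc (T.lf 43290 296959) (T.lf 41464 20824063)) (T.sc (T.lf 40554 3145727) (T.sd (T.lf 40226 917503) (T.lf 38286 835583))))) (T.sb (T.se (T.sd (T.lf 44278 1376255) (T.sc (T.lf 41602 305151) (T.lf 40612 41983))) (T.sd (T.sc (T.lf 40985 9437183) (T.lf 39644 45055)) (T.sc (T.sa (T.lf 39726 311295) (T.lf 39388 45055)) (T.lf 37963 9355263)))) (T.se (T.sd (T.lf 40495 12582911) (T.lf 38805 12582911)) (T.sd (T.sc (T.lf 39237 2097151) (T.lf 37569 327679)) (T.sc (T.lf 37473 11534335) (T.lf 35908 9437183)))))) (T.sa (T.sb (T.se (T.lf 40710 300799) (T.lf 38777 11386879)) (T.se (T.lf 38650 2463743) (T.lf 37179 55117315309567))) (T.sb (T.se (T.sc (T.lf 39390 15712255) (T.sd (T.lf 38404 305151) (T.lf 36485 308991))) (T.sc (T.sd (T.lf 37456 1107296255) (T.lf 36173 9289727)) (T.sd (T.lf 36721 12582911) (T.lf 34980 9420799)))) (T.se (T.lf 36535 33538047) (T.sc (T.lf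 35207 11517951) (T.sd (T.lf 34195 11517951) (T.lf 33542 8830975)))))))) (T.sc (T.sa (T.sd (T.sc (T.se (T.sa (T.sb (T.lf 47013 2430719) (T.lf 44787 2430719)) (T.lf 43872 2490367)) (T.sa (T.sb (T.lf 44353 3145727) (T.lf 42551 24117247)) (T.sb (T.lf 41911 2482175) (T.lf 40122 24117247)))) (T.se (T.sb (T.lf 43290 264191) (T.lf 41464 20316159)) (T.sb (T.lf 40554 3145727) (T.sa (T.lf 40226 19783679) (T.lf 38286 2480127))))) (T.sc (T.se (T.sa T.out (T.sb (T.lf 41602 2397951) (T.lf 40612 2364671))) (T.sa T.out (T.sb (T.sd (T.lf 39726 2463743) T.out) (T.lf 37963 6805503)))) (T.se (T.sa T.out (T.lf 38805 24117247)) (T.sa T.out (T.sb (T.lf 37473 7340031) (T.lf 35908 23584767)))))) (T.sd (T.sc (T.se (T.lf 40710 296959) (T.lf 38777 6684671)) (T.se (T.lf 38650 311295) (T.lf 37179 55256901746687))) (T.sc (T.se (T.sb (T.lf 39390 15204351) (T.sa (T.lf 38404 2397951) (T.lf 36485 2394111))) (T.sb (T.sa (T.lf 37456 1107296255)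 (T.lf 36173 6676479)) (T.sa (T.lf 36721 24117247) (T.lf 34980 6807551)))) (T.se (T.lf 36535 33030143) (T.sb (T.lf 35207 6815743) (T.sa (T.lf 34195 6815743) (T.lf 33542 6789119))))))) (T.sa (T.sd (T.se (T.lf 38817 6143) (T.lf 37550 4194303)) (T.se (T.sc (T.sa T.out (T.lf 36292 19249151)) (T.lf 36202 33554431)) (T.sc (T.sa T.out (T.sb (T.lf 35682 3121151) (T.lf 34228 19914751))) (T.sb (T.lf 34942 28295167) (T.sa T.out (T.lf 32827 19374079)))))) (T.sd (T.se (T.sb (T.sd (T.lf 37995 3670015) (T.lf 36292 3457023)) (T.lf 36202 33554431)) (T.sb (T.sd (T.sc (T.lf 37462 524287) (T.lf 35545 1572863)) (T.sc (T.lf 35682 524287) (T.lf 34228 2097151))) (T.sc (T.lf 34942 7864319) (T.sd (T.lf 33925 1572863) (T.lf 32827 524287))))) (T.se (T.lf 33776 301055) (T.lf 32537 33554431))))))) 512 1024 0 512 0 512 512 1024 0 512 = true := by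
  decide +kernel

theorem c11 : chk tA tB vlist (T.se (T.sb (T.sd (T.se (T.sb (T.sa (T.sc (T.sd (T.lf 50998 255) (T.lf 48203 767)) (T.sd (T.lf 47552 247) (T.lf 43574 255))) (T.sc (T.sd (T.lf 46492 191) (T.lf 43495 255)) (T.lf 43185 767))) (T.sa (T.sc (T.sd (T.lf 47336 255) (T.lf 42791 767)) (T.lf 43034 17594354417663)) (T.sc (T.lf 42987 19791229534207) (T.lf 40295 767)))) (T.sa (T.sc (T.sb (T.sd (T.lf 46099 33535) (T.lf 43854 48127)) (T.sd (T.lf 43158 41727) (T.lf 41261 45823))) (T.sb (T.sd (T.lf 42304 639) (T.lf 39976 767)) (T.sd (T.lf 40425 255) (T.lf 38076 767)))) (T.sb (T.sc (T.sd (T.lf 42347 255) (T.lf 40492 767)) (T.lf 40243 767)) (T.sc (T.sd (T.lf 39912 255) (T.lf 37621 33535)) (T.lf 37845 41727))))) (T.sa (T.sc (T.se (T.sb (T.lf 43572 19793385996287) (T.lf 40589 33535)) (T.sb (T.sa T.out (T.lf 39788 9224191)) (T.lf 38548 307967))) (T.se (T.sb (T.sd (T.lf 41106 767) T.out) (T.lf 38259 18660351))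 (T.sb (T.sd (T.lf 38559 33535) T.out) (T.lf 36512 27181055)))) (T.sc (T.se (T.sb (T.sd (T.lf 42757 33023) (T.lf 39062 33535)) (T.lf 37822 19791237922815)) (T.sb (T.sd (T.lf 39173 33535) (T.lf 36677 307967)) (T.sd (T.lf 36677 41983) (T.lf 34799 304895)))) (T.se (T.sb (T.lf 39202 46079) (T.lf 36957 46079)) (T.sb (T.lf 36905 310271) (T.lf 34256 27181055)))))) (T.sd (T.sa (T.sc (T.se (T.lf 42407 20232191) (T.sb (T.lf 39177 20955135) (T.lf 37422 38911))) (T.se (T.sb (T.lf 40603 17873919) (T.lf 37845 17871871)) (T.sb (T.sd (T.lf 37680 767) (T.lf 36352 41727)) (T.lf 35787 20955135)))) (T.sc (T.se (T.sb (T.lf 40576 1355775) (T.lf 37832 305151)) (T.sb (T.sd (T.lf 38208 767) (T.lf 36658 41727)) (T.lf 35756 17592215404543))) (T.se (T.sb (T.lf 38050 8959) (T.lf 36235 1090559)) (T.sb (T.lf 35191 1096703) (T.lf 33647 1359871))))) (T.sa (T.sc (T.lf 36223 37631) (T.se (T.lf 35902 18134015) (T.lf 33564 29343743))) (T.sc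 (T.se (T.lf 35508 3454975) (T.lf 33497 54977158447103)) (T.se (T.sb (T.lf 34426 308223) (T.lf 32457 308223)) (T.sb (T.lf 32048 27181055) (T.lf 31088 18266111))))))) (T.sb (T.sd (T.sa (T.sc (T.sb (T.se (T.sd (T.lf 43217 573439) (T.lf 42155 2311045119)) (T.sd (T.sa (T.lf 41098 573439) (T.lf 39595 48127)) (T.sa (T.lf 39377 9224191) (T.lf 37942 573439)))) (T.se (T.sd (T.lf 41547 18661375) (T.lf 38433 18661375)) (T.sd (T.sa (T.lf 38822 1687551) (T.lf 37118 573439)) (T.sa (T.lf 37133 835583) (T.lf 36012 10403839))))) (T.sb (T.se (T.sd (T.lf 39977 767) (T.lf 39624 33535)) (T.sd (T.lf 38145 43775) (T.lf 36398 48127))) (T.se (T.sd (T.lf 37640 41727) (T.lf 36685 45823)) (T.sd (T.lf 35877 572415) (T.lf 34349 1622015))))) (T.sc (T.sb (T.se (T.sd (T.lf 39956 767) (T.lf 38571 41983)) (T.sd (T.lf 39087 41983) (T.lf 36689 9355263))) (T.se (T.sd (T.lf 38088 41727) (T.lf 35795 49151)) (T.sd (T.lf 35907 1490943) (T.lf 34349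 17595944140799)))) (T.sb (T.se (T.lf 37968 41727) (T.lf 36133 1620991)) (T.se (T.lf 35159 1097727) (T.lf 33593 2376073215))))) (T.sa (T.sc (T.sb (T.se (T.sa T.out (T.lf 37307 2311061503)) (T.sa T.out (T.sd (T.lf 36721 9224191) T.out))) (T.se (T.lf 36592 2932735) (T.lf 34488 163577855))) (T.sb (T.se (T.sa T.out (T.lf 35270 8961023)) (T.lf 35009 71298973695)) (T.se (T.lf 34422 431996927) (T.lf 32429 2583691263)))) (T.sc (T.sb (T.se (T.sd (T.lf 36677 311295) (T.lf 35209 9224191)) (T.sd (T.sa (T.lf 35159 835583) (T.lf 33973 49151)) (T.sa (T.lf 33851 9224191) (T.lf 33144 8699903)))) (T.se (T.sd (T.lf 35205 1490943) (T.lf 33533 8699903)) (T.sd (T.sc (T.lf 33511 9355263) (T.lf 32512 442367)) (T.lf 32126 3657433087)))) (T.sb (T.se (T.sd (T.lf 34616 767) (T.lf 33243 41727)) (T.sd (T.lf 32912 44031) (T.lf 31356 8436735))) (T.se (T.sd (T.lf 33231 41727) (T.lf 31379 48127)) (T.sd (T.lf 30993 180223) (T.lf 30253 9093119)))))))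 (T.sd (T.sa (T.sc (T.se (T.sb (T.sd (T.lf 38078 18792447) (T.lf 36296 49151)) (T.lf 35751 20430847)) (T.sb (T.sd (T.sa (T.lf 36791 1818623) (T.lf 35537 2015231)) (T.lf 34588 29360127)) (T.sd (T.sa (T.lf 35262 1163263) (T.lf 33850 18333695)) (T.lf 33128 18333695)))) (T.se (T.sb (T.sd (T.lf 36321 46079) (T.lf 34430 1097727)) (T.sd (T.lf 34396 1097727) (T.lf 32846 17874943))) (T.sb (T.sd (T.lf 34722 18792447) (T.lf 33152 27246591)) (T.sd (T.lf 32490 111361070618116095999) (T.lf 31527 432013311))))) (T.sc (T.se (T.sb (T.sd (T.lf 36248 45055) (T.lf 34337 1359871)) (T.sd (T.lf 34719 1097727) (T.lf 33128 1490943))) (T.sb (T.sd (T.sc (T.lf 34344 311295) (T.lf 33190 45055)) (T.sc (T.lf 33564 10403839) (T.lf 32093 442367))) (T.sd (T.sc (T.lf 32779 1572863) (T.lf 32421 1097727)) (T.sc (T.lf 32124 1572863) (T.lf 31155 18268159))))) (T.se (T.sb (T.lf 34219 17594434191359) (T.sd (T.lf 32075 41983) (T.lf 30725 1095679)))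 (T.sb (T.sd (T.lf 32054 44031) (T.lf 31077 1228799)) (T.sd (T.lf 30654 1228799) (T.lf 29895 27262975)))))) (T.sa (T.sc (T.se (T.lf 33597 301055) (T.lf 32536 19906559)) (T.se (T.sb (T.lf 32451 18792447) (T.lf 31194 17086463)) (T.sb (T.lf 30885 163561471) (T.lf 30279 29278207)))) (T.sc (T.se (T.sb (T.sd (T.lf 33164 1490943) (T.lf 32136 301055)) (T.lf 31245 20365311)) (T.sb (T.sd (T.sc (T.lf 32133 10403839) (T.lf 31176 2015231)) (T.lf 30699 33554431)) (T.sc (T.lf 30501 12042239) (T.lf 29598 301989887)))) (T.se (T.sb (T.sd (T.lf 31023 47103) (T.lf 30197 309247)) (T.sd (T.lf 29834 1228799) (T.lf 29230 440319))) (T.sb (T.sd (T.lf 29931 27181055) (T.lf 28941 27181055)) (T.sd (T.lf 29132 33554431) (T.lf 28032 29343743))))))))) 512 1024 0 512 512 1024 512 1024 0 512 = true := by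
  decide +kernel

end Pool.Agent.Lib.MP_3a1514_mp
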