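import Pool.Agent.Lib.MP_3a1514_mp.Data

set_option maxRecDepth 100000

namespace Pool.Agent.Lib.MP_3a1514_mp

theorem c12 : chk tA tB vlist (T.se (T.sc (T.sa (T.se (T.sc (T.sd (T.sb (T.sa (T.lf 50998 255) (T.lf 48203 1279)) (T.sa T.out (T.lf 43574 255))) (T.sb (T.sa T.out (T.lf 43495 255)) (T.lf 43185 1279))) (T.sd (T.sb (T.sa (T.lf 47336 255) (T.lf 42791 1279)) (T.lf 43034 35188691564543)) (T.sb (T.lf 42987 37387710609407) (T.lf 40295 1279)))) (T.sd (T.sb (T.sc (T.sa (T.lf 46099 263423) (T.lf 43854 2430463)) (T.sa (T.lf 43158 2360575) (T.lf 41261 2360831))) (T.sc (T.sa T.out (T.lf 39976 1279)) (T.sa T.out (T.lf 38076 1279)))) (T.sc (T.sb (T.sa T.out (T.lf 40492 1279)) (T.lf 40243 1279)) (T.sb (T.sa T.out (T.lf 37621 263423)) (T.lf 37845 2360575))))) (T.sd (T.sb (T.se (T.sc (T.lf 43572 37387714822143) (T.lf 40589 263423)) (T.sc (T.sd (T.lf 41995 2360831) (T.lf 39788 6674431)) (T.lf 38548 2393599))) (T.se (T.sc (T.sa (T.lf 41106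 1279) (T.lf 39137 263423)) (T.lf 38259 20305407)) (T.sc (T.sa (T.lf 38559 263423) (T.lf 36743 263679)) (T.lf 36512 24631295)))) (T.sb (T.se (T.sc (T.sa (T.lf 42757 262399) (T.lf 39062 263423)) (T.lf 37822 37383419836415)) (T.sc (T.sa (T.lf 39173 263423) (T.lf 36677 2393599)) (T.sa (T.lf 36677 2364671) (T.lf 34799 2393599)))) (T.se (T.sc (T.lf 39202 2364927) (T.lf 36957 2364927)) (T.sc (T.lf 36905 2463231) (T.lf 34256 24631295)))))) (T.sa (T.sd (T.sb (T.se (T.lf 42407 20232191) (T.sc (T.lf 39177 20447231) (T.lf 37422 268287))) (T.se (T.sc (T.lf 40603 20256255) (T.lf 37845 20190719)) (T.sc (T.sa T.out (T.lf 36352 2360575)) (T.lf 35787 20447231)))) (T.sb (T.se (T.sc (T.lf 40576 19240703) (T.lf 37832 2397951)) (T.sc (T.sa T.out (T.lf 36658 2360575)) (T.lf 35756 35184397254655))) (T.se (T.sc (T.lf 38050 2098431) (T.lf 36235 19141887)) (T.sc (T.lf 35191 19207679) (T.lf 33647 19240959))))) (T.sd (T.sb (T.lf 36223 263679) (T.se (T.lf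 35902 20223487) (T.lf 33564 24641535))) (T.sb (T.se (T.lf 35508 19183615) (T.lf 33497 54977057783807)) (T.se (T.sc (T.lf 34426 2397695) (T.lf 32457 2397695)) (T.sc (T.lf 32048 24631295) (T.lf 31088 20355071))))))) (T.sc (T.sa (T.sd (T.sb (T.sc (T.se (T.sa (T.lf 43217 2447359) (T.lf 42155 4353163263)) (T.sa (T.sd (T.lf 41098 2447359) (T.lf 39595 2430463)) (T.sd (T.lf 39377 6674431) (T.lf 37942 2447359)))) (T.se (T.sa (T.lf 41547 20305919) (T.lf 38433 20305919)) (T.sa (T.sd (T.lf 38822 19226623) (T.lf 37118 2447359)) (T.sd (T.lf 37133 2480127) (T.lf 36012 23582719))))) (T.sc (T.se (T.sa T.out (T.lf 39624 263423)) (T.sa T.out (T.lf 36398 2430463))) (T.se (T.sa T.out (T.lf 36685 2360831)) (T.sa T.out (T.lf 34349 19224575))))) (T.sb (T.sc (T.se (T.sa T.out (T.lf 38571 2364671)) (T.sa T.out (T.lf 36689 6805503))) (T.se (T.sa T.out (T.lf 35795 2430975)) (T.sa T.out (T.lf 34349 35190277668863)))) (T.sc (T.se (T.lf 37968 2360575) (T.lf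 36133 19224063)) (T.se (T.lf 35159 19208191) (T.lf 33593 4622114815))))) (T.sd (T.sb (T.sc (T.se (T.sd (T.lf 38507 2476031) (T.lf 37307 4353687551)) (T.sd (T.lf 37068 6807551) (T.sa (T.lf 36721 6674431) (T.lf 35315 2447359)))) (T.se (T.lf 36592 2488319) (T.lf 34488 58720255))) (T.sc (T.se (T.sd (T.lf 37299 2442751) (T.lf 35270 6641151)) (T.lf 35009 38780534783)) (T.se (T.lf 34422 125304831) (T.lf 32429 4429185023)))) (T.sb (T.sc (T.se (T.sa (T.lf 36677 2463743) (T.lf 35209 6674431)) (T.sa (T.sb (T.lf 35159 6674431) (T.lf 33973 2430463)) (T.sd (T.lf 33851 6674431) (T.lf 33144 6658047)))) (T.se (T.sa (T.lf 35205 19372031) (T.lf 33533 6658047)) (T.sa (T.sb (T.lf 33511 6805503) (T.lf 32512 2594815)) (T.lf 32126 5502926847)))) (T.sc (T.se (T.sa (T.lf 34616 1279) (T.lf 33243 2360575)) (T.sa (T.lf 32912 2430207) (T.lf 31356 6624767))) (T.se (T.sa (T.lf 33231 2360575) (T.lf 31379 2430463)) (T.sa (T.lf 30993 2562047) (T.lf 30253 6772735)))))))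 (T.sa (T.sd (T.sb (T.se (T.sc (T.sa (T.lf 38078 20436991) (T.lf 36296 2430975)) (T.lf 35751 20430847)) (T.sc (T.sa (T.sd (T.lf 36791 19357695) (T.lf 35537 19388415)) (T.lf 34588 25165823)) (T.sa (T.sd (T.lf 35262 19210239) (T.lf 33850 19390463)) (T.lf 33128 3661823)))) (T.se (T.sc (T.sa T.out (T.lf 34430 19208191)) (T.sa T.out (T.lf 32846 20256767))) (T.sc (T.sa T.out (T.lf 33152 24633343)) (T.sa T.out (T.lf 31527 125829119))))) (T.sb (T.se (T.sc (T.sa T.out (T.lf 34337 19240959)) (T.sa T.out (T.lf 33128 19372031))) (T.sc (T.sa T.out (T.sb (T.lf 33564 23582719) (T.lf 32093 2594815))) (T.sa T.out (T.sb (T.lf 32124 19898367) (T.lf 31155 19388415))))) (T.se (T.sc (T.lf 34219 35188994211839) (T.sa T.out (T.lf 30725 19142655))) (T.sc (T.sa T.out (T.lf 31077 19339263)) (T.sa T.out (T.lf 29895 25157631)))))) (T.sd (T.sb (T.se (T.lf 33597 301055) (T.lf 32536 3670015)) (T.se (T.sc (T.lf 32451 20436991) (T.lf 31194 3446783)) (T.sc (T.lf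 30885 58195967) (T.lf 30279 24639487)))) (T.sb (T.se (T.sc (T.sa (T.lf 33164 19372031) (T.lf 32136 301055)) (T.lf 31245 20428799)) (T.sc (T.sa (T.sb (T.lf 32133 23582719) (T.lf 31176 19388415)) (T.lf 30699 33554431)) (T.sb (T.lf 30501 23576575) (T.lf 29598 67108863)))) (T.se (T.sc (T.sa (T.lf 31023 2365439) (T.lf 30197 2398207)) (T.sa (T.lf 29834 19339263) (T.lf 29230 2529279))) (T.sc (T.sa (T.lf 29931 24631295) (T.lf 28941 24631295)) (T.sa (T.lf 29132 92274687) (T.lf 28032 24641535))))))))) 512 1024 512 1024 0 512 512 1024 0 512 = true := by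
  decide +kernel

theorem c13 : chk tA tB vlist (T.se (T.sa (T.sc (T.sb (T.sd (T.lf 36242 1535) (T.se (T.lf 35182 20223999) (T.sa T.out (T.lf 32169 301055)))) (T.sd (T.se (T.lf 35182 20223999) (T.sc (T.lf 33546 20420607) (T.lf 32169 17831935))) (T.se (T.sa T.out (T.lf 32411 19142143)) (T.sa T.out (T.lf 30744 20428799))))) (T.sb (T.sd (T.se (T.lf 35182 18135039) (T.sb (T.lf 33546 18268159) (T.lf 32169 17831935))) (T.lf 31894 37631)) (T.sd (T.lf 31397 17830399) (T.se (T.lf 30223 20223999) (T.lf 29487 288866303))))) (T.sd (T.sb (T.sc (T.se (T.lf 35182 18135039) (T.sd (T.lf 33546 18268159) (T.lf 32169 301055))) (T.se (T.sb (T.lf 34007 1094655) (T.lf 32411 1091583)) (T.sb (T.lf 31689 20365311) (T.lf 30744 20365311)))) (T.sc (T.lf 31894 263679) (T.se (T.lf 30223 18135039) (T.lf 29487 87539711)))) (T.sb (T.sc (T.lf 31397 296703) (T.se (T.lf 30223 18135039) (T.lf 29487 28819455))) (T.sc (T.se (T.lf 30223 20223999) (T.lf 29487 24625151))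 (T.lf 27783 301055))))) (T.sa (T.sc (T.sb (T.sd (T.se (T.lf 33509 268287) (T.lf 31946 20447231)) (T.se (T.sa T.out (T.lf 30967 20430847)) (T.sa T.out (T.sc (T.lf 30087 503316479) (T.lf 29155 20430847))))) (T.sd (T.se (T.sc (T.sa T.out (T.lf 31515 20191231)) (T.lf 30967 20430847)) (T.sc (T.sa T.out (T.lf 30113 91750399)) (T.sa T.out (T.lf 29155 20430847)))) (T.se (T.sa T.out (T.sc (T.lf 29538 19372031) (T.lf 28873 20355071))) (T.sa T.out (T.sc (T.lf 28528 536870911) (T.sb (T.lf 28012 20430847) T.out)))))) (T.sb (T.sd (T.se (T.sb (T.sd (T.lf 32417 18006015) (T.lf 31515 17872895)) (T.lf 30967 20430847)) (T.sb (T.sd (T.sa T.out (T.lf 30828 18530303)) (T.lf 30113 297779199)) (T.sd (T.lf 30087 503316479) (T.lf 29155 20430847)))) (T.lf 28978 29343743)) (T.sd (T.lf 29026 18217810308104191) (T.se (T.sa T.out (T.lf 27634 20428799)) (T.sa T.out (T.sc (T.lf 27052 369098751) T.out)))))) (T.sd (T.sb (T.sc (T.se (T.sd (T.sb (T.lf 32417 1490943)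 (T.lf 31515 1357823)) (T.lf 30967 20430847)) (T.sd (T.sb (T.sc (T.lf 31804 1507327) (T.lf 30828 1507327)) (T.lf 30113 91750399)) (T.sb (T.lf 30087 402653183) (T.lf 29155 20430847)))) (T.se (T.sb (T.sd (T.lf 30658 1095679) (T.lf 29538 1490943)) (T.sd (T.lf 29538 18006015) (T.lf 28873 18266111))) (T.sb (T.sd (T.lf 29834 94371839) (T.lf 28528 536870911)) (T.sd (T.lf 28528 536870911) (T.sa (T.lf 28012 20430847) (T.lf 27489 18284543)))))) (T.sc (T.lf 28978 24641535) (T.se (T.sd (T.lf 28394 360710143) (T.lf 27634 20365311)) (T.sd (T.sb (T.lf 28029 17592722915327) (T.lf 27027 87556095)) (T.sb (T.lf 27052 369098751) (T.lf 26346 20365311)))))) (T.sb (T.sc (T.lf 29026 63780264345599) (T.se (T.sb (T.lf 28394 301989887) (T.lf 27634 20365311)) (T.sb (T.sd (T.lf 28029 17592722915327) (T.lf 27027 29343743)) (T.sd (T.lf 27052 369098751) (T.lf 26346 20365311))))) (T.sc (T.se (T.sc (T.lf 28394 100663295) (T.lf 27634 20428799)) (T.sc (T.sa (T.lf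 28029 35184908959743) (T.lf 27027 24641535)) (T.sa (T.lf 27052 369098751) (T.lf 26346 20428799)))) (T.lf 26052 402653183)))))) 512 1024 512 1024 512 1024 512 1024 0 512 = true := by
  decide +kernel

theorem c14 : chk tA tB vlist (T.sc (T.sb (T.sd (T.sa (T.sc (T.sb (T.sd (T.se (T.sa (T.sc (T.sb (T.lf 198246 4) (T.sd (T.lf 165205 4) (T.lf 97250 7))) (T.sb (T.sd (T.lf 165205 4) (T.lf 96986 7)) (T.lf 92306 537484671))) (T.sd (T.sb (T.sc (T.lf 165205 4) (T.lf 97250 7)) (T.lf 92487 537481087)) (T.sb (T.lf 92306 537481087) (T.lf 85252 47)))) (T.sa (T.lf 141604 4) (T.sd (T.lf 123904 4) (T.sb (T.lf 110136 4) (T.lf 74737 47))))) (T.se (T.sa T.out (T.sc (T.lf 82798 537480319) (T.lf 77534 536938559))) (T.sa T.out (T.sc (T.lf 74847 537479295) (T.lf 70296 536936495))))) (T.sd (T.se (T.sc (T.sa T.out (T.lf 83269 537484671)) (T.sa T.out (T.lf 77534 536938607))) (T.sc (T.sa T.out (T.lf 75288 536954927)) (T.sa T.out (T.lf 70296 536936495))))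 (T.se (T.lf 74047 537484415) (T.sa T.out (T.lf 65184 537478271))))) (T.sb (T.sd (T.se (T.sb (T.sd (T.sa T.out (T.lf 86813 2087)) (T.lf 83269 537484159)) (T.sd (T.lf 82798 537479551) (T.lf 77534 536938607))) (T.sb (T.sd (T.sa T.out (T.lf 76557 47)) (T.lf 75288 537462831)) (T.sd (T.lf 74847 537479295) (T.lf 70296 536873007)))) (T.se (T.sa T.out (T.lf 71628 537463423)) (T.sa T.out (T.lf 65131 537463423)))) (T.se (T.sd (T.se (T.lf 75280 67711) (T.lf 71184 537483647)) (T.lf 66580 596095)) (T.sd (T.sa T.out (T.lf 64760 537479295)) (T.lf 60648 537485183))))) (T.sd (T.sb (T.sc (T.se (T.sd (T.sb (T.sc (T.lf 93850 537479551) (T.lf 86813 2063)) (T.lf 83269 537481087)) (T.sb (T.lf 82798 537479807) (T.lf 77534 536938559))) (T.sd (T.sb (T.sc (T.lf 110136 4) (T.lf 76557 47)) (T.lf 75288 536954927)) (T.sb (T.lf 74847 537479295) (T.lf 70296 536873007)))) (T.se (T.lf 74047 537480063) (T.sb (T.lf 69114 537414271) (T.lf 65184 537414015)))) (T.sc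 (T.se (T.sc (T.lf 76018 537485311) (T.lf 71628 536955263)) (T.sc (T.lf 69002 536956287) (T.lf 65131 536955263))) (T.se (T.lf 66580 84351) (T.lf 60648 537485183)))) (T.se (T.sb (T.sc (T.se (T.lf 75280 67711) (T.lf 71184 537480831)) (T.lf 66580 592511)) (T.sc (T.lf 66580 85119) (T.lf 58820 68991))) (T.sb (T.sc (T.sb (T.lf 68232 537480831) (T.lf 64760 537479295)) (T.lf 60648 537485183)) (T.sc (T.lf 60648 537485183) (T.lf 54620 537485183)))))) (T.se (T.sa T.out (T.sc (T.sb (T.sd (T.lf 66737 593535) T.out) (T.lf 57487 66687)) (T.sb (T.lf 58157 539590655) (T.lf 52459 71295)))) (T.sa T.out (T.sc (T.sb (T.sd (T.lf 60755 537485183) T.out) (T.sd (T.lf 56199 537484927) T.out)) (T.sb (T.sd (T.lf 56159 537485183) T.out) (T.sd (T.lf 51084 537485183) T.out)))))) (T.sd (T.se (T.sc (T.sa T.out (T.sd (T.sb (T.lf 67543 85375) T.out) (T.lf 57561 66687))) (T.sa T.out (T.sd (T.lf 58157 539590655) (T.lf 52459 71039)))) (T.sc (T.sa T.out (T.sd (T.sb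 (T.lf 61531 537485183) T.out) (T.sb (T.lf 55314 536960383) T.out))) (T.sa T.out (T.sd (T.sb (T.lf 56159 537485183) T.out) (T.sb (T.lf 51084 537485183) T.out))))) (T.se (T.sa T.out (T.sc (T.sd (T.lf 53346 87167) T.out) (T.sb (T.lf 49721 595967) T.out))) (T.sa T.out (T.sc (T.lf 48862 9259545983367249919) (T.sb (T.lf 46349 4407634690047) T.out)))))) (T.sb (T.sd (T.se (T.sb (T.sd (T.sa T.out (T.lf 63346 2175)) (T.sa T.out (T.lf 57561 2687))) (T.sd (T.sa T.out (T.lf 57487 2431)) (T.sa T.out (T.lf 52459 7039)))) (T.sb (T.sd (T.sa T.out (T.sc (T.lf 61646 537414527) T.out)) (T.sa T.out (T.sc (T.lf 55314 537467775) T.out))) (T.sd (T.sa T.out (T.sc (T.lf 56199 537484159) T.out)) (T.sa T.out (T.sc (T.lf 51084 537485183) T.out))))) (T.se (T.sa T.out (T.sb (T.lf 52252 537526271) (T.lf 48266 598015))) (T.sa T.out (T.sb (T.sd (T.sc (T.lf 51612 537485183) T.out) T.out) (T.sc (T.sd (T.lf 47333 537624575) T.out) T.out))))) (T.sd (T.se (T.sa T.out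 (T.sd (T.lf 52447 550414319615) (T.lf 48430 540639231))) (T.sa T.out (T.sd (T.sb (T.sc (T.lf 51199 537485311) T.out) T.out) (T.sb (T.sc (T.lf 47179 537616383) T.out) T.out)))) (T.se (T.sa T.out (T.sc (T.sb (T.lf 46501 598015) T.out) T.out)) (T.sa T.out (T.sc (T.sb (T.sd (T.lf 44637 537485311) T.out) T.out) T.out)))))) 0 256 0 512 0 512 0 512 512 1024 = true := by
  decide +kernel

theorem c15 : chk tA tB vlist (T.sd (T.sb (T.sc (T.se (T.sd (T.sb (T.sc (T.sa (T.lf 74777 536956799) (T.lf 66642 18751)) (T.lf 63346 2175)) (T.sc (T.sa (T.lf 67543 85375) (T.lf 60248 18815)) (T.lf 57561 2431))) (T.sb (T.sc (T.sa (T.lf 66737 85631) (T.lf 60845 18559)) (T.lf 57487 2687)) (T.sc (T.lf 58157 539590655) (T.lf 52459 3967)))) (T.sd (T.sb (T.sc (T.sa (T.sd (T.lf 69996 536955263) (T.lf 65657 536889727)) (T.lf 62590 536956799)) (T.sa (T.lf 61646 537414527) (T.lf 57656 18815))) (T.sc (T.sa (T.lf 61531 537485183) (T.lf 57525 536956799)) (T.sa (T.lf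 55314 536956799) (T.lf 52163 19839)))) (T.sb (T.sc (T.sa (T.lf 60755 537485183) (T.lf 55473 537481087)) (T.sa (T.lf 56199 537481087) (T.lf 50945 20351))) (T.sc (T.sa (T.lf 56159 537485183) (T.lf 52760 537485183)) (T.sa (T.lf 51084 537485183) (T.lf 48315 537481087)))))) (T.se (T.sb (T.sd (T.lf 59462 537423871) (T.sa (T.lf 53346 527231) (T.lf 51519 17718575103))) (T.sd (T.sc (T.lf 53346 19327) (T.lf 51519 550294519807)) (T.sa (T.lf 49721 532479) (T.sc (T.lf 48680 20479) (T.lf 47312 538574847))))) (T.sb (T.sd (T.lf 53915 537493375) (T.lf 48862 1157426773902753791)) (T.sd (T.lf 48862 1157426773902753791) (T.sa (T.lf 46349 567736795135) (T.lf 43671 548735)))))) (T.sc (T.se (T.sc (T.sd (T.sa (T.sb (T.lf 60264 85375) (T.lf 56295 17791)) (T.lf 55710 86015)) (T.lf 52252 539844607)) (T.sd (T.lf 52252 538542079) (T.lf 48266 90111))) (T.sc (T.sd (T.sa (T.sb (T.lf 57139 558916788223) (T.lf 52135 536960895)) (T.sb (T.lf 52135 536960895) (T.lf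 49806 536956799))) (T.sa (T.sb (T.lf 51612 537485183) (T.lf 48184 89471)) (T.sb (T.lf 48239 537485311) (T.lf 45666 89983)))) (T.sd (T.sb (T.sa (T.lf 51612 537485183) (T.lf 48184 85887)) (T.sa (T.lf 48239 537485311) (T.lf 45666 89983))) (T.sa (T.sb (T.lf 47333 537624575) (T.lf 44731 537485311)) (T.sb (T.lf 44731 537485311) (T.lf 42190 614399)))))) (T.se (T.sd (T.sb (T.sc (T.lf 49787 86015) (T.se (T.lf 49868 32767) (T.lf 46118 24575))) (T.sc (T.lf 47020 90111) (T.se (T.lf 46367 1671167) (T.lf 43650 622591)))) (T.sb (T.sc (T.lf 46501 90111) (T.sa (T.lf 45586 90111) (T.lf 44156 624951295))) (T.sc (T.lf 44299 90111) (T.sa (T.lf 43016 614399) (T.lf 41791 550695337983))))) (T.sd (T.sb (T.sc (T.lf 46438 550414057471) (T.lf 43659 548735)) (T.sc (T.lf 44016 559276883967) (T.lf 41435 537624575))) (T.sb (T.sc (T.sa (T.lf 44637 537485311) (T.lf 41929 614399)) (T.lf 41001 538673151)) (T.sc (T.sa (T.lf 42238 539721727) (T.lf 40225 745471))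 (T.lf 39557 926941183))))))) (T.sb (T.sc (T.se (T.sb (T.sc (T.sa (T.sd (T.lf 59443 69247) (T.lf 54454 67199)) (T.lf 53167 537788415)) (T.lf 52447 17880317951)) (T.sc (T.lf 52447 9185525759) (T.lf 48430 539852799))) (T.sb (T.sc (T.sa (T.sd (T.lf 56002 537485183) (T.lf 50337 26452426751)) (T.sd (T.lf 50337 26347569151) (T.se (T.lf 48228 614271) (T.lf 46103 614271)))) (T.sd (T.sa (T.lf 51199 537485311) (T.lf 47777 537485183)) (T.sa (T.lf 48246 673972223) (T.lf 44659 548405247)))) (T.sc (T.sa (T.sd (T.lf 51199 537485311) (T.lf 47777 537485183)) (T.sd (T.lf 48246 573538303) (T.lf 44659 544210943))) (T.sa (T.sd (T.lf 47179 537616383) (T.lf 44169 539975679)) (T.sd (T.lf 44169 537657343) (T.lf 42640 586153983)))))) (T.se (T.sb (T.sd (T.sa (T.lf 49787 596991) (T.se (T.lf 49868 540671) (T.lf 46118 532479))) (T.sa (T.lf 47020 598015) (T.se (T.lf 46367 655359) (T.lf 43650 622591)))) (T.sd (T.sa (T.lf 46501 598015) (T.sc (T.lf 45586 90111)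 (T.lf 44156 566231039))) (T.sa (T.lf 44299 598015) (T.sc (T.lf 43016 614399) (T.lf 41791 18220056575))))) (T.sb (T.sd (T.sa (T.lf 46438 17863540735) (T.lf 43659 548735)) (T.sa (T.lf 44016 4416199458815) (T.lf 41435 537624575))) (T.sd (T.sa (T.sc (T.lf 44637 537485311) (T.lf 41929 614399)) (T.lf 41001 537657343)) (T.sa (T.sc (T.lf 42238 539721727) (T.lf 40225 745471)) (T.lf 39557 704643071)))))) (T.sc (T.se (T.sc (T.sa (T.sd (T.lf 49787 89599) (T.se (T.lf 49868 2185215) (T.lf 46118 88063))) (T.sd (T.lf 47020 90111) (T.se (T.lf 46367 2973695) (T.lf 43650 2711551)))) (T.sa (T.sd (T.lf 46501 90111) (T.sb (T.lf 45586 90111) (T.lf 44156 562036735))) (T.sd (T.lf 44299 90111) (T.sb (T.lf 43016 614399) (T.lf 41791 9529458687))))) (T.sc (T.sa (T.sd (T.lf 46438 9184477183) (T.lf 43659 612223)) (T.sd (T.lf 44016 559016837119) (T.lf 41435 539713535))) (T.sa (T.sd (T.sb (T.lf 44637 537485311) (T.lf 41929 614399)) (T.lf 41001 539975679)) (T.sd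 (T.sb (T.lf 42238 539721727) (T.lf 40225 745471)) (T.lf 39557 603979775))))) (T.se (T.sa (T.sc (T.sb (T.lf 43940 598015) (T.sd (T.lf 43051 90111) (T.se (T.lf 41908 73727) (T.lf 40298 614399)))) (T.sb (T.lf 42152 557580287) (T.lf 40597 1027604479))) (T.sd (T.sb (T.sc (T.lf 43051 90111) (T.se (T.lf 41908 73727) (T.lf 40298 614399))) (T.lf 40627 662700031)) (T.sb (T.lf 40597 704643071) (T.sc (T.lf 39546 562036735) (T.lf 37593 3112959))))) (T.sa (T.sc (T.sb (T.sd (T.lf 42281 539983871) (T.lf 39869 539975679)) (T.sd (T.lf 39869 556490751) (T.lf 38270 745471))) (T.sb (T.sd (T.lf 39869 538673151) (T.lf 38260 690749439)) (T.sd (T.lf 38346 893386751) (T.lf 36630 826245119)))) (T.sd (T.sb (T.sc (T.lf 39869 537657343) (T.lf 38270 745471)) (T.sc (T.lf 38260 574586879) (T.lf 36630 591134719))) (T.sb (T.sc (T.lf 38346 570425343) (T.lf 36630 549453823)) (T.sc (T.lf 36630 590348287) (T.lf 35036 939524095))))))))) 256 512 0 512 0 512 0 512 512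 1024 = true := by
  decide +kernel

theorem c16 : chk tA tB vlist (T.sa T.out (T.sc (T.sb (T.se (T.sd (T.sc (T.sa T.out (T.sb (T.lf 47333 4430996963327) (T.se (T.lf 46475 13623099391) (T.lf 43583 540008447)))) (T.sb (T.sa T.out (T.lf 45066 539885567)) (T.sa T.out (T.se (T.lf 43667 3137535) (T.lf 41512 540016639))))) T.out) (T.sd (T.sa T.out (T.sc (T.sb (T.sd (T.se (T.lf 45561 614399) (T.lf 43758 537485311)) T.out) (T.sd (T.lf 42758 540008447) T.out)) (T.sb (T.sd (T.se (T.lf 43015 614399) (T.lf 41372 537616383)) T.out) (T.sd (T.lf 39936 26843545599) T.out)))) T.out)) (T.se (T.sd (T.sc (T.sa T.out (T.se (T.sb (T.sd (T.lf 44868 2185215) T.out) (T.lf 42530 2372893091741525082111)) (T.sb (T.sd (T.lf 42756 614399) T.out) (T.sd (T.lf 41518 2971647) T.out)))) (T.sa T.out (T.se (T.sb (T.sd (T.lf 42334 2187263) T.out) (T.sd (T.lf 40582 2449407) T.out)) (T.sb (T.sd (T.lf 40203 2973695) T.out) (T.sd (T.lf 39085 3137535) T.out))))) T.out)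 (T.sd (T.sc (T.sa T.out (T.sb (T.lf 39518 539975679) (T.sd (T.lf 38746 614399) T.out))) (T.sa T.out (T.sb (T.lf 37992 1073741823) (T.sd (T.lf 36548 544169983) T.out)))) T.out))) (T.sb (T.se (T.sd (T.sb (T.sa T.out (T.se (T.sc (T.lf 43488 597759) (T.lf 42304 9420799)) (T.sc (T.lf 41638 647167) (T.lf 39953 9437183)))) (T.sa T.out (T.sc (T.se (T.lf 41418 598015) (T.lf 39608 778239)) (T.lf 38877 700448767)))) T.out) (T.sd (T.sb (T.sa T.out (T.sc (T.sd (T.lf 40605 680263679) T.out) (T.sd (T.lf 38599 778239) T.out))) (T.sa T.out (T.sc (T.sd (T.lf 38262 703594495) T.out) (T.sd (T.lf 36641 682622975) T.out)))) T.out)) (T.se (T.sd (T.sa T.out (T.sc (T.sb (T.se (T.lf 39876 19922943) (T.sd (T.lf 38564 745471) T.out)) (T.se (T.sd (T.lf 38627 2973695) T.out) (T.sd (T.lf 37124 25165823) T.out))) (T.sb (T.se (T.lf 37756 630783) (T.lf 36427 28311551)) (T.se (T.lf 36343 301989887) (T.sd (T.lf 35400 19922943) T.out))))) T.out) (T.sd (T.sa T.out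 (T.sc (T.sb (T.sd (T.lf 36569 686817279) T.out) (T.sd (T.lf 35389 738197503) T.out)) (T.sb (T.sd (T.lf 35028 700448767) T.out) (T.sd (T.lf 33768 973078527) T.out)))) T.out))))) 0 512 0 512 0 512 512 1024 512 1024 = true := by
  decide +kernel

theorem c17 : chk tA tB vlist (T.sd (T.sc (T.sa T.out (T.sd (T.se (T.sb (T.sc (T.sd (T.sa T.out (T.lf 49847 83455)) (T.sa T.out (T.lf 45987 9163988991))) (T.sd (T.lf 47028 591233023) (T.sa T.out (T.lf 43450 37183487)))) T.out) (T.sb (T.sc (T.lf 45311 559008407551) (T.sd (T.lf 43439 571170815) (T.lf 41163 571170815))) T.out)) (T.se (T.sb (T.sc (T.sa T.out (T.sd (T.se (T.lf 44919 19357695) (T.lf 42339 2187263)) (T.se (T.lf 43045 19881983) (T.lf 40630 57630719)))) (T.sa T.out (T.sd (T.se (T.lf 41965 20930559) (T.lf 40250 3104767)) (T.se (T.lf 40536 25165823) (T.sb (T.lf 39043 2449407) T.out))))) T.out) (T.sb (T.sc (T.sa T.out (T.lf 39845 2187263)) (T.sa T.out (T.lf 37285 9252634623))) T.out))))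 (T.sa T.out (T.sd (T.se (T.sb (T.sd (T.sc (T.lf 44251 20545535) (T.se (T.sa T.out (T.lf 42304 85164031)) (T.sa T.out (T.lf 39953 85688319)))) (T.sc (T.sa T.out (T.lf 40632 20676607)) (T.sa T.out (T.lf 38877 658505727)))) T.out) (T.sb (T.sd (T.sc (T.lf 41163 2594158645834940415) (T.sa T.out (T.sb (T.lf 38599 1794047) T.out))) (T.sc (T.lf 38637 559411101695) (T.sa T.out (T.sb (T.lf 36641 658210815) T.out)))) T.out)) (T.se (T.sb (T.sc (T.sa T.out (T.sd (T.se (T.lf 39402 20406271) (T.lf 37854 658505727)) (T.se (T.sb (T.lf 38673 2449407) T.out) (T.sb (T.lf 37059 20930559) T.out)))) (T.sa T.out (T.sd (T.se (T.lf 37756 1138687) (T.lf 36427 88047615)) (T.se (T.lf 36343 360710143) (T.sb (T.lf 35400 20938751) T.out))))) T.out) (T.sb (T.sc (T.sa T.out (T.sd (T.lf 36141 662667263) (T.sb (T.lf 35296 590307327) T.out))) (T.sa T.out (T.sd (T.sb (T.lf 35028 658505727) T.out) (T.sb (T.lf 33768 931135487) T.out)))) T.out))))) (T.sa T.out (T.sc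 (T.se (T.sd (T.sb (T.sc (T.sa T.out (T.se (T.sd (T.lf 41076 19355647) T.out) (T.sd (T.lf 39340 4889468927) T.out))) (T.sa T.out (T.se (T.sd (T.lf 38967 595591167) T.out) (T.sd (T.sb (T.lf 37525 3104767) T.out) T.out)))) T.out) T.out) (T.sd (T.sb (T.sc (T.sa T.out (T.sd (T.se (T.lf 37864 7299071) (T.lf 36039 2840575)) T.out)) (T.sa T.out (T.sd (T.se (T.sb (T.lf 36331 3104767) T.out) (T.lf 34447 577724415)) T.out))) T.out) T.out)) (T.se (T.sb (T.sd (T.sa T.out (T.sc (T.se (T.sd (T.sb (T.lf 37096 19750911) T.out) T.out) (T.sd (T.sb (T.lf 35683 931135487) T.out) T.out)) (T.se (T.sb (T.sd (T.lf 35645 19881983) T.out) T.out) (T.sb (T.sd (T.lf 34132 189697968046079) T.out) T.out)))) T.out) T.out) (T.sb (T.sd (T.sa T.out (T.sc (T.sd (T.sb (T.se (T.lf 34463 1073741823) (T.lf 33395 560947199)) T.out) T.out) (T.sb (T.sd (T.se (T.sa T.out (T.lf 32699 1073741823)) (T.lf 32207 1065345023)) T.out) T.out))) T.out) T.out))))) 0 512 512 1024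 0 512 0 1024 512 1024 = true := by
  decide +kernel

theorem c18 : chk tA tB vlist (T.sb (T.sd (T.sb (T.sd (T.sa T.out (T.se (T.sb (T.sd (T.sc (T.se (T.lf 55499 4503602313362431) (T.lf 52437 539647)) T.out) (T.sc (T.se (T.sa T.out (T.lf 49999 2943)) (T.lf 48667 20000276479)) T.out)) (T.sc (T.sd (T.se (T.sa T.out (T.lf 48805 2943)) (T.sa T.out (T.lf 45920 535551))) (T.se (T.sa T.out (T.lf 45541 539647)) (T.sa T.out (T.lf 43481 557055)))) T.out)) (T.sc (T.sb (T.sd (T.lf 47140 539519) (T.lf 43809 557055)) (T.sd (T.lf 43801 537427967) (T.lf 41440 17928290303))) T.out))) (T.sa T.out (T.se (T.sc (T.sb (T.sd (T.sa T.out (T.se (T.lf 45437 539647) (T.lf 43375 540671))) (T.sa T.out (T.se (T.lf 43045 1835007) (T.lf 40630 144441343)))) (T.sd (T.sa T.out (T.se (T.lf 43005 1835007) (T.lf 40558 563871743))) (T.sa T.out (T.se (T.lf 40536 29360127) (T.sc (T.lf 39043 638975) T.out))))) T.out) (T.sc (T.sb (T.sd (T.lf 41397 753663) (T.lf 39845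 606207)) (T.sd (T.lf 39173 6136434524159) (T.lf 37285 18148753407))) T.out)))) (T.sd (T.sa T.out (T.se (T.sc (T.sd (T.sb (T.se (T.sa T.out (T.lf 46616 1081343)) (T.sa T.out (T.lf 42905 1671167))) (T.se (T.sa T.out (T.lf 42530 114171032978451333119)) (T.sa T.out (T.sc (T.lf 41518 1605631) T.out)))) (T.sb (T.se (T.sa T.out (T.lf 42908 1835007)) (T.sa T.out (T.sc (T.lf 40621 557055) T.out))) (T.se (T.sa T.out (T.sc (T.lf 40582 1146879) T.out)) (T.sa T.out (T.sc (T.lf 38694 18612223) T.out))))) T.out) (T.sc (T.sd (T.sb (T.sa T.out (T.lf 40211 550395183103)) (T.sa T.out (T.sc (T.lf 38746 614399) T.out))) (T.sb (T.sa T.out (T.sc (T.lf 38395 614399) T.out)) (T.sa T.out (T.sc (T.lf 36548 605782015) T.out)))) T.out))) (T.sa T.out (T.se (T.sc (T.sb (T.sd (T.sa T.out (T.se (T.sc (T.lf 40647 606207) T.out) (T.sc (T.lf 38728 1802239) T.out))) (T.sa T.out (T.se (T.sc (T.lf 38673 638975) T.out) (T.sc (T.lf 37059 18612223) T.out)))) (T.sd (T.sa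 T.out (T.se (T.sc (T.lf 38627 1671167) T.out) (T.sc (T.lf 37124 88080383) T.out))) (T.sa T.out (T.se (T.lf 36343 364904447) (T.sc (T.lf 35400 20709375) T.out))))) T.out) (T.sc (T.sb (T.sd (T.sa T.out (T.sc (T.lf 36812 538705919) T.out)) (T.sa T.out (T.sc (T.lf 35296 672923647) T.out))) (T.sd (T.sa T.out (T.sc (T.lf 35389 1061158911) T.out)) (T.sa T.out (T.sc (T.lf 33768 1035993087) T.out)))) T.out))))) (T.sa T.out (T.sb (T.se (T.sd (T.sc (T.sb (T.sa T.out (T.se (T.sd (T.lf 41512 161218559) T.out) (T.sd (T.lf 39023 143392767) T.out))) (T.sa T.out (T.se (T.sd (T.lf 38648 27262975) T.out) (T.sd (T.lf 36710 968884223) T.out)))) T.out) T.out) (T.sd (T.sc (T.sb (T.sa T.out (T.lf 35914 18148753407)) (T.sa T.out (T.sd (T.lf 34975 966787071) T.out))) T.out) T.out)) (T.se (T.sc (T.sd (T.sa T.out (T.sb (T.se (T.lf 35841 163577855) (T.sd (T.sc (T.lf 35754 770047) T.out) T.out)) (T.se (T.lf 34538 17539071) (T.sc (T.lf 33743 503316479) T.out))))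 T.out) T.out) (T.sc (T.sd (T.sa T.out (T.sb (T.sd (T.sc (T.lf 33798 700448767) T.out) T.out) (T.sc (T.sd (T.se (T.lf 33197 163577855) (T.lf 32012 973078527)) T.out) T.out))) T.out) T.out))))) (T.sd (T.sa T.out (T.sd (T.se (T.sb (T.sc (T.sd (T.se (T.sb (T.sa T.out (T.sc (T.lf 41583 1146879) T.out)) T.out) (T.sb (T.sc (T.sa T.out (T.lf 39064 85688319)) T.out) T.out)) (T.se (T.sa T.out (T.sb (T.sc (T.lf 39192 17924095) T.out) T.out)) (T.sa T.out (T.sb (T.sc (T.lf 37087 624689151) T.out) T.out)))) T.out) T.out) (T.sb (T.sc (T.sd (T.sb (T.sc (T.sa T.out (T.lf 37354 1802239)) T.out) T.out) (T.sa T.out (T.sb (T.sc (T.lf 35410 926941183) T.out) T.out))) T.out) T.out)) (T.se (T.sb (T.sc (T.sa T.out (T.sd (T.se (T.sb (T.lf 36725 935329791) T.out) (T.sb (T.sc (T.lf 35458 87818239) T.out) T.out)) (T.se (T.lf 34473 20938751) (T.sb (T.sc (T.lf 34288 18571263) T.out) T.out)))) T.out) T.out) (T.sb (T.sc (T.sa T.out (T.sd (T.sb (T.sc (T.lf 33714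 13614942012154314751) T.out) T.out) (T.sb (T.sc (T.lf 32454 1073741823) T.out) T.out))) T.out) T.out)))) (T.sa T.out (T.se (T.sc (T.sb (T.sd (T.sa T.out (T.se (T.sc (T.sb (T.lf 33879 1073741823) T.out) T.out) (T.sc (T.sb (T.sd (T.lf 32997 499122175) T.out) T.out) T.out))) T.out) T.out) T.out) (T.sc (T.sb (T.sd (T.sa T.out (T.sc (T.sb (T.sd (T.se (T.lf 31938 153958471434239) (T.lf 31003 1040187391)) T.out) T.out) T.out)) T.out) T.out) T.out))))) 0 512 0 1024 512 1024 0 1024 512 1024 = true := by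
  decide +kernel

end Pool.Agent.Lib.MP_3a1514_mp
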