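import Pool.Agent.Lib.MP_3a1514_mp.Data

set_option maxRecDepth 100000

namespace Pool.Agent.Lib.MP_3a1514_mp

theorem c19 : chk tA tB vlist (T.sb (T.sc (T.se (T.sd (T.sa (T.sb (T.sc (T.lf 60806 18815) (T.lf 57461 550293336063)) (T.sc (T.lf 55705 19839) (T.se (T.lf 53000 20351) (T.lf 50357 18815)))) (T.sb (T.sc (T.se (T.lf 59197 28031) (T.lf 53124 19839)) (T.se (T.lf 54410 2431) (T.lf 52490 2943))) (T.sc (T.se (T.lf 53594 28543) (T.lf 49409 19839)) (T.se (T.lf 49350 28031) (T.lf 46452 19839))))) (T.sa (T.sb (T.sc (T.lf 54544 20351) (T.se (T.lf 53081 20351) (T.lf 49802 19327))) (T.sc (T.lf 50731 86015) (T.se (T.lf 49218 94207) (T.lf 46743 20351)))) (T.sb (T.sc (T.se (T.lf 53720 28671) (T.lf 48607 20351)) (T.se (T.lf 49205 12159) (T.lf 45956 20351))) (T.sc (T.se (T.lf 48723 389119) (T.lf 45816 20479)) (T.se (T.lf 46062 20479) (T.lf 43521 20479)))))) (T.sa (T.sd (T.sb (T.lf 55032 550293237631) (T.lf 49365 550326861823)) (T.sb (T.lf 48651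 550327025663) (T.sc (T.lf 47400 571047935) (T.lf 43730 20351)))) (T.sd (T.lf 47721 550327021567) (T.sb (T.lf 44787 537522175) (T.lf 42306 20479))))) (T.se (T.sd (T.sb (T.sa (T.se (T.lf 55499 4504699677503487) (T.lf 52437 28671)) (T.se (T.lf 51435 2431) (T.lf 48606 2943))) (T.sa (T.se (T.sc (T.lf 52512 27519) (T.lf 49999 2943)) (T.lf 48667 1649839702015)) (T.se (T.lf 47679 11263) (T.lf 45349 28543)))) (T.sa (T.sb (T.se (T.sc (T.lf 51102 11263) (T.lf 48805 2943)) (T.sc (T.lf 48061 27519) (T.lf 45920 27647))) (T.se (T.sc (T.lf 47658 65535) (T.lf 45541 28671)) (T.sc (T.lf 44380 557055) (T.lf 43481 557055)))) (T.sb (T.se (T.lf 47316 11135) (T.lf 44986 61439)) (T.se (T.lf 44316 61439) (T.lf 41459 35651583))))) (T.sa (T.sd (T.sb (T.lf 47140 28543) (T.lf 43809 557055)) (T.sb (T.lf 43801 537427967) (T.lf 41440 550403571711))) (T.sd (T.sb (T.sc (T.lf 46398 28543) (T.lf 44324 549756399615)) (T.sc (T.lf 41509 20351) (T.lf 40174 159743))) (T.sb (T.sc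 (T.lf 41589 537591807) (T.lf 40512 550294519807)) (T.sc (T.lf 38968 720895) (T.lf 37740 550395183103))))))) (T.sc (T.se (T.sa (T.sd (T.sc (T.sb (T.lf 51775 86015) (T.lf 49847 19967)) (T.sb (T.lf 49738 2598649014412902399) (T.lf 45987 550327779327))) (T.sc (T.lf 47028 574488575) (T.sb (T.se (T.lf 46910 98303) (T.lf 44093 86015)) (T.lf 43450 35094527)))) (T.sd (T.sc (T.sb (T.lf 48343 1649843634175) (T.lf 45213 19839)) (T.sb (T.lf 46190 1649911267327) (T.lf 43889 33583103))) (T.sc (T.sb (T.lf 45518 1692863037439) (T.lf 42797 94207)) (T.sb (T.se (T.lf 43372 28671) (T.lf 41530 20479)) (T.lf 40300 39321599))))) (T.sa (T.sd (T.lf 45311 558989574143) (T.sc (T.lf 43439 571170815) (T.lf 41163 571170815))) (T.sd (T.lf 42328 20351) (T.lf 39424 575668223)))) (T.se (T.sa (T.sd (T.sb (T.sc (T.se (T.lf 47684 1142783) (T.lf 45971 20479)) (T.se (T.lf 45437 28671) (T.lf 42937 1081343))) (T.sc (T.se (T.lf 44919 1310719) (T.lf 42339 98303)) (T.se (T.lf 43045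 1835007) (T.lf 40630 102498303)))) (T.sb (T.sc (T.se (T.lf 44987 1966079) (T.lf 41890 1802239)) (T.se (T.lf 43005 1835007) (T.lf 40558 572522495))) (T.sc (T.se (T.lf 41965 2097151) (T.lf 40250 1802239)) (T.se (T.lf 40536 88080383) (T.sa (T.lf 39043 1146879) (T.lf 38259 32767)))))) (T.sd (T.sb (T.se (T.lf 44825 28671) (T.lf 41938 1077247)) (T.sc (T.lf 41073 549790941183) (T.lf 39905 72018655444991))) (T.sb (T.se (T.lf 41091 1649938530303) (T.sc (T.lf 39258 28671) (T.lf 37556 20479))) (T.sc (T.se (T.lf 39247 28671) (T.lf 37887 28671)) (T.se (T.lf 38422 12287) (T.lf 35923 1208319)))))) (T.sa (T.sd (T.sb (T.lf 41397 753663) (T.lf 39845 98303)) (T.sb (T.lf 39173 72047002648575) (T.lf 37285 550418513919))) (T.sd (T.sb (T.lf 38947 549790580735) (T.lf 36879 20479)) (T.sb (T.sc (T.lf 37294 159743) (T.lf 35804 35389439)) (T.lf 35203 34832383))))))) 512 1024 0 512 0 512 0 256 512 1024 = true := by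
  decide +kernel

theorem c20 : chk tA tB vlist (T.sb (T.sc (T.se (T.sa (T.sb (T.sd (T.sc (T.lf 51246 651263) (T.se (T.lf 49342 655359) (T.lf 46307 552959))) (T.sc (T.lf 47333 582706266111) (T.se (T.lf 46475 20065550335) (T.lf 43583 537919487)))) (T.sc (T.sd (T.lf 47368 917503) (T.lf 45066 539885567)) (T.sd (T.se (T.lf 46346 655359) (T.lf 43633 622591)) (T.se (T.lf 43667 1048575) (T.lf 41512 540016639))))) (T.sd (T.sb (T.sc (T.se (T.sa (T.lf 48749 20479) (T.lf 47195 20351)) (T.lf 45784 541982719)) (T.se (T.lf 45371 913407) (T.lf 43482 1048575))) (T.sc (T.se (T.sa (T.lf 45914 323583) (T.lf 43983 20479)) (T.lf 43306 576716799)) (T.se (T.lf 42991 39845887) (T.lf 41139 576716799)))) (T.sb (T.sc (T.se (T.sa (T.lf 46302 917503) (T.lf 43872 4583423)) (T.sa (T.lf 43567 1048575) (T.lf 41892 5242879))) (T.se (T.sa (T.lf 43384 389119) (T.lf 42508 45055)) (T.sa (T.lf 41460 1048575) (T.lf 40638 847871)))) (T.sc (T.se (T.sa (T.lf 43611 4587519) (T.lf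 41883 4583423)) (T.sa (T.lf 41111 5242879) (T.lf 39829 4718591))) (T.se (T.sa (T.lf 41450 393215) (T.lf 39729 323583)) (T.sa (T.lf 39524 550502399) (T.lf 38250 524287))))))) (T.sa (T.sd (T.sb (T.sc (T.sa (T.lf 48642 537485311) (T.lf 45704 610175)) (T.lf 43677 614399)) (T.sc (T.sa (T.lf 44633 571441151) (T.lf 43023 90111)) (T.lf 41421 537624575))) (T.sb (T.sc (T.sa (T.se (T.lf 45561 614399) (T.lf 43758 537485311)) (T.lf 42713 550502399)) (T.sa (T.lf 42758 537919487) (T.lf 40613 614399))) (T.sc (T.sa (T.se (T.lf 43015 614399) (T.lf 41372 537616383)) (T.lf 40588 584056831)) (T.sa (T.lf 39936 26843545599) (T.lf 38607 786431))))) (T.sd (T.sb (T.sc (T.lf 43044 20351) (T.lf 40553 537657343)) (T.lf 39104 593359798271)) (T.sb (T.sc (T.lf 40666 550340919295) (T.se (T.sa (T.lf 39837 786431) (T.lf 38665 782335)) (T.lf 37784 4980735))) (T.sc (T.lf 38293 575668223) (T.se (T.sa (T.lf 37795 1048575) (T.lf 36702 524287)) (T.lf 36051 4980735))))))) (T.se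 (T.sa (T.sb (T.sd (T.se (T.sc (T.lf 47188 655359) (T.lf 46616 573439)) (T.sc (T.lf 44366 655359) (T.lf 42905 655359))) (T.se (T.sc (T.sa (T.lf 44868 573439) (T.lf 43452 65535)) (T.lf 42530 38123252011430313983)) (T.sc (T.sa (T.lf 42756 614399) (T.lf 41551 786431)) (T.sa (T.lf 41518 589823) (T.lf 39734 589823))))) (T.sd (T.se (T.sc (T.lf 44337 2097151) (T.lf 42908 1835007)) (T.sc (T.lf 41823 551550975) (T.sa (T.lf 40621 557055) (T.lf 39257 32767)))) (T.se (T.sc (T.sa (T.lf 42334 98303) (T.lf 40584 655359)) (T.sa (T.lf 40582 638975) (T.lf 39251 65535))) (T.sc (T.sa (T.lf 40203 655359) (T.lf 39032 10485759)) (T.sa (T.lf 39085 1048575) (T.lf 37520 10485759)))))) (T.sb (T.sd (T.se (T.lf 44263 1638399) (T.sc (T.lf 41583 585727) (T.lf 40181 12287))) (T.se (T.sc (T.lf 40979 14680063) (T.lf 39638 45055)) (T.sc (T.sa (T.lf 39709 720895) (T.lf 38432 61439)) (T.lf 37953 9175039)))) (T.sd (T.se (T.sc (T.lf 41089 1372159) (T.lf 40095 11263)) (T.sc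 (T.lf 39351 2097151) (T.lf 38030 65535))) (T.se (T.sc (T.lf 38825 4525207607836671) (T.lf 37556 1507327)) (T.sc (T.sa (T.lf 37859 6291455) (T.lf 36692 196607)) (T.sa (T.lf 36297 720895) (T.lf 35113 61439))))))) (T.sa (T.sb (T.sd (T.sc (T.lf 41510 548735) (T.lf 40211 17861181439)) (T.sc (T.lf 39518 537657343) (T.sa (T.lf 38746 614399) (T.lf 37739 20132659199)))) (T.sd (T.sc (T.lf 39509 614399) (T.sa (T.lf 38395 614399) (T.lf 37239 547094527))) (T.sc (T.lf 37992 1073741823) (T.sa (T.lf 36548 546045951) (T.se (T.lf 36690 585105407) (T.lf 34791 786431)))))) (T.sb (T.sd (T.sc (T.se (T.lf 40113 716799) (T.lf 37899 552959)) (T.se (T.lf 38037 585727) (T.lf 36684 684031))) (T.sc (T.se (T.sa (T.lf 37956 9175039) (T.lf 37115 716799)) (T.lf 36049 786431999)) (T.se (T.lf 36709 569888473087) (T.lf 34966 719323135)))) (T.sd (T.sc (T.se (T.lf 37873 786431) (T.lf 36047 688127)) (T.se (T.lf 36435 1835007) (T.lf 34691 786431))) (T.sc (T.se (T.sa (T.lf 36342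 550502399) (T.lf 35377 786431)) (T.lf 34749 550561120255)) (T.se (T.sa (T.lf 35326 14680063) (T.lf 33874 720895)) (T.sa (T.lf 33780 9175039) (T.lf 32794 720895))))))))) (T.sc (T.se (T.sa (T.sc (T.sd (T.lf 44251 3014655) (T.se (T.sa (T.lf 44150 3006463) (T.lf 41795 86015)) (T.sa (T.lf 41764 3104767) (T.lf 39953 2580479)))) (T.sd (T.sb (T.se (T.lf 43569 360447) (T.lf 41906 622591)) (T.lf 40632 3145727)) (T.sb (T.se (T.lf 41418 90111) (T.lf 39608 1007615)) (T.lf 38877 595591167)))) (T.sc (T.sd (T.sb (T.se (T.lf 42696 41943039) (T.lf 41081 33947647)) (T.lf 40598 33947647)) (T.se (T.sb (T.lf 40267 13555990527) (T.lf 38890 348159)) (T.lf 38245 873623191551))) (T.sd (T.sb (T.se (T.lf 41101 39845887) (T.lf 39034 38273023)) (T.se (T.lf 38680 393215) (T.lf 37445 360447))) (T.sb (T.se (T.sa (T.lf 39071 393215) (T.lf 37942 389119)) (T.sa (T.lf 37412 1048575) (T.lf 36354 520191))) (T.se (T.lf 37154 4718591) (T.lf 35399 39321599)))))) (T.sa (T.sc (T.sd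 (T.lf 41163 2594145469949018111) (T.sa (T.lf 39604 9177137151) (T.sb (T.lf 38599 575668223) (T.lf 37232 577757183)))) (T.sd (T.lf 38637 559151054847) (T.sb (T.sa (T.lf 38262 587202559) (T.lf 36946 5242879)) (T.sa (T.lf 36641 577765375) (T.lf 35326 577765375))))) (T.sc (T.sd (T.sb (T.lf 38876 33775615) (T.lf 37368 38797311)) (T.sb (T.se (T.lf 37612 38264831) (T.lf 36239 38797311)) (T.se (T.lf 36216 38273023) (T.lf 34826 575668223)))) (T.sd (T.lf 36246 38240255) (T.sb (T.lf 35289 654311423) (T.se (T.lf 34409 38797311) (T.lf 33488 654311423))))))) (T.se (T.sa (T.sd (T.sb (T.sc (T.se (T.lf 41857 541065215) (T.lf 39939 1678258470911)) (T.se (T.sa (T.lf 40647 98303) (T.lf 38811 32767)) (T.sa (T.lf 38728 786431) (T.lf 37489 786431)))) (T.sc (T.se (T.lf 39402 1572863) (T.lf 37854 595591167)) (T.se (T.sa (T.lf 38673 1146879) (T.lf 37491 1114111)) (T.sa (T.lf 37059 2097151) (T.lf 36064 2097151))))) (T.sb (T.sc (T.se (T.lf 39876 4194303) (T.sa (T.lf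 38564 745471) (T.lf 37427 8388607))) (T.se (T.sa (T.lf 38627 655359) (T.lf 37601 786431)) (T.sa (T.lf 37124 29360127) (T.lf 35980 603979775)))) (T.sc (T.se (T.lf 37756 352255) (T.lf 36427 8388607)) (T.se (T.lf 36343 100663295) (T.sa (T.lf 35400 4194303) (T.lf 34418 125829119)))))) (T.sd (T.sb (T.se (T.sc (T.lf 39691 1507327) (T.lf 37562 1110015)) (T.sc (T.lf 37532 106954751) (T.lf 35910 2097151))) (T.sc (T.se (T.lf 37086 1572863) (T.lf 36008 35127295)) (T.se (T.lf 35968 1507327) (T.lf 34214 106954751)))) (T.sb (T.se (T.sc (T.sa (T.lf 37500 393215) (T.lf 36694 61439)) (T.lf 36035 67108863)) (T.sc (T.sa (T.lf 36056 48234495) (T.lf 35300 458751)) (T.sa (T.lf 34605 14680063) (T.lf 33511 196607)))) (T.sc (T.se (T.lf 35332 125829119) (T.sa (T.lf 34452 2097151) (T.lf 33453 458751))) (T.se (T.lf 34596 671088639) (T.sa (T.lf 33503 106954751) (T.lf 32144 1507327))))))) (T.sa (T.sd (T.sb (T.sc (T.lf 37562 537624575) (T.sa (T.lf 36812 538705919)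 (T.lf 35554 576716799))) (T.sc (T.lf 36141 645922815) (T.sa (T.lf 35296 572260351) (T.lf 34034 102760447)))) (T.sb (T.sc (T.sa (T.lf 36569 586153983) (T.lf 35381 584056831)) (T.sa (T.lf 35389 738197503) (T.se (T.lf 34746 1679332212735) (T.lf 33429 550502399)))) (T.sc (T.sa (T.lf 35028 595591167) (T.lf 34039 578813951)) (T.sa (T.lf 33768 671088639) (T.se (T.lf 33414 1073741823) (T.lf 31989 106954751)))))) (T.sd (T.sb (T.sc (T.lf 35170 643825663) (T.se (T.lf 34653 115343359) (T.lf 33219 34340863))) (T.sc (T.lf 33718 33783807) (T.se (T.lf 33473 39845887) (T.lf 32162 753663)))) (T.sb (T.sc (T.se (T.sa (T.lf 34811 39845887) (T.lf 33788 524287)) (T.lf 33218 652214271)) (T.se (T.sa (T.lf 33433 652214271) (T.lf 32486 786431)) (T.sa (T.lf 32504 46923775) (T.lf 31592 786431)))) (T.sc (T.lf 32507 72086731096063) (T.se (T.sa (T.lf 32185 115343359) (T.lf 31300 1572863)) (T.sa (T.lf 31138 38797311) (T.lf 30293 262143)))))))))) 512 1024 0 512 0 512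 256 512 512 1024 = true := by
  decide +kernel

theorem c21 : chk tA tB vlist (T.sd (T.se (T.sb (T.sd (T.sa (T.sc (T.se (T.lf 50838 2431) (T.lf 48043 2943)) (T.se (T.lf 46453 127) (T.lf 44829 639))) (T.sc (T.se (T.lf 47431 319) (T.lf 44829 383)) (T.lf 43154 895))) (T.sa (T.sc (T.se (T.lf 46014 11135) (T.lf 43760 588799)) (T.lf 42896 38122990313704259583)) (T.sc (T.lf 42762 38123060613728960511) (T.lf 39395 2943)))) (T.sc (T.sd (T.sa (T.se (T.lf 46014 11135) (T.lf 43760 1601535)) (T.lf 42896 111846986376345026559)) (T.sa (T.se (T.lf 43866 1638399) (T.sa (T.lf 40541 557055) (T.lf 41192 11263))) (T.se (T.lf 40273 895) (T.lf 38103 11263)))) (T.sd (T.sa (T.lf 42762 111846986376345026559) (T.lf 39395 2943)) (T.sa (T.se (T.lf 40273 895) (T.lf 38103 11263)) (T.lf 37802 11135))))) (T.sa (T.sc (T.sb (T.sd (T.se (T.lf 44833 27519) (T.lf 42980 27519)) (T.se (T.lf 41465 720895) (T.lf 39334 557055))) (T.sd (T.se (T.lf 41465 1736703) (T.lf 39334 557055))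 (T.se (T.sa (T.lf 39734 557055) (T.lf 37976 552959)) (T.lf 37460 538705919)))) (T.sb (T.sd (T.se (T.lf 42718 2687) (T.lf 39702 2943)) (T.se (T.lf 40105 2943) (T.lf 37225 535423))) (T.sd (T.se (T.lf 38552 11135) (T.lf 37099 539647)) (T.se (T.lf 36249 1719295) (T.lf 35162 687103))))) (T.sc (T.sd (T.sb (T.se (T.lf 42718 2431) (T.lf 39702 2943)) (T.se (T.lf 40105 2943) (T.lf 37225 27519))) (T.sb (T.se (T.lf 38552 11135) (T.lf 37099 28671)) (T.se (T.lf 36249 192511) (T.lf 35162 684031)))) (T.sb (T.sd (T.lf 39171 27647) (T.lf 36885 715775)) (T.sd (T.lf 36885 1240063) (T.lf 34928 4505251824271359)))))) (T.se (T.sa (T.sc (T.sb (T.sd (T.se (T.lf 43173 1638399) (T.sa (T.lf 42026 572415) (T.lf 40492 11263))) (T.se (T.sa (T.lf 41076 1753087) (T.lf 39581 48127)) (T.sa (T.lf 39340 2828795903) (T.lf 38112 1769471)))) (T.sd (T.se (T.sa (T.lf 40497 1622015) (T.lf 39086 45055)) (T.sa (T.lf 38999 2912944127) (T.lf 37655 720895))) (T.se (T.sa (T.lf 38967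 700448767) (T.lf 37086 1769471)) (T.sa (T.sc (T.lf 37525 786431) (T.lf 36305 540671)) (T.sc (T.lf 36365 720895) (T.lf 35222 16383)))))) (T.sb (T.sd (T.se (T.lf 39943 2687) (T.lf 39580 2943)) (T.se (T.lf 37594 11263) (T.lf 36374 539647))) (T.sd (T.se (T.lf 37752 11263) (T.lf 35843 1752063)) (T.se (T.lf 35845 1620991) (T.lf 34467 2644246527))))) (T.sc (T.sb (T.sd (T.se (T.lf 39945 895) (T.lf 38557 11263)) (T.se (T.lf 39082 11263) (T.lf 36681 10158079))) (T.sd (T.se (T.lf 37673 11263) (T.lf 36500 1769471)) (T.se (T.lf 35896 1769471) (T.sc (T.lf 34873 10223615) (T.lf 34344 45055))))) (T.sb (T.sd (T.lf 37957 2943) (T.lf 36128 572415)) (T.sd (T.lf 35135 1228799) (T.se (T.lf 34255 895) (T.lf 32456 44031)))))) (T.sa (T.sc (T.sb (T.sd (T.sa (T.se (T.lf 39264 557055) (T.lf 37871 540671)) (T.se (T.lf 38494 540671) (T.lf 36391 557055))) (T.sa (T.se (T.lf 37864 9175039) (T.lf 36039 688127)) (T.se (T.lf 36691 144441343) (T.lf 34961 9175039)))) (T.sd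 (T.sa (T.se (T.lf 37549 765460479) (T.lf 36110 753663)) (T.se (T.lf 35938 748421119) (T.lf 34641 547094527))) (T.sa (T.se (T.sc (T.lf 36331 786431) (T.lf 34921 704511)) (T.lf 34447 680263679)) (T.se (T.sc (T.lf 34938 9175039) (T.lf 33856 671743)) (T.sc (T.lf 33822 786431) (T.lf 32689 688127)))))) (T.sb (T.sd (T.se (T.lf 36681 535551) (T.lf 35945 539519)) (T.sa T.out (T.lf 33561 9109503))) (T.sd (T.se (T.lf 35251 144375807) (T.lf 33575 10158079)) (T.sa T.out (T.se (T.lf 32456 703487) (T.lf 31573 671743)))))) (T.sc (T.sb (T.sd (T.se (T.lf 36662 716799) (T.lf 35192 10223615)) (T.se (T.sc (T.lf 35507 720895) (T.lf 33964 569343)) (T.sc (T.lf 33972 10223615) (T.lf 33137 700415)))) (T.sd (T.se (T.lf 34807 1652218134527) (T.lf 33491 786431999)) (T.se (T.sc (T.lf 33485 2950692863) (T.lf 32489 720895)) (T.sc (T.sa (T.lf 32774 786431) (T.lf 31845 196607)) (T.lf 31473 10223615))))) (T.sb (T.sd (T.lf 35053 4505338013286399) (T.se (T.lf 32904 44031)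 (T.lf 31825 699391))) (T.sd (T.se (T.lf 32861 11263) (T.lf 31346 670719)) (T.se (T.lf 31352 704511) (T.lf 30539 9109503)))))))) 512 1024 0 256 512 1024 0 512 512 1024 = true := by
  decide +kernel

theorem c22 : chk tA tB vlist (T.sd (T.se (T.sc (T.sa (T.sd (T.sb (T.se (T.lf 43173 1638399) (T.sc (T.lf 42026 1077247) (T.lf 40492 11263))) (T.se (T.sc (T.lf 41076 1245183) (T.lf 39581 1060863)) (T.sc (T.lf 39340 1100150996991) (T.lf 38112 1769471)))) (T.sb (T.se (T.sc (T.lf 40497 1114111) (T.lf 39086 1063935)) (T.sc (T.lf 38999 1100176424959) (T.lf 37655 1736703))) (T.se (T.sc (T.lf 38967 658505727) (T.lf 37086 1769471)) (T.sc (T.sa (T.lf 37525 1802239) (T.lf 36305 32767)) (T.sa (T.lf 36365 1736703) (T.lf 35222 16383)))))) (T.sd (T.sb (T.se (T.lf 39943 2431) (T.lf 39580 2943)) (T.se (T.lf 37594 11263) (T.lf 36374 28671))) (T.sb (T.se (T.lf 37752 11263) (T.lf 35843 1241087)) (T.se (T.lf 35845 1110015) (T.lf 34467 1099626971135))))) (T.sa (T.sd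 (T.sb (T.se (T.lf 39945 895) (T.lf 38557 11263)) (T.se (T.lf 39082 11263) (T.lf 36681 68878335))) (T.sb (T.se (T.lf 37673 11263) (T.lf 36500 1769471)) (T.se (T.lf 35896 1769471) (T.sa T.out (T.lf 34344 1063935))))) (T.sd (T.sb (T.lf 37957 2943) (T.lf 36128 1077247)) (T.sb (T.lf 35135 1228799) (T.se (T.lf 34255 895) (T.lf 32456 1059839)))))) (T.sc (T.sa (T.sd (T.sb (T.sc (T.se (T.lf 39264 557055) (T.lf 37871 32767)) (T.se (T.lf 38494 32767) (T.lf 36391 557055))) (T.sc (T.se (T.lf 37864 68911103) (T.lf 36039 688127)) (T.se (T.lf 36691 102498303) (T.lf 34961 68911103)))) (T.sb (T.sc (T.se (T.lf 37549 664797183) (T.lf 36110 753663)) (T.se (T.lf 35938 647757823) (T.lf 34641 605814783))) (T.sc (T.se (T.sa (T.lf 36331 1802239) (T.lf 34921 1212415)) (T.lf 34447 639336447)) (T.se (T.sa (T.lf 34938 68911103) (T.lf 33856 163839)) (T.sa (T.lf 33822 1802239) (T.lf 32689 688127)))))) (T.sd (T.sb (T.se (T.lf 36681 27647) (T.lf 35945 28543)) (T.sc (T.lf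 34637 1212415) (T.lf 34391 68354047))) (T.sb (T.se (T.lf 35251 102432767) (T.lf 33575 68878335)) (T.sc (T.lf 33126 115343359) (T.se (T.lf 32456 1208319) (T.lf 31573 163839)))))) (T.sa (T.sd (T.sb (T.se (T.lf 36662 1735679) (T.lf 35192 68943871)) (T.se (T.sa T.out (T.lf 33964 1080319)) (T.sa T.out (T.lf 33137 1211391)))) (T.sb (T.se (T.lf 34807 1119906430975) (T.lf 33491 1067188223)) (T.se (T.sa T.out (T.lf 32489 1736703)) (T.sa T.out (T.lf 31473 68943871))))) (T.sd (T.sb (T.lf 35053 4575638037987327) (T.se (T.lf 32904 1059839) (T.lf 31825 1207295))) (T.sb (T.se (T.lf 32861 11263) (T.lf 31346 159743)) (T.se (T.lf 31352 1212415) (T.lf 30539 68845567))))))) (T.se (T.sa (T.sc (T.sb (T.sd (T.se (T.sa (T.lf 38805 20971519) (T.lf 37126 1638399)) (T.sa (T.sc (T.lf 37546 1835007) (T.lf 36287 1605631)) (T.sc (T.lf 36287 589823) (T.lf 35109 16383)))) (T.se (T.sa (T.sc (T.lf 37548 655359) (T.lf 36306 573439)) (T.sc (T.lf 35943 1638399) (T.lf 34794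 16383))) (T.sa (T.sc (T.lf 35683 771751935) (T.lf 34947 27000831)) (T.sc (T.lf 34595 100663295) (T.lf 33510 1769471))))) (T.sd (T.se (T.sc (T.sa (T.lf 37096 1703935) (T.lf 36306 1081343)) (T.sa (T.lf 35943 1638399) (T.lf 34794 16383))) (T.sc (T.sa (T.lf 35683 671088639) (T.lf 34947 69206015)) (T.sa (T.lf 34595 364904447) (T.lf 33510 1769471)))) (T.se (T.sa (T.sc (T.lf 35645 1835007) (T.lf 34607 1835007)) (T.sc (T.lf 34607 1835007) (T.lf 33501 1245183))) (T.sa (T.sc (T.lf 34132 32465657790463) (T.sb (T.lf 33457 18612223) (T.lf 32812 96468991))) (T.sc (T.sd (T.lf 33457 2097151) (T.lf 32812 96468991)) (T.lf 32482 369098751)))))) (T.sb (T.sd (T.se (T.lf 35842 1622015) (T.sa T.out (T.lf 33594 1063935))) (T.se (T.lf 33976 3221225471) (T.sa T.out (T.lf 32108 1769471)))) (T.sd (T.se (T.sa T.out (T.lf 33580 1063935)) (T.sa T.out (T.lf 32069 68878335))) (T.se (T.sa T.out (T.lf 32077 18530303)) (T.sa T.out (T.sc (T.lf 31552 1835007) T.out))))))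 (T.sc (T.sd (T.sb (T.se (T.lf 35842 1114111) (T.sc (T.lf 34851 196607) (T.lf 33594 45055))) (T.se (T.lf 33976 1100585369599) (T.sc (T.lf 33139 102760447) (T.lf 32108 1769471)))) (T.sb (T.se (T.sc (T.lf 34819 1507327) (T.lf 33580 45055)) (T.sc (T.sa (T.lf 33851 1769471) (T.lf 32415 61439)) (T.lf 32069 10158079))) (T.se (T.sc (T.lf 33259 98566143) (T.lf 32077 1507327)) (T.sc (T.sa (T.lf 32152 98566143) (T.lf 31188 1245183)) (T.sa (T.lf 31552 1835007) (T.lf 30566 147455)))))) (T.sb (T.sd (T.se (T.lf 34148 895) (T.lf 32526 44031)) (T.se (T.lf 32042 1092607) (T.lf 31056 1753087))) (T.sd (T.se (T.lf 32042 1092607) (T.lf 31056 1245183)) (T.se (T.lf 31398 1245183) (T.sa (T.lf 29902 77332479) (T.lf 29228 147455))))))) (T.sa (T.sc (T.sb (T.sd (T.sa (T.sc (T.se (T.lf 36395 605814783) (T.lf 34801 745471)) (T.se (T.lf 34662 1835007) (T.lf 33560 753663))) (T.sc (T.se (T.lf 34662 1835007) (T.lf 33560 753663)) (T.se (T.lf 33889 688127) (T.lf 32495 688127))))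 (T.sa (T.sc (T.se (T.lf 34463 1073741823) (T.lf 33395 547094527)) (T.se (T.lf 33466 496762879) (T.lf 32248 144441343))) (T.sc (T.se (T.lf 33429 1073741823) (T.lf 32211 652214271)) (T.se (T.lf 32202 232783871) (T.lf 31323 484179967))))) (T.sd (T.sc (T.sa (T.se (T.lf 34463 1073741823) (T.lf 33395 605814783)) (T.se (T.lf 33466 106954751) (T.lf 32248 102498303))) (T.sa (T.se (T.lf 33429 1073741823) (T.lf 32211 932970495)) (T.se (T.lf 32202 132120575) (T.lf 31323 383516671)))) (T.sa (T.sc (T.se (T.sb (T.lf 33425 767557631) (T.lf 32699 1073741823)) (T.lf 32207 803209215)) (T.se (T.sb (T.lf 32460 228327423) (T.lf 31981 1073741823)) (T.lf 31106 568009424895))) (T.sc (T.se (T.sd (T.lf 32460 111149055) (T.lf 31981 1073741823)) (T.lf 31106 568009424895)) (T.se (T.sb (T.lf 31263 94371839) (T.lf 30694 536870911)) (T.sb (T.lf 30527 245104639) (T.lf 29806 534773759))))))) (T.sb (T.sd (T.se (T.sa T.out (T.lf 32443 1720319)) (T.sa T.out (T.lf 31595 68878335)))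 (T.sa T.out (T.se (T.lf 31186 211550207) (T.lf 30046 479985663)))) (T.sd (T.se (T.sa T.out (T.lf 31462 1073741823)) (T.sa T.out (T.lf 30095 74975325983942377471))) (T.sa T.out (T.se (T.sc (T.lf 30100 501219327) T.out) (T.sc (T.lf 29410 534773759) T.out)))))) (T.sc (T.sd (T.sb (T.se (T.sc (T.lf 33141 110886911) (T.lf 32443 196607)) (T.sc (T.lf 32198 102498303) (T.lf 31595 68878335))) (T.sc (T.se (T.lf 32175 671088639) (T.lf 30990 106692607)) (T.se (T.lf 31186 110886911) (T.lf 30046 115081215)))) (T.sb (T.se (T.sc (T.sa (T.lf 32232 652214271) (T.lf 31535 720895)) (T.lf 31462 1073741823)) (T.sc (T.sa (T.lf 31256 115081215) (T.lf 30405 786431)) (T.lf 30095 1242254350462484479))) (T.sc (T.se (T.sa (T.lf 31344 1073741823) (T.lf 30385 1835007)) (T.sa (T.lf 30307 668991487) (T.lf 29420 1835007))) (T.se (T.sa (T.lf 30100 400556031) (T.lf 29494 1769471)) (T.sa (T.lf 29410 534773759) (T.lf 28568 1835007)))))) (T.sb (T.sd (T.se (T.lf 31107 1245183)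 (T.lf 30150 68878335)) (T.se (T.lf 30209 3221225471) (T.sa (T.lf 29208 77332479) (T.lf 28542 704511)))) (T.sd (T.se (T.lf 30209 1100585369599) (T.sc (T.lf 29208 77332479) (T.lf 28542 1212415))) (T.se (T.sa (T.lf 29181 10534481035263) (T.lf 28247 68878335)) (T.sa (T.sc (T.lf 28610 110886911) (T.lf 27723 1736703)) (T.lf 27789 110886911))))))))) 512 1024 256 512 512 1024 0 512 512 1024 = true := by
  decide +kernel

theorem c23 : chk tA tB vlist (T.sc (T.sd (T.se (T.sa (T.sb (T.sc (T.lf 44976 288302442070671359) (T.lf 41831 104300543)) (T.sc (T.lf 41480 33641983) (T.lf 39402 37051903))) (T.sb (T.sd (T.lf 41480 33574911) (T.lf 39402 34959359)) (T.sc (T.sd (T.lf 40063 17919) (T.lf 37777 17919)) (T.lf 36722 288302442339106815)))) (T.sa (T.sb (T.sc (T.sd (T.lf 42892 558920589311) (T.lf 40259 577724415)) (T.sd (T.lf 40259 639336447) (T.sa (T.lf 38354 34299903) (T.lf 36904 106389503)))) (T.sc (T.sd (T.lf 40597 33639935) (T.lf 37377 33641983))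 (T.sd (T.lf 37769 108486655) (T.lf 35456 107438079)))) (T.sb (T.sd (T.sc (T.lf 40597 33639935) (T.lf 37377 33574911)) (T.sc (T.lf 37769 106397695) (T.lf 35456 105349119))) (T.sc (T.sd (T.lf 36956 17791) (T.lf 35325 33572351)) (T.sd (T.lf 35325 33572351) (T.lf 33517 33771007)))))) (T.se (T.sa (T.sb (T.sc (T.sd (T.se (T.lf 41961 58720255) (T.lf 39906 352255)) (T.se (T.sa (T.lf 41512 58187775) (T.lf 39047 2580479)) (T.sa (T.lf 39023 40853503) (T.lf 37150 2580479)))) (T.sd (T.lf 38833 58720255) (T.se (T.sa (T.lf 38648 25157631) (T.lf 37405 2449407)) (T.sa (T.lf 36710 662700031) (T.lf 35397 2580479))))) (T.sc (T.sd (T.lf 38337 36132351) (T.se (T.lf 37822 36132863) (T.lf 35752 2446847))) (T.sd (T.lf 36434 37183487) (T.se (T.lf 35456 125296639) (T.lf 34166 36134911))))) (T.sb (T.sc (T.sd (T.lf 37651 348159) (T.lf 35949 38232063)) (T.sd (T.lf 35873 352255) (T.lf 34440 108527615))) (T.sc (T.lf 35320 33900031) (T.lf 33125 38232063)))) (T.sa (T.sb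 (T.sc (T.sd (T.lf 38367 9235816447) (T.lf 35914 9252634623)) (T.sd (T.sa (T.lf 36657 644833279) (T.lf 35570 662700031)) (T.sa (T.lf 34975 662691839) (T.sb (T.lf 34118 40894463) (T.lf 33160 34037759))))) (T.sc (T.lf 34930 35870207) (T.sd (T.lf 33871 35872767) (T.lf 32211 219135)))) (T.sb (T.sc (T.sd (T.sb (T.lf 35817 105381887) (T.lf 34690 33775615)) (T.se (T.lf 34216 43612372991) (T.lf 33177 288302718433361919))) (T.sd (T.sb (T.lf 34506 39288831) (T.lf 33123 105340927)) (T.sb (T.se (T.lf 33162 38797311) (T.lf 32174 109051903)) (T.lf 31900 125829119)))) (T.sc (T.sd (T.lf 33235 33773055) (T.lf 31754 38229503)) (T.sd (T.lf 32193 38232063) (T.lf 30621 107438079))))))) (T.sd (T.se (T.sb (T.sa (T.sd (T.sc (T.se (T.lf 41961 121634815) (T.lf 39906 1138687)) (T.se (T.sb (T.lf 41512 119013375) (T.lf 39047 1277951)) (T.sb (T.lf 39023 102465535) (T.lf 37150 1277951)))) (T.sc (T.lf 38833 121634815) (T.se (T.sb (T.lf 38648 85983231) (T.lf 37405 1146879))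 (T.sb (T.lf 36710 662700031) (T.lf 35397 1277951))))) (T.sd (T.sc (T.lf 38337 34762751) (T.se (T.lf 37822 34766847) (T.lf 35752 1077247))) (T.sc (T.lf 36434 35094527) (T.se (T.lf 35456 123207679) (T.lf 34166 34832383))))) (T.sa (T.sd (T.sc (T.lf 37651 1138175) (T.lf 35949 101933055)) (T.sc (T.lf 35873 1138687) (T.lf 34440 125272063))) (T.sd (T.lf 35320 34622975) (T.lf 33125 101933055)))) (T.sb (T.sa (T.sd (T.sc (T.lf 38367 550399606783) (T.lf 35914 550418513919)) (T.sc (T.sb (T.lf 36657 643530751) (T.lf 35570 662700031)) (T.sb (T.lf 34975 660602879) (T.sa (T.lf 34118 121339903) (T.lf 33160 34824191))))) (T.sd (T.lf 34930 33714175) (T.sc (T.lf 33871 33783807) (T.lf 32211 155647)))) (T.sa (T.sd (T.sc (T.sa T.out (T.lf 34690 33775615)) (T.se (T.lf 34216 70919162691583) (T.lf 33177 297318437829476351))) (T.sc (T.sa T.out (T.lf 33123 106127359)) (T.sa T.out (T.lf 31900 125829119)))) (T.sd (T.sc (T.lf 33235 33705983) (T.lf 31754 101863423))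 (T.sc (T.lf 32193 101933055) (T.lf 30621 106135551)))))) (T.se (T.sa (T.sb (T.sc (T.sd (T.lf 36563 671088639) (T.se (T.lf 35841 58720255) (T.sa (T.sb (T.lf 35754 2580479) (T.lf 34478 3629055)) (T.lf 33756 4194303)))) (T.sd (T.se (T.lf 35841 121634815) (T.sb (T.sa (T.lf 35754 1277951) (T.lf 34478 1540095)) (T.lf 33756 20938751))) (T.se (T.lf 34538 1531903) (T.sa (T.lf 33743 402653183) (T.lf 32457 58720255))))) (T.sc (T.sd (T.lf 34415 125272063) (T.se (T.lf 33836 5234491391) (T.lf 32521 257059161374719))) (T.sd (T.lf 33136 70369817919487) (T.se (T.lf 32476 939524095) (T.sa T.out (T.lf 30587 121069567)))))) (T.sb (T.sd (T.sc (T.lf 34415 108527615) (T.se (T.lf 33836 1100451151871) (T.lf 32521 9096860992012287))) (T.sc (T.lf 33136 35433480191) (T.se (T.lf 32476 939524095) (T.sb (T.sa (T.lf 32212 2097151) (T.lf 31332 458751)) (T.lf 30587 39321599))))) (T.sc (T.lf 31621 108527615) (T.sd (T.lf 31026 35086335) (T.lf 29786 125304831))))) (T.sa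 (T.sb (T.sc (T.sd (T.sa (T.sb (T.lf 35332 35618815) (T.lf 34056 37707775)) (T.sb (T.lf 34056 35618815) (T.lf 33155 106921983))) (T.sa (T.sb (T.lf 33798 595591167) (T.lf 32823 40853503)) (T.sb (T.lf 32781 1073741823) (T.lf 31673 109051903)))) (T.sd (T.sb (T.sa (T.lf 33798 658505727) (T.lf 32823 102465535)) (T.sa (T.lf 32781 1073741823) (T.lf 31673 109051903))) (T.sa (T.sb (T.se (T.lf 33197 58720255) (T.lf 32012 671088639)) (T.lf 31556 85260469534719)) (T.sb (T.lf 31556 72084583612415) (T.lf 30584 298924088804507647))))) (T.sc (T.sd (T.sa T.out (T.lf 31861 125263871)) (T.lf 31307 125788159)) (T.sd (T.sa T.out (T.se (T.lf 30768 125263871) (T.lf 30197 931135487))) (T.sa T.out (T.se (T.lf 29839 402653183) (T.sb (T.lf 29223 125788159) T.out)))))) (T.sb (T.sd (T.sc (T.sb (T.lf 32460 39288831) (T.lf 31861 106430463)) (T.lf 31307 106954751)) (T.sc (T.sb (T.se (T.lf 31919 109051903) (T.sa (T.lf 31337 38797311) (T.lf 30480 37969919))) (T.se (T.lf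 30768 106430463) (T.lf 30197 671088639))) (T.sb (T.se (T.sa (T.lf 31105 35651583) (T.lf 30271 229375)) (T.lf 29801 1073741823)) (T.se (T.lf 29839 402653183) (T.sa (T.lf 29223 106954751) (T.lf 28470 105078783)))))) (T.sc (T.sd (T.lf 30689 939524095) (T.se (T.lf 29610 108494847) (T.lf 29001 125829119))) (T.sd (T.se (T.lf 29610 108494847) (T.lf 29001 125829119)) (T.se (T.sa (T.lf 29013 125272063) (T.lf 28186 35086335)) (T.sa (T.lf 28141 394264575) (T.lf 27630 106389503)))))))))) 512 1024 512 1024 0 512 0 512 512 1024 = true := by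
  decide +kernel

theorem c24 : chk tA tB vlist (T.se (T.sb (T.sc (T.sa (T.sd (T.se (T.sb (T.sc (T.lf 38866 1099633262591) (T.lf 37996 68354047)) (T.sc (T.lf 37472 121634815) (T.lf 36307 1099633262591))) (T.sb (T.sc (T.sa (T.lf 37925 1277951) (T.lf 36725 20479)) (T.sa (T.lf 36692 68321279) (T.lf 35215 28671))) (T.sc (T.lf 36029 1649930141695) (T.sa (T.lf 35288 85688319) (T.lf 33893 1081343))))) (T.se (T.sb (T.sc (T.sa (T.lf 37598 1277951) (T.lf 36382 1077247)) (T.sa (T.lf 35914 1277951) (T.lf 35144 1060863))) (T.sc (T.lf 35354 394264575) (T.sa (T.lf 34928 18055167) (T.lf 33521 1081343)))) (T.sb (T.sc (T.sa (T.lf 36010 119275519) (T.lf 34663 1277951)) (T.sa (T.lf 34554 387973119) (T.lf 33837 1212415))) (T.sc (T.sa (T.lf 34505 85688319) (T.lf 33779 1212415)) (T.sa (T.lf 33516 931135487) (T.lf 32516 68386815)))))) (T.sd (T.se (T.sb (T.lf 35845 1077247) (T.lf 34882 1208319)) (T.sb (T.lf 34873 1208319) (T.lf 33187 68317183))) (T.se (T.sb (T.lf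 34405 102170623) (T.lf 33172 102236159)) (T.sb (T.lf 33148 1099635359743) (T.lf 31848 123731967))))) (T.sa (T.sd (T.se (T.sb (T.lf 35828 1099910086655) (T.sc (T.lf 35128 85196799) T.out)) (T.sb (T.sc (T.lf 35123 85721087) T.out) (T.sc (T.sa T.out (T.lf 33147 1077247)) T.out))) (T.se (T.sb (T.sa T.out (T.lf 33229 1064959)) (T.sa T.out (T.lf 32505 68354047))) (T.sb (T.sa T.out (T.lf 32497 68878335)) (T.sa T.out (T.sc (T.lf 31527 85131263) T.out))))) (T.sd (T.se (T.lf 34608 110712088049160814591) (T.sb (T.lf 32915 1059839) (T.lf 31714 1077247))) (T.se (T.sb (T.lf 32382 1059839) (T.lf 31384 1196031)) (T.sb (T.lf 31061 1212415) (T.lf 30150 119209983)))))) (T.sc (T.sa (T.sd (T.se (T.sc (T.lf 35186 118718463) (T.sb (T.lf 34601 1099905892351) T.out)) (T.sc (T.lf 34102 68386815) (T.sb (T.sa T.out (T.lf 32847 1081343)) T.out))) (T.se (T.sc (T.lf 33544 18055167) (T.sb (T.lf 33103 1099905892351) T.out)) (T.sc (T.lf 32562 394264575) (T.sb (T.sa T.out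 (T.lf 31293 68386815)) T.out)))) (T.sd (T.se (T.lf 33132 118685695) (T.lf 31592 68308991)) (T.se (T.lf 31230 125304831) (T.lf 30191 101941247)))) (T.sa (T.sd (T.se (T.sb (T.sc (T.lf 33482 9088014290518015) T.out) T.out) (T.sb (T.sc (T.sa T.out (T.lf 31808 1212415)) T.out) T.out)) (T.se (T.sb (T.sa T.out (T.lf 31152 119537663)) T.out) (T.sb (T.sc (T.sa T.out (T.lf 30650 85164031)) T.out) T.out))) (T.sd (T.se (T.sb (T.lf 31785 1077247) (T.lf 30482 68317183)) (T.sb (T.lf 30148 68321279) (T.lf 29158 68321279))) (T.se (T.sb (T.lf 30216 118685695) (T.lf 29179 118685695)) (T.sb (T.lf 29215 1099914280959) (T.lf 28531 119013375))))))) (T.sb (T.sc (T.sa (T.sd (T.sb (T.sc (T.se (T.lf 36114 1650196479999) (T.lf 34805 1277951)) (T.se (T.sa (T.lf 35377 68911103) (T.lf 33971 1081343)) (T.lf 33881 1650192023551))) (T.sc (T.lf 34086 656113663) (T.se (T.sa (T.lf 33829 119242751) (T.lf 32841 1204223)) (T.lf 32514 387678207)))) (T.sb (T.sc (T.se (T.sa (T.lf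 34771 102498303) (T.lf 33492 1277951)) (T.lf 33460 660340735)) (T.se (T.sa (T.lf 33479 939524095) (T.lf 32476 68911103)) (T.sa (T.lf 32544 924581887) (T.lf 31583 68845567)))) (T.sc (T.se (T.sa (T.lf 33454 68911103) (T.lf 32348 1269759)) (T.lf 31945 3780206600761901055)) (T.se (T.sa (T.lf 32217 72019085361151) (T.lf 31593 68911103)) (T.sa (T.lf 31440 924581887) (T.lf 30539 68386815)))))) (T.sd (T.sb (T.lf 33112 102498303) (T.lf 32460 68317183)) (T.sb (T.sc (T.lf 31928 102498303) (T.lf 30909 13609269597306879)) (T.lf 30166 106692607)))) (T.sa (T.sd (T.sb (T.se (T.sc (T.sa T.out (T.lf 33225 1077247)) T.out) (T.sc (T.sa T.out (T.lf 31847 155647)) T.out)) (T.se (T.sc (T.sa T.out (T.lf 31804 1212415)) T.out) (T.sc (T.sa T.out (T.lf 30738 68313087)) T.out))) (T.sb (T.se (T.sa T.out (T.lf 31139 1100585369599)) (T.sa T.out (T.sc (T.lf 30452 68911103) T.out))) (T.se (T.sa T.out (T.sc (T.lf 30954 119275519) T.out)) (T.sc (T.sa T.out (T.lf 29449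 119275519)) T.out)))) (T.sd (T.sb (T.se (T.lf 32108 1077247) (T.lf 30172 1212415)) (T.se (T.lf 30237 68321279) (T.lf 29155 68321279))) (T.sb (T.se (T.lf 30205 119275519) (T.lf 29164 383516671)) (T.se (T.lf 29210 9105608766652415) (T.lf 28036 1100583272447)))))) (T.sc (T.sa (T.sd (T.sc (T.se (T.lf 33109 72018951143423) (T.sb (T.lf 32478 660307967) T.out)) (T.se (T.lf 31949 74106830322990579711) (T.sb (T.lf 31346 931135487) T.out))) (T.sc (T.se (T.sa T.out (T.lf 31075 101941247)) (T.sa T.out (T.lf 30184 123699199))) (T.se (T.sb (T.sa T.out (T.lf 30311 68386815)) T.out) (T.sb (T.sa T.out (T.lf 29442 101941247)) T.out)))) (T.sd (T.lf 30050 101875711) (T.sc (T.lf 29850 101941247) (T.lf 28411 101875711)))) (T.sa (T.sd (T.se (T.sb (T.sc (T.sa T.out (T.lf 30679 68313087)) T.out) T.out) (T.sb (T.sc (T.sa T.out (T.lf 29949 1204223)) T.out) T.out)) (T.se (T.sb (T.sc (T.sa T.out (T.lf 29401 119275519)) T.out) T.out) (T.sb (T.sc (T.sa T.out (T.lf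 28566 102465535)) T.out) T.out))) (T.sd (T.se (T.lf 28758 71468647972863) (T.lf 28136 68321279)) (T.se (T.sb (T.lf 27993 71469329547263) (T.lf 27223 118751231)) (T.lf 26926 71468792676351))))))) 512 1024 512 1024 512 1024 0 256 512 1024 = true := by
  decide +kernel

end Pool.Agent.Lib.MP_3a1514_mp
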