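import Pool.Agent.Lib.MP_3a1514_mp.Local
import Pool.Agent.Lib.MP_3a1514_mp.Data

/-! Soundness of the checker. -/

open Real

namespace Pool.Agent.Lib.MP_3a1514_mp

lemma force_eq {α : Type} (n : Nat) (k : Nat → α) : force n k = k n := by
  cases n <;> rfl

/-! ### the table of tangent lines -/

def Valid (a b : ℕ) : Prop := ∀ q : ℝ, 0 < q → (a : ℝ) - b * q ≤ 2 ^ 40 * phi (7 / 10) q

noncomputable def tabLoop (ta tb : Nat) (fuel : Nat) : Nat → Nat → Bool :=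
  Nat.rec (motive := fun _ => Nat → Nat → Bool) (fun _ _ => true)
    (fun _ ih j E => force (2 * j + 1) fun J =>
      ((Nat.beq (look ta j) 0).or
        ((Nat.ble (look ta j * (25600 * J ^ 2)) (E * (49 * J ^ 2 + 26880 * J + 4915200))).and
          (Nat.ble (E * (6272 * J ^ 2 + 2293760 * J + 419430400))
            (look tb j * (25600 * J ^ 3))))).and
      (force (E * 278413119042441 / 281474976710656) fun E' => force (j + 1) fun j' => ih j' E'))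
    fuel

lemma valid_of_zero (b : ℕ) : Valid 0 b := fun q hq => by
  have := phi_nonneg (τ := 7 / 10) (by norm_num) hq.le
  have : (0 : ℝ) ≤ b * q := by positivity
  push_cast; nlinarith

lemma valid_of_le {a b J E : ℕ} (hJ : 0 < J) (hE : (E : ℝ) ≤ 2 ^ 48 * exp (-(7 / 10 * (J / 128))))
    (h1 : a * (25600 * J ^ 2) ≤ E * (49 * J ^ 2 + 26880 * J + 4915200))
    (h2 : E * (6272 * J ^ 2 + 2293760 * J + 419430400) ≤ b * (25600 * J ^ 3)) : Valid a b := by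
  intro q hq
  have hJ' : (0 : ℝ) < J := by exact_mod_cast hJ
  have h1' : (a : ℝ) * (25600 * J ^ 2) ≤ E * (49 * J ^ 2 + 26880 * J + 4915200) := by
    exact_mod_cast h1
  have h2' : (E : ℝ) * (6272 * J ^ 2 + 2293760 * J + 419430400) ≤ b * (25600 * J ^ 3) := by
    exact_mod_cast h2
  have ht := phi_tangent (τ := 7 / 10) (q0 := J / 128) (by norm_num) (by positivity) hq
  set al := (7 / 10 : ℝ) ^ 2 + 3 * (7 / 10) / (J / 128) + 3 / (J / 128) ^ 2 with hal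
  set be := (7 / 10 : ℝ) ^ 2 / (J / 128) + 2 * (7 / 10) / (J / 128) ^ 2 + 2 / (J / 128) ^ 3 with hbe
  have e1 : (a : ℝ) ≤ E / 256 * al := by
    have : E / 256 * al = E * (49 * J ^ 2 + 26880 * J + 4915200) / (25600 * J ^ 2) := by
      rw [hal]; field_simp; ring
    rw [this, le_div_iff₀ (by positivity)]; exact h1'
  have e2 : E / 256 * be ≤ (b : ℝ) := by
    have : E / 256 * be = E * (6272 * J ^ 2 + 2293760 * J + 419430400) / (25600 * J ^ 3) := by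
      rw [hbe]; field_simp; ring
    rw [this, div_le_iff₀ (by positivity)]; exact h2'
  have e3 : (a : ℝ) - b * q ≤ E / 256 * (al - be * q) := by
    nlinarith [mul_le_mul_of_nonneg_right e2 hq.le]
  refine e3.trans ?_
  have hphi := phi_nonneg (τ := 7 / 10) (by norm_num) hq.le
  rcases le_total 0 (al - be * q) with hh | hh
  · have : (E : ℝ) / 256 ≤ 2 ^ 40 * exp (-(7 / 10 * (J / 128))) := by linarith
    nlinarith [mul_le_mul_of_nonneg_right this hh]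
  · have : (0 : ℝ) ≤ E / 256 := by positivity
    nlinarith [mul_nonneg this (neg_nonneg.2 hh)]

lemma step_exp : (278413119042441 : ℝ) ≤ 2 ^ 48 * exp (-(7 / 640)) := by
  have := exp_neg_ge_cubic (7 / 640)
  norm_num at this ⊢
  linarith

lemma start_exp : (279939861826938 : ℝ) ≤ 2 ^ 48 * exp (-(7 / 1280)) := by
  have := exp_neg_ge_cubic (7 / 1280)
  norm_num at this ⊢
  linarith

lemma tabLoop_sound (ta tb : ℕ) (fuel : ℕ) : ∀ j E : ℕ, tabLoop ta tb fuel j E = true →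
    (E : ℝ) ≤ 2 ^ 48 * exp (-(7 / 10 * (((2 * j + 1 : ℕ) : ℝ) / 128))) →
    ∀ i, j ≤ i → i < j + fuel → Valid (look ta i) (look tb i) := by
  induction fuel with
  | zero => intro j E _ _ i h1 h2; omega
  | succ n ih =>
    intro j E h hE i h1 h2
    simp only [tabLoop, force_eq, Bool.and_eq_true, Bool.or_eq_true, Nat.beq_eq, Nat.ble_eq] at h
    obtain ⟨h3, h4⟩ := h
    rcases h1.eq_or_lt with rfl | h1
    · rcases h3 with h3 | ⟨h3, h3'⟩
      · rw [h3]; exact valid_of_zero _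
      · exact valid_of_le (by omega) hE h3 h3'
    · refine ih (j + 1) _ (by simpa only [tabLoop, force_eq] using h4) ?_ i h1 (by omega)
      have e : exp (-(7 / 10 * (((2 * (j + 1) + 1 : ℕ) : ℝ) / 128)))
          = exp (-(7 / 10 * (((2 * j + 1 : ℕ) : ℝ) / 128))) * exp (-(7 / 640)) := by
        rw [← exp_add]; congr 1; push_cast; ring
      rw [e]
      refine Nat.cast_div_le.trans ?_
      rw [div_le_iff₀ (by norm_num)]
      have := mul_le_mul hE step_exp (by norm_num) (by positivity)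
      push_cast at this ⊢
      linarith

lemma tab_ok : tabLoop tA tB 900 0 279939861826938 = true := by decide +kernel

lemma tA_lt : Nat.blt tA (2 ^ 43200) = true := by decide +kernel

set_option exponentiation.threshold 50000 in
lemma valid_look (i : ℕ) : Valid (look tA i) (look tB i) := by
  by_cases hi : i < 900
  · refine tabLoop_sound tA tB 900 0 _ tab_ok ?_ i (by omega) (by omega)
    have := start_exp
    norm_num at this ⊢
    exact this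
  · have h := tA_lt
    rw [Nat.blt_eq] at h
    have : look tA i = 0 := by
      have h2 : 2 ^ 43200 ≤ 2 ^ (48 * i) := Nat.pow_le_pow_right (by norm_num) (by omega)
      have h3 : tA >>> (48 * i) = 0 := by
        rw [Nat.shiftRight_eq_div_pow]; exact Nat.div_eq_of_lt (h.trans_le h2)
      change (tA >>> (48 * i)) % 281474976710656 = 0
      rw [h3]
    rw [this]; exact valid_of_zero _

/-! ### the sum over the chosen vectors -/

def ofList : List Z3 → VL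
  | [] => VL.nil
  | n :: L => VL.cons (n.1.natAbs ^ 2) (n.2.1.natAbs ^ 2) (n.2.2.natAbs ^ 2)
      ((n.1 - n.2.1).natAbs ^ 2) ((n.1 - n.2.2).natAbs ^ 2) ((n.2.1 - n.2.2).natAbs ^ 2) (ofList L)

lemma vlist_eq : vlist = ofList vecs := by rfl

def ell (p : SP) (P1 P2 P3 P4 P5 P6 : ℝ) : ℝ :=
  P1 * p.p01 + P2 * p.p02 + P3 * p.p03 + P4 * p.p12 + P5 * p.p13 + P6 * p.p23

lemma go_sound {p : SP} (h : p.PD) (fin : Nat → Nat → Nat → Nat → Nat → Nat → Nat → Bool)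
    (hfin : ∀ A P1 P2 P3 P4 P5 P6 : ℕ, fin A P1 P2 P3 P4 P5 P6 = true →
      (F0N : ℝ) ≤ A - ell p P1 P2 P3 P4 P5 P6) (w1 w2 w3 w4 w5 w6 : ℕ) (L : List Z3)
    (hL : ∀ n ∈ L, n ≠ 0) : ∀ m A P1 P2 P3 P4 P5 P6 : ℕ,
    go tA tB fin w1 w2 w3 w4 w5 w6 (ofList L) m A P1 P2 P3 P4 P5 P6 = true →
    (F0N : ℝ) ≤ A - ell p P1 P2 P3 P4 P5 P6
      + 2 ^ 40 * (L.map fun n => phi (7 / 10) (p.Q n)).sum := by
  induction L with
  | nil =>
    intro m A P1 P2 P3 P4 P5 P6 hh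
    simpa using hfin _ _ _ _ _ _ _ hh
  | cons n L ih =>
    intro m A P1 P2 P3 P4 P5 P6 hh
    have ih' := ih fun x hx => hL x (List.mem_cons_of_mem _ hx)
    have hn := h.Q_pos (hL n List.mem_cons_self)
    have p0 := phi_nonneg (τ := 7 / 10) (by norm_num) hn.le
    have p1 : 0 ≤ (L.map fun n => phi (7 / 10) (p.Q n)).sum :=
      List.sum_nonneg fun x hx => by
        obtain ⟨y, _, rfl⟩ := List.mem_map.1 hx
        exact phi_nonneg (by norm_num) (h.Q_nonneg y)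
    simp only [List.map_cons, List.sum_cons]
    simp only [go, ofList, force_eq] at hh ih'
    cases h1 : Nat.beq m 0
    · rw [h1, cond_false] at hh
      cases h2 : Nat.beq (Nat.land m 1) 0
      · rw [h2, cond_false] at hh
        have h3 := ih' _ _ _ _ _ _ _ _ hh
        generalize Nat.shiftRight _ 20 = j at h3
        have h4 := valid_look j _ hn
        simp only [Nat.add_eq, Nat.mul_eq, ell, SP.Q, SP.q] at h3 h4 ⊢
        push_cast [Nat.cast_natAbs, sq_abs] at h3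
        linarith
      · rw [h2, cond_true] at hh
        have h3 := ih' _ _ _ _ _ _ _ _ hh
        linarith
    · rw [h1, cond_true] at hh
      have := hfin _ _ _ _ _ _ _ hh
      linarith

lemma Q_neg (p : SP) (n : Z3) : p.Q (-n) = p.Q n := by
  simp only [SP.Q, SP.q, Prod.fst_neg, Prod.snd_neg]; push_cast; ring

lemma two_list_le {p : SP} (h : p.PD) (L : List Z3) (hL : (L ++ L.map fun n => -n).Nodup) :
    2 * (L.map fun n => phi (7 / 10) (p.Q n)).sum ≤ ∑' n, phi (7 / 10) (p.Q n) := by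
  have := (h.summable_phi (τ := 7 / 10) (by norm_num)).sum_le_tsum
    (L ++ L.map fun n => -n).toFinset fun n _ => phi_nonneg (by norm_num) (h.Q_nonneg n)
  rw [List.sum_toFinset _ hL, List.map_append, List.sum_append, List.map_map] at this
  have e : ((fun n => phi (7 / 10) (p.Q n)) ∘ fun n => -n) = fun n => phi (7 / 10) (p.Q n) := by
    funext n; simp [Q_neg]
  rw [e] at this
  linarith

lemma vecs_nodup : (vecs ++ vecs.map fun n => -n).Nodup := by decide +kernel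

lemma vecs_ne : ∀ n ∈ vecs, n ≠ 0 := by decide +kernel

/-! ### vertices -/

lemma interp {F : ℝ → ℝ} {lo hi s : ℝ} (u v w z : ℝ) (hF : ∀ x, F x = u + v * x - 4 * (w + z * x) ^ 3)
    (hw : 0 ≤ w) (hz : 0 ≤ z) (hlo : 0 ≤ lo) (h1 : lo ≤ s) (h2 : s ≤ hi) (f1 : 0 ≤ F lo)
    (f2 : 0 ≤ F hi) : 0 ≤ F s := by
  rcases (h1.trans h2).eq_or_lt with e | hlt
  · have : s = lo := by linarith
    rwa [this]
  have e : (hi - lo) * F s = (hi - s) * F lo + (s - lo) * F hi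
      + 4 * z ^ 2 * (hi - s) * (s - lo) * (hi - lo) * (3 * w + z * (lo + hi + s)) := by
    rw [hF, hF, hF]; ring
  have a1 : 0 ≤ hi - s := by linarith
  have a2 : 0 ≤ s - lo := by linarith
  have a3 : 0 < hi - lo := by linarith
  have a4 : 0 ≤ lo + hi + s := by linarith
  have : 0 ≤ (hi - lo) * F s := by rw [e]; positivity
  exact nonneg_of_mul_nonneg_right this a3

def HH (C3 P1 P2 P3 P4 P5 P6 a b c d e : ℝ) : ℝ :=
  C3 * ((1024 * (a + c) + a * c) * (b + d) + b * d * (a + c)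
      + e * (1024 * (a + c + (b + d)) + (a + b) * (c + d)))
    - 4 * (P1 * 1024 + P2 * a + P3 * b + P4 * c + P5 * d + P6 * e) ^ 3

lemma vertB_sound {C3 P1 P2 P3 P4 P5 P6 a b c0 c1 d0 d1 e0 e1 : ℕ}
    (h : vertB C3 P1 P2 P3 P4 P5 P6 a b c0 c1 d0 d1 e0 e1 = true) {c d e : ℝ}
    (hc0 : c0 ≤ c) (hc1 : c ≤ c1) (hd0 : d0 ≤ d) (hd1 : d ≤ d1) (he0 : e0 ≤ e) (he1 : e ≤ e1) :
    0 ≤ HH C3 P1 P2 P3 P4 P5 P6 a b c d e := by
  have base : ∀ c d e : ℕ, 4 * ((P1 * 1024 + (P2 * a + P3 * b) + P4 * c + P5 * d + P6 * e)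
      * ((P1 * 1024 + (P2 * a + P3 * b) + P4 * c + P5 * d + P6 * e)
      * (P1 * 1024 + (P2 * a + P3 * b) + P4 * c + P5 * d + P6 * e)))
      ≤ C3 * ((1024 * (a + c) + a * c) * (b + d) + b * d * (a + c)
        + e * (1024 * (a + c + (b + d)) + (a + b) * (c + d))) →
      0 ≤ HH C3 P1 P2 P3 P4 P5 P6 a b c d e := by
    intro c d e hh
    have := (Nat.cast_le (α := ℝ)).2 hh
    push_cast at this
    unfold HH
    linarith
  simp only [vertB, vertC, vert, vert2, cube, force_eq, Bool.and_eq_true, Nat.ble_eq, Nat.add_eq,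
    Nat.mul_eq] at h
  obtain ⟨⟨⟨h1, h2⟩, ⟨h3, h4⟩⟩, ⟨⟨h5, h6⟩, ⟨h7, h8⟩⟩⟩ := h
  have he : 0 ≤ e := le_trans (Nat.cast_nonneg _) he0
  have hd : 0 ≤ d := le_trans (Nat.cast_nonneg _) hd0
  have stepE : ∀ c d : ℕ, 0 ≤ HH C3 P1 P2 P3 P4 P5 P6 a b c d e0 →
      0 ≤ HH C3 P1 P2 P3 P4 P5 P6 a b c d e1 → 0 ≤ HH C3 P1 P2 P3 P4 P5 P6 a b c d e :=
    fun c d f1 f2 => interp (F := fun x => HH C3 P1 P2 P3 P4 P5 P6 a b c d x)
      (C3 * ((1024 * (a + c) + a * c) * (b + d) + b * d * (a + c)))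
      (C3 * (1024 * (a + c + (b + d)) + (a + b) * (c + d)))
      (P1 * 1024 + P2 * a + P3 * b + P4 * c + P5 * d) P6 (fun x => by unfold HH; ring)
      (by positivity) (by positivity) (by positivity) he0 he1 f1 f2
  have stepD : ∀ c : ℕ, 0 ≤ HH C3 P1 P2 P3 P4 P5 P6 a b c d0 e →
      0 ≤ HH C3 P1 P2 P3 P4 P5 P6 a b c d1 e → 0 ≤ HH C3 P1 P2 P3 P4 P5 P6 a b c d e :=
    fun c f1 f2 => interp (F := fun x => HH C3 P1 P2 P3 P4 P5 P6 a b c x e)
      (C3 * ((1024 * (a + c) + a * c) * b + e * (1024 * (a + c + b) + (a + b) * c)))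
      (C3 * (1024 * (a + c) + a * c + b * (a + c) + e * (1024 + (a + b))))
      (P1 * 1024 + P2 * a + P3 * b + P4 * c + P6 * e) P5 (fun x => by unfold HH; ring)
      (by positivity) (by positivity) (by positivity) hd0 hd1 f1 f2
  exact interp (F := fun x => HH C3 P1 P2 P3 P4 P5 P6 a b x d e)
      (C3 * (1024 * a * (b + d) + b * d * a + e * (1024 * (a + (b + d)) + (a + b) * d)))
      (C3 * ((1024 + a) * (b + d) + b * d + e * (1024 + (a + b))))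
      (P1 * 1024 + P2 * a + P3 * b + P5 * d + P6 * e) P4 (fun x => by unfold HH; ring)
      (by positivity) (by positivity) (by positivity) hc0 hc1
      (stepD c0 (stepE c0 d0 (base _ _ _ h1) (base _ _ _ h2))
        (stepE c0 d1 (base _ _ _ h3) (base _ _ _ h4)))
      (stepD c1 (stepE c1 d0 (base _ _ _ h5) (base _ _ _ h6))
        (stepE c1 d1 (base _ _ _ h7) (base _ _ _ h8)))

def sp (l a b c d e : ℝ) : SP := ⟨l * 1024, l * a, l * b, l * c, l * d, l * e⟩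

lemma final_HH {C3 a0 a1 b0 b1 c0 c1 d0 d1 e0 e1 P1 P2 P3 P4 P5 P6 : ℕ}
    (h1 : vertB C3 P1 P2 P3 P4 P5 P6 a0 b0 c0 c1 d0 d1 e0 e1 = true)
    (h2 : vertB C3 P1 P2 P3 P4 P5 P6 a0 b1 c0 c1 d0 d1 e0 e1 = true)
    (h3 : vertB C3 P1 P2 P3 P4 P5 P6 a1 b0 c0 c1 d0 d1 e0 e1 = true)
    (h4 : vertB C3 P1 P2 P3 P4 P5 P6 a1 b1 c0 c1 d0 d1 e0 e1 = true) {a b c d e : ℝ}
    (ha0 : a0 ≤ a) (ha1 : a ≤ a1) (hb0 : b0 ≤ b) (hb1 : b ≤ b1)
    (hc0 : c0 ≤ c) (hc1 : c ≤ c1) (hd0 : d0 ≤ d) (hd1 : d ≤ d1) (he0 : e0 ≤ e) (he1 : e ≤ e1) :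
    0 ≤ HH C3 P1 P2 P3 P4 P5 P6 a b c d e := by
  have ha : 0 ≤ a := le_trans (Nat.cast_nonneg _) ha0
  have hb : 0 ≤ b := le_trans (Nat.cast_nonneg _) hb0
  have hc : 0 ≤ c := le_trans (Nat.cast_nonneg _) hc0
  have hd : 0 ≤ d := le_trans (Nat.cast_nonneg _) hd0
  have he : 0 ≤ e := le_trans (Nat.cast_nonneg _) he0
  have stepB : ∀ a : ℕ, 0 ≤ HH C3 P1 P2 P3 P4 P5 P6 a b0 c d e →
      0 ≤ HH C3 P1 P2 P3 P4 P5 P6 a b1 c d e → 0 ≤ HH C3 P1 P2 P3 P4 P5 P6 a b c d e :=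
    fun a f1 f2 => interp (F := fun x => HH C3 P1 P2 P3 P4 P5 P6 a x c d e)
      (C3 * ((1024 * (a + c) + a * c) * d + e * (1024 * (a + c + d) + a * (c + d))))
      (C3 * (1024 * (a + c) + a * c + d * (a + c) + e * (1024 + (c + d))))
      (P1 * 1024 + P2 * a + P4 * c + P5 * d + P6 * e) P3 (fun x => by unfold HH; ring)
      (by positivity) (by positivity) (by positivity) hb0 hb1 f1 f2
  exact interp (F := fun x => HH C3 P1 P2 P3 P4 P5 P6 x b c d e)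
      (C3 * (1024 * c * (b + d) + b * d * c + e * (1024 * (c + (b + d)) + b * (c + d))))
      (C3 * ((1024 + c) * (b + d) + b * d + e * (1024 + (c + d))))
      (P1 * 1024 + P3 * b + P4 * c + P5 * d + P6 * e) P2 (fun x => by unfold HH; ring)
      (by positivity) (by positivity) (by positivity) ha0 ha1
      (stepB a0 (vertB_sound h1 hc0 hc1 hd0 hd1 he0 he1) (vertB_sound h2 hc0 hc1 hd0 hd1 he0 he1))
      (stepB a1 (vertB_sound h3 hc0 hc1 hd0 hd1 he0 he1) (vertB_sound h4 hc0 hc1 hd0 hd1 he0 he1))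

lemma final_sound {a0 a1 b0 b1 c0 c1 d0 d1 e0 e1 A P1 P2 P3 P4 P5 P6 : ℕ}
    (h : final a0 a1 b0 b1 c0 c1 d0 d1 e0 e1 A P1 P2 P3 P4 P5 P6 = true) {l a b c d e : ℝ}
    (hl : 0 < l) (hk : (sp l a b c d e).kap = 4)
    (ha0 : a0 ≤ a) (ha1 : a ≤ a1) (hb0 : b0 ≤ b) (hb1 : b ≤ b1)
    (hc0 : c0 ≤ c) (hc1 : c ≤ c1) (hd0 : d0 ≤ d) (hd1 : d ≤ d1) (he0 : e0 ≤ e) (he1 : e ≤ e1) :
    (F0N : ℝ) ≤ A - ell (sp l a b c d e) P1 P2 P3 P4 P5 P6 := by
  simp only [final, force_eq, Bool.and_eq_true, Nat.ble_eq] at h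
  obtain ⟨h0, ⟨h1, h2⟩, ⟨h3, h4⟩⟩ := h
  set C3 := cube (Nat.sub A F0N) with hC3
  have key := final_HH h1 h2 h3 h4 ha0 ha1 hb0 hb1 hc0 hc1 hd0 hd1 he0 he1
  have hC : (C3 : ℝ) = ((A : ℝ) - F0N) ^ 3 := by
    rw [hC3, cube]
    simp only [Nat.mul_eq, Nat.sub_eq]
    push_cast [Nat.cast_sub h0]
    ring
  have hA : (0 : ℝ) ≤ A - F0N := by
    have : (F0N : ℝ) ≤ A := by exact_mod_cast h0
    linarith
  have h5 : ell (sp l a b c d e) P1 P2 P3 P4 P5 P6 ^ 3 ≤ ((A : ℝ) - F0N) ^ 3 := by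
    have h6 : 0 ≤ l ^ 3 * HH C3 P1 P2 P3 P4 P5 P6 a b c d e := mul_nonneg (pow_pos hl 3).le key
    have h7 : l ^ 3 * HH C3 P1 P2 P3 P4 P5 P6 a b c d e
        = C3 * (sp l a b c d e).kap - 4 * ell (sp l a b c d e) P1 P2 P3 P4 P5 P6 ^ 3 := by
      simp only [HH, SP.kap, sp, ell]; ring
    rw [h7, hk, hC] at h6
    linarith
  have := le_of_pow_le_pow_left₀ (by norm_num) hA h5
  linarith

/-! ### the tree -/

structure Dom (l a b c d e : ℝ) : Prop where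
  pos : 0 < l
  pd : (sp l a b c d e).PD
  kap : (sp l a b c d e).kap = 4
  ba : b ≤ a
  ca : c ≤ a
  da : d ≤ a
  a1 : a ≤ 1024
  e1 : e ≤ 1024

def Good (a0 a1 b0 b1 c0 c1 d0 d1 e0 e1 : ℕ) : Prop :=
  ∀ l a b c d e : ℝ, Dom l a b c d e → (a0 : ℝ) ≤ a → a ≤ a1 → (b0 : ℝ) ≤ b → b ≤ b1 →
    (c0 : ℝ) ≤ c → c ≤ c1 → (d0 : ℝ) ≤ d → d ≤ d1 → (e0 : ℝ) ≤ e → e ≤ e1 →
    fcc.Z ≤ (sp l a b c d e).Z

variable {a0 a1 b0 b1 c0 c1 d0 d1 e0 e1 : ℕ}

lemma good_sa (m : ℕ) (h1 : Good a0 m b0 b1 c0 c1 d0 d1 e0 e1)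
    (h2 : Good m a1 b0 b1 c0 c1 d0 d1 e0 e1) : Good a0 a1 b0 b1 c0 c1 d0 d1 e0 e1 :=
  fun l a b c d e D x0 x1 y0 y1 z0 z1 u0 u1 v0 v1 => (le_total a m).elim
    (fun h => h1 l a b c d e D x0 h y0 y1 z0 z1 u0 u1 v0 v1)
    (fun h => h2 l a b c d e D h x1 y0 y1 z0 z1 u0 u1 v0 v1)

lemma good_sb (m : ℕ) (h1 : Good a0 a1 b0 m c0 c1 d0 d1 e0 e1)
    (h2 : Good a0 a1 m b1 c0 c1 d0 d1 e0 e1) : Good a0 a1 b0 b1 c0 c1 d0 d1 e0 e1 :=
  fun l a b c d e D x0 x1 y0 y1 z0 z1 u0 u1 v0 v1 => (le_total b m).elim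
    (fun h => h1 l a b c d e D x0 x1 y0 h z0 z1 u0 u1 v0 v1)
    (fun h => h2 l a b c d e D x0 x1 h y1 z0 z1 u0 u1 v0 v1)

lemma good_sc (m : ℕ) (h1 : Good a0 a1 b0 b1 c0 m d0 d1 e0 e1)
    (h2 : Good a0 a1 b0 b1 m c1 d0 d1 e0 e1) : Good a0 a1 b0 b1 c0 c1 d0 d1 e0 e1 :=
  fun l a b c d e D x0 x1 y0 y1 z0 z1 u0 u1 v0 v1 => (le_total c m).elim
    (fun h => h1 l a b c d e D x0 x1 y0 y1 z0 h u0 u1 v0 v1)
    (fun h => h2 l a b c d e D x0 x1 y0 y1 h z1 u0 u1 v0 v1)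

lemma good_sd (m : ℕ) (h1 : Good a0 a1 b0 b1 c0 c1 d0 m e0 e1)
    (h2 : Good a0 a1 b0 b1 c0 c1 m d1 e0 e1) : Good a0 a1 b0 b1 c0 c1 d0 d1 e0 e1 :=
  fun l a b c d e D x0 x1 y0 y1 z0 z1 u0 u1 v0 v1 => (le_total d m).elim
    (fun h => h1 l a b c d e D x0 x1 y0 y1 z0 z1 u0 h v0 v1)
    (fun h => h2 l a b c d e D x0 x1 y0 y1 z0 z1 h u1 v0 v1)

lemma good_se (m : ℕ) (h1 : Good a0 a1 b0 b1 c0 c1 d0 d1 e0 m)
    (h2 : Good a0 a1 b0 b1 c0 c1 d0 d1 m e1) : Good a0 a1 b0 b1 c0 c1 d0 d1 e0 e1 :=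
  fun l a b c d e D x0 x1 y0 y1 z0 z1 u0 u1 v0 v1 => (le_total e m).elim
    (fun h => h1 l a b c d e D x0 x1 y0 y1 z0 z1 u0 u1 v0 h)
    (fun h => h2 l a b c d e D x0 x1 y0 y1 z0 z1 u0 u1 h v1)

lemma leaf_sound {g m : ℕ} (h : leaf tA tB vlist g m a0 a1 b0 b1 c0 c1 d0 d1 e0 e1 = true) :
    Good a0 a1 b0 b1 c0 c1 d0 d1 e0 e1 := by
  intro l a b c d e D x0 x1 y0 y1 z0 z1 u0 u1 v0 v1
  simp only [leaf, force_eq, vlist_eq] at h
  have h1 := go_sound D.pd _ (fun A P1 P2 P3 P4 P5 P6 hh =>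
    final_sound hh D.pos D.kap x0 x1 y0 y1 z0 z1 u0 u1 v0 v1) _ _ _ _ _ _ vecs vecs_ne
    _ _ _ _ _ _ _ _ h
  have h2 := two_list_le D.pd vecs vecs_nodup
  refine D.pd.global D.kap ?_
  simp only [ell, F0N] at h1
  norm_num at h1 ⊢
  linarith

lemma short_vec {p : SP} (h : p.PD) (hk : p.kap = 4) {n : Z3} (hn : n ≠ 0) (hn' : n ≠ -n)
    (hq : p.Q n ^ 3 ≤ 0.75) : fcc.Z ≤ p.Z := by
  have h0 := h.Q_pos hn
  have h1 : p.Q n ≤ 0.93 :=
    le_of_pow_le_pow_left₀ (n := 3) (by norm_num) (by norm_num) (hq.trans (by norm_num))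
  have h2 := two_list_le h [n] (by simpa using hn')
  have h3 := phi_tangent (τ := 7 / 10) (q0 := 0.9) (by norm_num) (by norm_num) h0
  have h4 := exp_neg_ge_cubic (7 / 10 * 0.9)
  refine h.global hk ?_
  simp only [List.map_cons, List.map_nil, List.sum_cons, List.sum_nil, add_zero] at h2
  have h5 : (0.5267 : ℝ) ≤ exp (-(7 / 10 * 0.9)) := le_trans (by norm_num) h4
  have h6 : (1.86 : ℝ) ≤ (7 / 10) ^ 2 + 3 * (7 / 10) / 0.9 + 3 / 0.9 ^ 2
      - ((7 / 10) ^ 2 / 0.9 + 2 * (7 / 10) / 0.9 ^ 2 + 2 / 0.9 ^ 3) * p.Q n := by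
    norm_num; linarith
  have h7 := mul_le_mul h5 h6 (by norm_num) (exp_pos _).le
  linarith

lemma corner_aux {P x y z : ℝ} (hP : 0 < P) (hx : 0 ≤ x) (hy : 0 ≤ y) (h1 : x ≤ z) (h2 : y ≤ z)
    (hm : x + y ≤ 3 / 32 * P) (hk : P * (x * y + z * (x + y)) ≤ 4) : (x + y) ^ 3 ≤ 0.75 := by
  have a1 : (x + y) ^ 2 ≤ 2 * (x * y + z * (x + y)) := by nlinarith [mul_nonneg hx hy]
  have a2 : P * (x + y) ^ 2 ≤ 8 := by nlinarith
  have a3 : (x + y) * (x + y) ^ 2 ≤ 3 / 32 * P * (x + y) ^ 2 := by gcongr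
  nlinarith

lemma corner {p : SP} (h : p.PD) (hk : p.kap = 4) (hP : 0 < p.p01) (l02 : 0 ≤ p.p02)
    (l03 : 0 ≤ p.p03) (l12 : 0 ≤ p.p12) (l13 : 0 ≤ p.p13) (l23 : 0 ≤ p.p23)
    (u02 : p.p02 ≤ p.p01 / 32) (u03 : p.p03 ≤ p.p01 / 32) (u12 : p.p12 ≤ p.p01 / 32)
    (u13 : p.p13 ≤ p.p01 / 32) (u23 : p.p23 ≤ p.p01 / 32) : fcc.Z ≤ p.Z := by
  set α := p.p02 + p.p12 with hα
  set β := p.p03 + p.p13 with hβ
  have hα0 : 0 ≤ α := by positivity
  have hβ0 : 0 ≤ β := by positivity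
  have hb : p.p01 * (α * β + p.p23 * (α + β)) ≤ 4 := by
    have e : p.kap = p.p01 * (α * β + p.p23 * (α + β)) + (p.p02 * p.p12 * β + p.p03 * p.p13 * α
        + p.p23 * ((p.p02 + p.p03) * (p.p12 + p.p13))) := by
      simp only [SP.kap, hα, hβ]; ring
    have : 0 ≤ p.p02 * p.p12 * β + p.p03 * p.p13 * α
        + p.p23 * ((p.p02 + p.p03) * (p.p12 + p.p13)) := by positivity
    linarith
  have q1 : p.Q (0, 1, 0) = α + p.p23 := by simp [SP.Q, SP.q, hα]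
  have q2 : p.Q (0, 0, 1) = β + p.p23 := by simp [SP.Q, SP.q, hβ]
  have q3 : p.Q (0, 1, 1) = α + β := by simp [SP.Q, SP.q, hα, hβ]; ring
  by_cases c1 : α ≤ p.p23 ∧ β ≤ p.p23
  · refine short_vec h hk (n := (0, 1, 1)) (by decide) (by decide) ?_
    rw [q3]
    exact corner_aux hP hα0 hβ0 c1.1 c1.2 (by linarith [c1.1, c1.2]) hb
  rcases le_total α β with c2 | c2
  · refine short_vec h hk (n := (0, 1, 0)) (by decide) (by decide) ?_
    rw [q1]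
    refine corner_aux (z := β) hP hα0 l23 c2 ?_ (by linarith) (by linarith)
    by_contra hh
    exact c1 ⟨by linarith, by linarith⟩
  · refine short_vec h hk (n := (0, 0, 1)) (by decide) (by decide) ?_
    rw [q2]
    refine corner_aux (z := α) hP hβ0 l23 c2 ?_ (by linarith) (by linarith)
    by_contra hh
    exact c1 ⟨by linarith, by linarith⟩

theorem chk_sound (t : T) : ∀ a0 a1 b0 b1 c0 c1 d0 d1 e0 e1 : ℕ,
    chk tA tB vlist t a0 a1 b0 b1 c0 c1 d0 d1 e0 e1 = true →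
    Good a0 a1 b0 b1 c0 c1 d0 d1 e0 e1 := by
  induction t with
  | lf g m => intro a0 a1 b0 b1 c0 c1 d0 d1 e0 e1 h; exact leaf_sound h
  | out =>
    intro a0 a1 b0 b1 c0 c1 d0 d1 e0 e1 h l a b c d e D x0 x1 y0 y1 z0 z1 u0 u1 v0 v1
    simp only [chk, Bool.or_eq_true, Nat.blt_eq] at h
    exfalso
    rcases h with h | h | h
    · have : (a1 : ℝ) < b0 := by exact_mod_cast h
      linarith [D.ba]
    · have : (a1 : ℝ) < c0 := by exact_mod_cast h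
      linarith [D.ca]
    · have : (a1 : ℝ) < d0 := by exact_mod_cast h
      linarith [D.da]
  | loc =>
    intro a0 a1 b0 b1 c0 c1 d0 d1 e0 e1 h l a b c d e D x0 x1 y0 y1 z0 z1 u0 u1 v0 v1
    simp only [chk, Bool.and_eq_true, Nat.ble_eq] at h
    obtain ⟨h1, h2, h3, h4, h5⟩ := h
    have k1 : (896 : ℝ) ≤ a := le_trans (by exact_mod_cast h1) x0
    have k2 : b ≤ 128 := le_trans y1 (by exact_mod_cast h2)
    have k3 : c ≤ 128 := le_trans z1 (by exact_mod_cast h3)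
    have k4 : (896 : ℝ) ≤ d := le_trans (by exact_mod_cast h4) u0
    have k5 : (896 : ℝ) ≤ e := le_trans (by exact_mod_cast h5) v0
    have k6 : 0 ≤ b := le_trans (Nat.cast_nonneg _) y0
    have k7 : 0 ≤ c := le_trans (Nat.cast_nonneg _) z0
    have k8 := D.da.trans D.a1
    have hl := D.pos.le
    have m := fun {x y : ℝ} (hxy : x ≤ y) => mul_le_mul_of_nonneg_left hxy hl
    refine D.pd.near D.kap ?_ ?_ ?_ ?_ ?_ ?_ ?_ ?_ ?_ ?_ <;> simp only [sp] <;>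
      linarith [m k1, m k2, m k3, m k4, m k5, m k6, m k7, m k8, m D.a1, m D.e1]
  | cor =>
    intro a0 a1 b0 b1 c0 c1 d0 d1 e0 e1 h l a b c d e D x0 x1 y0 y1 z0 z1 u0 u1 v0 v1
    simp only [chk, Bool.and_eq_true, Nat.ble_eq] at h
    obtain ⟨h1, h2, h3, h4, h5⟩ := h
    have k1 : a ≤ 32 := le_trans x1 (by exact_mod_cast h1)
    have k2 : b ≤ 32 := le_trans y1 (by exact_mod_cast h2)
    have k3 : c ≤ 32 := le_trans z1 (by exact_mod_cast h3)
    have k4 : d ≤ 32 := le_trans u1 (by exact_mod_cast h4)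
    have k5 : e ≤ 32 := le_trans v1 (by exact_mod_cast h5)
    have j1 : 0 ≤ a := le_trans (Nat.cast_nonneg _) x0
    have j2 : 0 ≤ b := le_trans (Nat.cast_nonneg _) y0
    have j3 : 0 ≤ c := le_trans (Nat.cast_nonneg _) z0
    have j4 : 0 ≤ d := le_trans (Nat.cast_nonneg _) u0
    have j5 : 0 ≤ e := le_trans (Nat.cast_nonneg _) v0
    have hl := D.pos.le
    have hl' := D.pos
    have m := fun {x y : ℝ} (hxy : x ≤ y) => mul_le_mul_of_nonneg_left hxy hl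
    refine corner D.pd D.kap ?_ ?_ ?_ ?_ ?_ ?_ ?_ ?_ ?_ ?_ ?_ <;> simp only [sp] <;>
      linarith [m k1, m k2, m k3, m k4, m k5, m j1, m j2, m j3, m j4, m j5]
  | sa l r ihl ihr =>
    intro a0 a1 b0 b1 c0 c1 d0 d1 e0 e1 h
    simp only [chk, force_eq, Bool.and_eq_true] at h ihl ihr
    exact good_sa _ (ihl _ _ _ _ _ _ _ _ _ _ h.1) (ihr _ _ _ _ _ _ _ _ _ _ h.2)
  | sb l r ihl ihr =>
    intro a0 a1 b0 b1 c0 c1 d0 d1 e0 e1 h
    simp only [chk, force_eq, Bool.and_eq_true] at h ihl ihr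
    exact good_sb _ (ihl _ _ _ _ _ _ _ _ _ _ h.1) (ihr _ _ _ _ _ _ _ _ _ _ h.2)
  | sc l r ihl ihr =>
    intro a0 a1 b0 b1 c0 c1 d0 d1 e0 e1 h
    simp only [chk, force_eq, Bool.and_eq_true] at h ihl ihr
    exact good_sc _ (ihl _ _ _ _ _ _ _ _ _ _ h.1) (ihr _ _ _ _ _ _ _ _ _ _ h.2)
  | sd l r ihl ihr =>
    intro a0 a1 b0 b1 c0 c1 d0 d1 e0 e1 h
    simp only [chk, force_eq, Bool.and_eq_true] at h ihl ihr
    exact good_sd _ (ihl _ _ _ _ _ _ _ _ _ _ h.1) (ihr _ _ _ _ _ _ _ _ _ _ h.2)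
  | se l r ihl ihr =>
    intro a0 a1 b0 b1 c0 c1 d0 d1 e0 e1 h
    simp only [chk, force_eq, Bool.and_eq_true] at h ihl ihr
    exact good_se _ (ihl _ _ _ _ _ _ _ _ _ _ h.1) (ihr _ _ _ _ _ _ _ _ _ _ h.2)

end Pool.Agent.Lib.MP_3a1514_mp
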