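import Pool.Agent.Lib.MP_3a1514_mp.Cert00
import Pool.Agent.Lib.MP_3a1514_mp.Cert01
import Pool.Agent.Lib.MP_3a1514_mp.Cert02
import Pool.Agent.Lib.MP_3a1514_mp.Cert03
import Pool.Agent.Lib.MP_3a1514_mp.Cert04
import Pool.Agent.Lib.MP_3a1514_mp.Cert05
import Pool.Agent.Lib.MP_3a1514_mp.Cert06
import Pool.Agent.Lib.MP_3a1514_mp.Cert07
import Pool.Agent.Lib.MP_3a1514_mp.Cert08
import Pool.Agent.Lib.MP_3a1514_mp.Cert09
import Pool.Agent.Lib.MP_3a1514_mp.Cert10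
import Pool.Agent.Lib.MP_3a1514_mp.Cert11
import Pool.Agent.Lib.MP_3a1514_mp.Sound

set_option maxRecDepth 100000

namespace Pool.Agent.Lib.MP_3a1514_mp

theorem good_all : Good 0 1024 0 1024 0 1024 0 1024 0 1024 :=
  have g0 := chk_sound _ _ _ _ _ _ _ _ _ _ _ c0
  have g1 := chk_sound _ _ _ _ _ _ _ _ _ _ _ c1
  have g2 := chk_sound _ _ _ _ _ _ _ _ _ _ _ c2
  have g3 := chk_sound _ _ _ _ _ _ _ _ _ _ _ c3
  have g4 := chk_sound _ _ _ _ _ _ _ _ _ _ _ c4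
  have g5 := chk_sound _ _ _ _ _ _ _ _ _ _ _ c5
  have g6 := chk_sound _ _ _ _ _ _ _ _ _ _ _ c6
  have g7 := chk_sound _ _ _ _ _ _ _ _ _ _ _ c7
  have g8 := chk_sound _ _ _ _ _ _ _ _ _ _ _ c8
  have g9 := chk_sound _ _ _ _ _ _ _ _ _ _ _ c9
  have g10 := chk_sound _ _ _ _ _ _ _ _ _ _ _ c10
  have g11 := chk_sound _ _ _ _ _ _ _ _ _ _ _ c11
  have g12 := chk_sound _ _ _ _ _ _ _ _ _ _ _ c12
  have g13 := chk_sound _ _ _ _ _ _ _ _ _ _ _ c13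
  have g14 := chk_sound _ _ _ _ _ _ _ _ _ _ _ c14
  have g15 := chk_sound _ _ _ _ _ _ _ _ _ _ _ c15
  have g16 := chk_sound _ _ _ _ _ _ _ _ _ _ _ c16
  have g17 := chk_sound _ _ _ _ _ _ _ _ _ _ _ c17
  have g18 := chk_sound _ _ _ _ _ _ _ _ _ _ _ c18
  have g19 := chk_sound _ _ _ _ _ _ _ _ _ _ _ c19
  have g20 := chk_sound _ _ _ _ _ _ _ _ _ _ _ c20
  have g21 := chk_sound _ _ _ _ _ _ _ _ _ _ _ c21
  have g22 := chk_sound _ _ _ _ _ _ _ _ _ _ _ c22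
  have g23 := chk_sound _ _ _ _ _ _ _ _ _ _ _ c23
  have g24 := chk_sound _ _ _ _ _ _ _ _ _ _ _ c24
  have g25 := chk_sound _ _ _ _ _ _ _ _ _ _ _ c25
  have g26 := chk_sound _ _ _ _ _ _ _ _ _ _ _ c26
  have g27 := chk_sound _ _ _ _ _ _ _ _ _ _ _ c27
  have g28 := chk_sound _ _ _ _ _ _ _ _ _ _ _ c28
  have g29 := chk_sound _ _ _ _ _ _ _ _ _ _ _ c29
  have g30 := chk_sound _ _ _ _ _ _ _ _ _ _ _ c30
  have g31 := chk_sound _ _ _ _ _ _ _ _ _ _ _ c31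
  have g32 := chk_sound _ _ _ _ _ _ _ _ _ _ _ c32
  have g33 := chk_sound _ _ _ _ _ _ _ _ _ _ _ c33
  have g34 := chk_sound _ _ _ _ _ _ _ _ _ _ _ c34
  have g35 := chk_sound _ _ _ _ _ _ _ _ _ _ _ c35
  have g36 := chk_sound _ _ _ _ _ _ _ _ _ _ _ c36
  have g37 := chk_sound _ _ _ _ _ _ _ _ _ _ _ c37
  have g38 := chk_sound _ _ _ _ _ _ _ _ _ _ _ c38
  have g39 := chk_sound _ _ _ _ _ _ _ _ _ _ _ c39
  have g40 := chk_sound _ _ _ _ _ _ _ _ _ _ _ c40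
  have g41 := chk_sound _ _ _ _ _ _ _ _ _ _ _ c41
  have g42 := chk_sound _ _ _ _ _ _ _ _ _ _ _ c42
  have g43 := chk_sound _ _ _ _ _ _ _ _ _ _ _ c43
  have g44 := chk_sound _ _ _ _ _ _ _ _ _ _ _ c44
  have g45 := chk_sound _ _ _ _ _ _ _ _ _ _ _ c45
  have g46 := chk_sound _ _ _ _ _ _ _ _ _ _ _ c46
  have g47 := chk_sound _ _ _ _ _ _ _ _ _ _ _ c47
  have g48 := chk_sound _ _ _ _ _ _ _ _ _ _ _ c48
  have g49 := chk_sound _ _ _ _ _ _ _ _ _ _ _ c49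
  have g50 := chk_sound _ _ _ _ _ _ _ _ _ _ _ c50
  have g51 := chk_sound _ _ _ _ _ _ _ _ _ _ _ c51
  have g52 := chk_sound _ _ _ _ _ _ _ _ _ _ _ c52
  have g53 := chk_sound _ _ _ _ _ _ _ _ _ _ _ c53
  have g54 := chk_sound _ _ _ _ _ _ _ _ _ _ _ c54
  have g55 := chk_sound _ _ _ _ _ _ _ _ _ _ _ c55
  have g56 := chk_sound _ _ _ _ _ _ _ _ _ _ _ c56
  have g57 := chk_sound _ _ _ _ _ _ _ _ _ _ _ c57
  have g58 := chk_sound _ _ _ _ _ _ _ _ _ _ _ c58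
  have g59 := chk_sound _ _ _ _ _ _ _ _ _ _ _ c59
  have g60 := chk_sound _ _ _ _ _ _ _ _ _ _ _ c60
  have g61 := chk_sound _ _ _ _ _ _ _ _ _ _ _ c61
  have g62 := chk_sound _ _ _ _ _ _ _ _ _ _ _ c62
  have g63 := chk_sound _ _ _ _ _ _ _ _ _ _ _ c63
  have g64 := chk_sound _ _ _ _ _ _ _ _ _ _ _ c64
  have g65 := chk_sound _ _ _ _ _ _ _ _ _ _ _ c65
  have g66 := chk_sound _ _ _ _ _ _ _ _ _ _ _ c66
  have g67 := chk_sound _ _ _ _ _ _ _ _ _ _ _ c67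
  have g68 := chk_sound _ _ _ _ _ _ _ _ _ _ _ c68
  have g69 := chk_sound _ _ _ _ _ _ _ _ _ _ _ c69
  have g70 := chk_sound _ _ _ _ _ _ _ _ _ _ _ c70
  have g71 := chk_sound _ _ _ _ _ _ _ _ _ _ _ c71
  have g72 := chk_sound _ _ _ _ _ _ _ _ _ _ _ c72
  have g73 := chk_sound _ _ _ _ _ _ _ _ _ _ _ c73
  have g74 := chk_sound _ _ _ _ _ _ _ _ _ _ _ c74
  (good_se 512 (good_sa 512 (good_sc 512 (good_sb 512 (good_sd 512 (good_se 256 g0 g1) g2) g3) g4) (good_sd 512 (good_sb 512 (good_sc 512 (good_se 256 g5 g6) g7) (good_sc 512 g8 g9)) (good_sb 512 (good_sc 512 g10 g11) (good_sc 512 g12 g13)))) (good_sa 512 (good_sc 512 (good_sb 512 (good_sd 512 (good_sa 256 g14 g15) g16) g17) g18) (good_sd 512 (good_sb 512 (good_sc 512 (good_sd 256 g19 g20) (good_sb 256 g21 g22)) (good_sc 512 g23 (good_sd 256 g24 (good_se 768 g25 g26)))) (good_sb 512 (good_sc 512 (good_sb 256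 (good_sc 256 (good_se 768 g27 (good_sa 768 g28 (good_sd 768 g29 (good_sb 128 (good_sc 128 (good_se 896 g30 g31) (good_se 896 g32 (good_sd 896 g33 (good_sa 896 g34 g35)))) (good_sc 128 (good_se 896 g36 (good_sa 896 g37 (good_sd 896 g38 g39))) (good_se 896 g40 g41)))))) (good_se 768 g42 (good_sd 768 g43 (good_sa 768 g44 (good_sb 128 g45 g46))))) (good_sc 256 (good_se 768 g47 (good_sa 768 g48 (good_sd 768 g49 (good_sc 128 g50 g51)))) (good_se 768 g52 (good_sa 768 g53 (good_sd 768 g54 (good_sb 384 g55 g56)))))) (good_sb 256 g57 (good_se 768 g58 (good_sd 768 g59 g60)))) (good_sc 512 (good_sc 256 g61 (good_se 768 g62 (good_sa 768 g63 g64))) (good_se 768 (good_sa 768 g65 g66) (good_sa 768 (good_sc 768 g67 g68) (good_sd 768 (good_sb 768 g69 g70) (good_sb 768 (good_sc 768 g71 g72) (good_sc 768 g73 g74))))))))))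

end Pool.Agent.Lib.MP_3a1514_mp
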