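import Mathlib.Logic.Basic

/-! Boolean checker (natural-number arithmetic only) for the subdivision certificate. -/

namespace Pool.Agent.Lib.MP_3a1514_mp

/-- list of six-tuples of squared differences of lattice vectors -/
inductive VL : Type
  | nil : VL
  | cons (s1 s2 s3 s4 s5 s6 : Nat) (r : VL) : VL

/-- subdivision tree -/
inductive T : Type
  | lf (g m : Nat) : T
  | out : T
  | loc : T
  | cor : T
  | sa (l r : T) : T
  | sb (l r : T) : T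
  | sc (l r : T) : T
  | sd (l r : T) : T
  | se (l r : T) : T

def F0N : Nat := 1055970967317

def look (t j : Nat) : Nat :=
  Nat.mod (Nat.shiftRight t (Nat.mul 48 j)) 281474976710656

noncomputable def force {α : Type} (n : Nat) (k : Nat → α) : α :=
  Nat.rec (motive := fun _ => α) (k 0) (fun m _ => k (Nat.succ m)) n

def cube (x : Nat) : Nat := Nat.mul x (Nat.mul x x)

noncomputable def vert2 (C3 l0 P6 k0 k1 e : Nat) : Bool :=
  force (Nat.add l0 (Nat.mul P6 e)) fun l =>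
  Nat.ble (Nat.mul 4 (cube l)) (Nat.mul C3 (Nat.add k0 (Nat.mul e k1)))

noncomputable def vert (C3 l1 P5 P6 a b c d e0 e1 : Nat) : Bool :=
  force (Nat.add a c) fun u => force (Nat.add b d) fun v =>
  force (Nat.add (Nat.mul (Nat.add (Nat.mul 1024 u) (Nat.mul a c)) v)
    (Nat.mul (Nat.mul b d) u)) fun k0 =>
  force (Nat.add (Nat.mul 1024 (Nat.add u v)) (Nat.mul (Nat.add a b) (Nat.add c d))) fun k1 =>
  force (Nat.add l1 (Nat.mul P5 d)) fun l0 =>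
  (vert2 C3 l0 P6 k0 k1 e0).and (vert2 C3 l0 P6 k0 k1 e1)

noncomputable def vertC (C3 l2 P4 P5 P6 a b c d0 d1 e0 e1 : Nat) : Bool :=
  force (Nat.add l2 (Nat.mul P4 c)) fun l1 =>
  (vert C3 l1 P5 P6 a b c d0 e0 e1).and (vert C3 l1 P5 P6 a b c d1 e0 e1)

noncomputable def vertB (C3 P1 P2 P3 P4 P5 P6 a b c0 c1 d0 d1 e0 e1 : Nat) : Bool :=
  force (Nat.add (Nat.mul P1 1024) (Nat.add (Nat.mul P2 a) (Nat.mul P3 b))) fun l2 =>
  (vertC C3 l2 P4 P5 P6 a b c0 d0 d1 e0 e1).and (vertC C3 l2 P4 P5 P6 a b c1 d0 d1 e0 e1)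

noncomputable def final (a0 a1 b0 b1 c0 c1 d0 d1 e0 e1 A P1 P2 P3 P4 P5 P6 : Nat) : Bool :=
  (Nat.ble F0N A).and <|
  force (Nat.sub A F0N) fun C => force (cube C) fun C3 =>
  ((vertB C3 P1 P2 P3 P4 P5 P6 a0 b0 c0 c1 d0 d1 e0 e1).and
    (vertB C3 P1 P2 P3 P4 P5 P6 a0 b1 c0 c1 d0 d1 e0 e1)).and
  ((vertB C3 P1 P2 P3 P4 P5 P6 a1 b0 c0 c1 d0 d1 e0 e1).and
    (vertB C3 P1 P2 P3 P4 P5 P6 a1 b1 c0 c1 d0 d1 e0 e1))

noncomputable def go (ta tb : Nat) (fin : Nat → Nat → Nat → Nat → Nat → Nat → Nat → Bool)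
    (w1 w2 w3 w4 w5 w6 : Nat) (vl : VL) :
    Nat → Nat → Nat → Nat → Nat → Nat → Nat → Nat → Bool :=
  VL.rec (motive := fun _ => Nat → Nat → Nat → Nat → Nat → Nat → Nat → Nat → Bool)
    (fun _ A P1 P2 P3 P4 P5 P6 => fin A P1 P2 P3 P4 P5 P6)
    (fun s1 s2 s3 s4 s5 s6 _ ih m A P1 P2 P3 P4 P5 P6 =>
      cond (Nat.beq m 0) (fin A P1 P2 P3 P4 P5 P6)
        (force (Nat.shiftRight m 1) fun m' =>
          cond (Nat.beq (Nat.land m 1) 0) (ih m' A P1 P2 P3 P4 P5 P6)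
          (force (Nat.shiftRight (Nat.add (Nat.add (Nat.mul w1 s1) (Nat.mul w2 s2))
              (Nat.add (Nat.add (Nat.mul w3 s3) (Nat.mul w4 s4))
                (Nat.add (Nat.mul w5 s5) (Nat.mul w6 s6)))) 20) fun j =>
            force (look tb j) fun b =>
            force (Nat.add A (look ta j)) fun A' =>
            force (Nat.add P1 (Nat.mul b s1)) fun Q1 =>
            force (Nat.add P2 (Nat.mul b s2)) fun Q2 =>
            force (Nat.add P3 (Nat.mul b s3)) fun Q3 =>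
            force (Nat.add P4 (Nat.mul b s4)) fun Q4 =>
            force (Nat.add P5 (Nat.mul b s5)) fun Q5 =>
            force (Nat.add P6 (Nat.mul b s6)) fun Q6 =>
            ih m' A' Q1 Q2 Q3 Q4 Q5 Q6)))
    vl

noncomputable def leaf (ta tb : Nat) (vl : VL) (g m a0 a1 b0 b1 c0 c1 d0 d1 e0 e1 : Nat) : Bool :=
  force (Nat.mul 2048 g) fun w1 =>
  force (Nat.mul (Nat.add a0 a1) g) fun w2 =>
  force (Nat.mul (Nat.add b0 b1) g) fun w3 =>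
  force (Nat.mul (Nat.add c0 c1) g) fun w4 =>
  force (Nat.mul (Nat.add d0 d1) g) fun w5 =>
  force (Nat.mul (Nat.add e0 e1) g) fun w6 =>
  go ta tb (final a0 a1 b0 b1 c0 c1 d0 d1 e0 e1) w1 w2 w3 w4 w5 w6 vl m 0 0 0 0 0 0 0

def mid (x y : Nat) : Nat := Nat.shiftRight (Nat.add x y) 1

noncomputable def chk (ta tb : Nat) (vl : VL) (t : T) :
    Nat → Nat → Nat → Nat → Nat → Nat → Nat → Nat → Nat → Nat → Bool :=
  T.rec (motive := fun _ => Nat → Nat → Nat → Nat → Nat → Nat → Nat → Nat → Nat → Nat → Bool)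
    (fun g m a0 a1 b0 b1 c0 c1 d0 d1 e0 e1 => leaf ta tb vl g m a0 a1 b0 b1 c0 c1 d0 d1 e0 e1)
    (fun _ a1 b0 _ c0 _ d0 _ _ _ => (Nat.blt a1 b0).or ((Nat.blt a1 c0).or (Nat.blt a1 d0)))
    (fun a0 _ _ b1 _ c1 d0 _ e0 _ => (Nat.ble 896 a0).and ((Nat.ble b1 128).and
      ((Nat.ble c1 128).and ((Nat.ble 896 d0).and (Nat.ble 896 e0)))))
    (fun _ a1 _ b1 _ c1 _ d1 _ e1 => (Nat.ble a1 32).and ((Nat.ble b1 32).and
      ((Nat.ble c1 32).and ((Nat.ble d1 32).and (Nat.ble e1 32)))))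
    (fun _ _ l r a0 a1 b0 b1 c0 c1 d0 d1 e0 e1 => force (mid a0 a1) fun m =>
      (l a0 m b0 b1 c0 c1 d0 d1 e0 e1).and (r m a1 b0 b1 c0 c1 d0 d1 e0 e1))
    (fun _ _ l r a0 a1 b0 b1 c0 c1 d0 d1 e0 e1 => force (mid b0 b1) fun m =>
      (l a0 a1 b0 m c0 c1 d0 d1 e0 e1).and (r a0 a1 m b1 c0 c1 d0 d1 e0 e1))
    (fun _ _ l r a0 a1 b0 b1 c0 c1 d0 d1 e0 e1 => force (mid c0 c1) fun m =>
      (l a0 a1 b0 b1 c0 m d0 d1 e0 e1).and (r a0 a1 b0 b1 m c1 d0 d1 e0 e1))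
    (fun _ _ l r a0 a1 b0 b1 c0 c1 d0 d1 e0 e1 => force (mid d0 d1) fun m =>
      (l a0 a1 b0 b1 c0 c1 d0 m e0 e1).and (r a0 a1 b0 b1 c0 c1 m d1 e0 e1))
    (fun _ _ l r a0 a1 b0 b1 c0 c1 d0 d1 e0 e1 => force (mid e0 e1) fun m =>
      (l a0 a1 b0 b1 c0 c1 d0 d1 e0 m).and (r a0 a1 b0 b1 c0 c1 d0 d1 m e1))
    t

end Pool.Agent.Lib.MP_3a1514_mp
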