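import Pool.Agent.Lib.MP_3a1514_mp.Poisson

/-! Ewald splitting of the Epstein zeta value. -/

open Real MeasureTheory

namespace Pool.Agent.Lib.MP_3a1514_mp

noncomputable def phi (τ q : ℝ) : ℝ := exp (-(τ * q)) * (τ / q + 1 / q ^ 2)

lemma exp_neg_ge_cubic (d : ℝ) : 1 - d + d ^ 2 / 2 - d ^ 3 / 6 ≤ exp (-d) := by
  rcases le_total d 0 with hd | hd
  · have := Real.sum_le_exp_of_nonneg (x := -d) (by linarith) 4
    simp only [Finset.sum_range_succ, Finset.range_zero, Finset.sum_empty, Nat.factorial] at this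
    norm_num at this
    linarith
  · let f : ℝ → ℝ := fun x => exp x * (1 - x + x ^ 2 / 2 - x ^ 3 / 6)
    have hf : ∀ x, HasDerivAt f (-(exp x * x ^ 3 / 6)) x := by
      intro x
      have h1 : HasDerivAt (fun x : ℝ => 1 - x + x ^ 2 / 2 - x ^ 3 / 6) (-1 + x - x ^ 2 / 2) x := by
        have := (((hasDerivAt_id x).const_sub 1).add ((hasDerivAt_pow 2 x).div_const 2)).sub
          ((hasDerivAt_pow 3 x).div_const 6)
        refine HasDerivAt.congr_deriv (this.congr_of_eventuallyEq ?_) ?_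
        · exact Filter.Eventually.of_forall fun y => rfl
        · norm_num; ring
      refine HasDerivAt.congr_deriv ((Real.hasDerivAt_exp x).fun_mul h1) ?_
      ring
    have hanti : AntitoneOn f (Set.Ici 0) := by
      refine antitoneOn_of_deriv_nonpos (convex_Ici 0) (by fun_prop) (by fun_prop) fun x hx => ?_
      rw [(hf x).deriv]
      have : 0 < x := by simpa using hx
      have : 0 ≤ exp x * x ^ 3 / 6 := by positivity
      linarith
    have h := hanti (Set.mem_Ici.2 le_rfl) (Set.mem_Ici.2 hd) hd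
    simp only [f, exp_zero] at h
    rw [exp_neg, ← one_div, le_div_iff₀ (exp_pos d)]
    norm_num at h
    linarith

lemma phi_nonneg {τ q : ℝ} (hτ : 0 ≤ τ) (hq : 0 ≤ q) : 0 ≤ phi τ q := by
  unfold phi; positivity

@[simp] lemma phi_zero (τ : ℝ) : phi τ 0 = 0 := by simp [phi]

lemma phi_tangent {τ q0 q : ℝ} (hτ : 0 ≤ τ) (h0 : 0 < q0) (hq : 0 < q) :
    exp (-(τ * q0)) * ((τ ^ 2 + 3 * τ / q0 + 3 / q0 ^ 2)
      - (τ ^ 2 / q0 + 2 * τ / q0 ^ 2 + 2 / q0 ^ 3) * q) ≤ phi τ q := by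
  have e1 : exp (-(τ * q)) = exp (-(τ * q0)) * exp (-(τ * (q - q0))) := by
    rw [← exp_add]; congr 1; ring
  unfold phi
  rw [e1, mul_assoc]
  refine mul_le_mul_of_nonneg_left ?_ (exp_pos _).le
  have h1 : 1 - τ * (q - q0) ≤ exp (-(τ * (q - q0))) := by
    linarith [add_one_le_exp (-(τ * (q - q0)))]
  have h2 : (1 - τ * (q - q0)) * (τ / q + 1 / q ^ 2) ≤ exp (-(τ * (q - q0))) * (τ / q + 1 / q ^ 2) :=
    mul_le_mul_of_nonneg_right h1 (by positivity)
  have e2 : (1 - τ * (q - q0)) * (τ / q + 1 / q ^ 2) - ((τ ^ 2 + 3 * τ / q0 + 3 / q0 ^ 2)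
      - (τ ^ 2 / q0 + 2 * τ / q0 ^ 2 + 2 / q0 ^ 3) * q) = (q - q0) ^ 2
        * ((τ ^ 2 / q0 + 2 * τ / q0 ^ 2 + 2 / q0 ^ 3) * q + (1 + τ * q0) / q0 ^ 2) / q ^ 2 := by
    field_simp; ring
  have h3 : 0 ≤ (q - q0) ^ 2
      * ((τ ^ 2 / q0 + 2 * τ / q0 ^ 2 + 2 / q0 ^ 3) * q + (1 + τ * q0) / q0 ^ 2) / q ^ 2 := by
    positivity
  linarith

noncomputable def beta1 (q : ℝ) : ℝ := exp (-q) * (1 / q + 2 / q ^ 2 + 2 / q ^ 3)
noncomputable def gam2 (q : ℝ) : ℝ := exp (-q) * (1 / q + 3 / q ^ 2 + 6 / q ^ 3 + 6 / q ^ 4) / 2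
noncomputable def gam3 (q : ℝ) : ℝ :=
  exp (-q) * (1 / q + 4 / q ^ 2 + 12 / q ^ 3 + 24 / q ^ 4 + 24 / q ^ 5) / 6

lemma phi_linear {q0 q : ℝ} (h0 : 0 < q0) (hq : 0 < q) :
    phi 1 q0 - beta1 q0 * (q - q0) ≤ phi 1 q := by
  have := phi_tangent (τ := 1) zero_le_one h0 hq
  convert this using 1
  unfold phi beta1
  rw [one_mul]
  field_simp; ring

lemma phi_cubic {q0 q : ℝ} (h0 : 0 < q0) (hq : 0 < q) :
    phi 1 q0 - beta1 q0 * (q - q0) + (gam2 q0 * (q - q0) ^ 2 - gam3 q0 * (q - q0) ^ 3)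
      ≤ phi 1 q := by
  have e1 : exp (-(1 * q)) = exp (-q0) * exp (-(q - q0)) := by
    rw [← exp_add]; congr 1; ring
  set d := q - q0 with hd
  have h1 := exp_neg_ge_cubic d
  have h2 : exp (-q0) * ((1 - d + d ^ 2 / 2 - d ^ 3 / 6) * (1 / q + 1 / q ^ 2)) ≤ phi 1 q := by
    unfold phi
    rw [e1, mul_assoc]
    exact mul_le_mul_of_nonneg_left (mul_le_mul_of_nonneg_right h1 (by positivity)) (exp_pos _).le
  have e2 : exp (-q0) * ((1 - d + d ^ 2 / 2 - d ^ 3 / 6) * (1 / q + 1 / q ^ 2))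
      - (phi 1 q0 - beta1 q0 * d + (gam2 q0 * d ^ 2 - gam3 q0 * d ^ 3))
      = d ^ 4 * (gam3 q0 * q + exp (-q0) * (1 + q0 + q0 ^ 2 / 2 + q0 ^ 3 / 6) / q0 ^ 4) / q ^ 2 := by
    unfold phi beta1 gam2 gam3
    rw [one_mul, hd]
    field_simp; ring
  have h3 : 0 ≤ d ^ 4 * (gam3 q0 * q + exp (-q0) * (1 + q0 + q0 ^ 2 / 2 + q0 ^ 3 / 6) / q0 ^ 4)
      / q ^ 2 := by
    unfold gam3; positivity
  linarith

lemma integral_texp (τ : ℝ) {q : ℝ} (hq : q ≠ 0) :
    ∫ t in (0 : ℝ)..τ, t * exp (-(t * q)) = (q ^ 2)⁻¹ - phi τ q := by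
  have h : ∀ t : ℝ, HasDerivAt (fun t => -(exp (-(t * q)) * (t / q + 1 / q ^ 2)))
      (t * exp (-(t * q))) t := by
    intro t
    have h1 : HasDerivAt (fun t => exp (-(t * q))) (exp (-(t * q)) * (-q)) t := by
      have := ((hasDerivAt_id t).mul_const q).neg.exp
      simpa using this
    have h2 : HasDerivAt (fun t => t / q + 1 / q ^ 2) (1 / q) t :=
      ((hasDerivAt_id t).div_const q).add_const _
    refine HasDerivAt.congr_deriv (h1.fun_mul h2).fun_neg ?_
    field_simp; ring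
  rw [intervalIntegral.integral_eq_sub_of_hasDerivAt (fun t _ => h t)
    (Continuous.intervalIntegrable (by fun_prop) _ _)]
  simp [phi]; ring

lemma phi_le {τ q : ℝ} (hτ : 0 ≤ τ) : phi τ q ≤ (q ^ 2)⁻¹ := by
  by_cases hq : q = 0
  · simp [hq]
  have h := integral_texp τ hq
  have : 0 ≤ ∫ t in (0 : ℝ)..τ, t * exp (-(t * q)) :=
    intervalIntegral.integral_nonneg hτ fun t ht => mul_nonneg ht.1 (exp_pos _).le
  linarith

namespace SP

variable {p p' : SP}

lemma PD.summable_phi (h : p.PD) {τ : ℝ} (hτ : 0 ≤ τ) : Summable fun n => phi τ (p.Q n) :=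
  h.summable_Z.of_nonneg_of_le (fun n => phi_nonneg hτ (h.Q_nonneg n)) fun _ => phi_le hτ

/-- Ewald comparison. -/
lemma PD.ewald (h : p.PD) (h' : p'.PD) {τ c : ℝ} (hτ : 0 < τ) (hc : 0 ≤ c) (m : ℕ)
    (hb : ∀ t, 0 < t → t ≤ τ → -(c * t ^ m) ≤ t * (p.theta t - p'.theta t)) :
    (∑' n, phi τ (p.Q n)) - (∑' n, phi τ (p'.Q n)) - c * (τ ^ (m + 1) / (m + 1)) ≤ p.Z - p'.Z := by
  let F : Z3 → ℝ → ℝ := fun n t => t * exp (-(t * p.Q n)) - t * exp (-(t * p'.Q n))
  have hFc : ∀ n, Continuous (F n) := fun n => by simp only [F]; fun_prop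
  have hint : ∀ n, Integrable (F n) (volume.restrict (Set.Ioc 0 τ)) := fun n =>
    ((hFc n).intervalIntegrable 0 τ).1
  have hval : ∀ n, ∫ t in Set.Ioc 0 τ, F n t
      = ((p.Q n ^ 2)⁻¹ - (p'.Q n ^ 2)⁻¹) - (phi τ (p.Q n) - phi τ (p'.Q n)) := by
    intro n
    by_cases hn : n = 0
    · subst hn; simp [F]
    rw [← intervalIntegral.integral_of_le hτ.le]
    simp only [F]
    rw [intervalIntegral.integral_sub (Continuous.intervalIntegrable (by fun_prop) _ _)
      (Continuous.intervalIntegrable (by fun_prop) _ _), integral_texp τ (h.Q_pos hn).ne',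
      integral_texp τ (h'.Q_pos hn).ne']
    ring
  have hsum : Summable fun n => ∫ t in Set.Ioc 0 τ, ‖F n t‖ := by
    refine (h.summable_Z.add h'.summable_Z).of_nonneg_of_le
      (fun n => integral_nonneg fun t => norm_nonneg _) fun n => ?_
    by_cases hn : n = 0
    · subst hn; simp [F]
    have e1 := integral_texp τ (h.Q_pos hn).ne'
    have e2 := integral_texp τ (h'.Q_pos hn).ne'
    have b1 := phi_nonneg hτ.le (h.Q_nonneg n)
    have b2 := phi_nonneg hτ.le (h'.Q_nonneg n)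
    have : ∫ t in (0 : ℝ)..τ, ‖F n t‖
        ≤ ∫ t in (0 : ℝ)..τ, (t * exp (-(t * p.Q n)) + t * exp (-(t * p'.Q n))) := by
      refine intervalIntegral.integral_mono_on hτ.le ((hFc n).norm.intervalIntegrable _ _)
        (Continuous.intervalIntegrable (by fun_prop) _ _) fun t ht => ?_
      have a1 : 0 ≤ t * exp (-(t * p.Q n)) := mul_nonneg ht.1 (exp_pos _).le
      have a2 : 0 ≤ t * exp (-(t * p'.Q n)) := mul_nonneg ht.1 (exp_pos _).le
      simp only [F]
      rw [Real.norm_eq_abs, abs_le]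
      constructor <;> linarith
    rw [intervalIntegral.integral_add (Continuous.intervalIntegrable (by fun_prop) _ _)
      (Continuous.intervalIntegrable (by fun_prop) _ _), e1, e2,
      intervalIntegral.integral_of_le hτ.le] at this
    linarith
  have hs := hasSum_integral_of_summable_integral_norm hint hsum
  have hs2 : HasSum (fun n => ∫ t in Set.Ioc 0 τ, F n t)
      ((p.Z - p'.Z) - ((∑' n, phi τ (p.Q n)) - (∑' n, phi τ (p'.Q n)))) := by
    simp_rw [hval]
    exact (h.summable_Z.hasSum.sub h'.summable_Z.hasSum).sub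
      ((h.summable_phi hτ.le).hasSum.sub (h'.summable_phi hτ.le).hasSum)
  have e := hs.unique hs2
  have hlow : -(c * (τ ^ (m + 1) / (m + 1))) ≤ ∫ t in Set.Ioc 0 τ, ∑' n, F n t := by
    by_cases hI : Integrable (fun t => ∑' n, F n t) (volume.restrict (Set.Ioc 0 τ))
    · have e1 : -(c * (τ ^ (m + 1) / (m + 1))) = ∫ t in Set.Ioc 0 τ, -(c * t ^ m) := by
        rw [← intervalIntegral.integral_of_le hτ.le, intervalIntegral.integral_neg,
          intervalIntegral.integral_const_mul, integral_pow]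
        simp
      rw [e1]
      refine setIntegral_mono_on
        (Continuous.intervalIntegrable (u := fun t => -(c * t ^ m)) (by fun_prop) 0 τ).1 hI
        measurableSet_Ioc fun t ht => ?_
      have : ∑' n, F n t = t * (p.theta t - p'.theta t) := by
        simp only [F]
        rw [((h.summable_theta ht.1).mul_left t).tsum_sub ((h'.summable_theta ht.1).mul_left t),
          tsum_mul_left, tsum_mul_left, theta, theta]
        ring
      rw [this]
      exact hb t ht.1 ht.2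
    · rw [integral_undef hI]
      have : 0 ≤ c * (τ ^ (m + 1) / (m + 1)) := by positivity
      linarith
  linarith

end SP

end Pool.Agent.Lib.MP_3a1514_mp
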