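import Pool.Agent.Lib.MP_3a1514_mp.Sums

/-! Numerical upper bounds for sums over the FCC lattice and its dual. -/

open Real

namespace Pool.Agent.Lib.MP_3a1514_mp

def XX (n : Z3) : Z3 := (n.2.2, n.2.1 - n.1, n.1 + n.2.1 - n.2.2)
def YY (k : Z3) : Z3 := (k.1 + k.2.1 + 2 * k.2.2, k.2.1 - k.1, k.1 + k.2.1)

lemma XX_inj : Function.Injective XX := by
  rintro ⟨a, b, c⟩ ⟨a', b', c'⟩ h
  simp only [XX, Prod.mk.injEq] at h ⊢
  omega

lemma YY_inj : Function.Injective YY := by
  rintro ⟨a, b, c⟩ ⟨a', b', c'⟩ h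
  simp only [YY, Prod.mk.injEq] at h ⊢
  omega

lemma fcc_Q (n : Z3) : fcc.Q n = nsq (XX n) := by
  rw [nsq_cast, SP.Q, fcc_q]; simp [XX]

lemma fcc_Qd (k : Z3) : fcc.Qd k = nsq (YY k) / 4 := by
  rw [nsq_cast, SP.Qd, fcc_kap]
  simp only [SP.adj, SP.g11, SP.g22, SP.g33, fcc, YY]
  push_cast; ring

def predD (x : Z3) : Bool := (x.1 + x.2.1 + x.2.2) % 2 == 0
def predS (x : Z3) : Bool := (x.1 - x.2.1) % 2 == 0 && (x.2.1 - x.2.2) % 2 == 0

lemma predD_XX (n : Z3) : predD (XX n) = true := by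
  simp only [predD, XX, beq_iff_eq]; omega

lemma predS_YY (n : Z3) : predS (YY n) = true := by
  simp only [predS, YY, beq_iff_eq, Bool.and_eq_true]; omega

lemma nsq_YY {k : Z3} (hk : k ≠ 0) : 3 ≤ nsq (YY k) := by
  obtain ⟨a, b, c⟩ := k
  have hk' : ¬ (a = 0 ∧ b = 0 ∧ c = 0) := by simpa using hk
  simp only [nsq, YY]
  have : (1 ≤ (a + b + 2 * c).natAbs ∧ 1 ≤ (b - a).natAbs ∧ 1 ≤ (a + b).natAbs)
      ∨ 2 ≤ (a + b + 2 * c).natAbs ∨ 2 ≤ (b - a).natAbs ∨ 2 ≤ (a + b).natAbs := by omega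
  rcases this with ⟨h1, h2, h3⟩ | h | h | h
  · have := Nat.pow_le_pow_left h1 2
    have := Nat.pow_le_pow_left h2 2
    have := Nat.pow_le_pow_left h3 2
    omega
  all_goals have := Nat.pow_le_pow_left h 2; omega

lemma exp_mul_le {s : ℝ} {u : ℚ} (h : exp (-s) ≤ u) (k : ℕ) : exp (-(s * k)) ≤ (u : ℝ) ^ k := by
  rw [show -(s * k) = k * (-s) by ring, exp_nat_mul]
  exact pow_le_pow_left₀ (exp_pos _).le h k

def G1 (k : ℕ) : ℚ := (0.4965853038 : ℚ) ^ k * (7 / 10 / k + 1 / k ^ 2)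

lemma bnd1 : bnd predD G1 0.4965853038 (7 / 10 / 25 + 1 / 625) 4 ≤ 1.92075 := by
  decide +kernel

lemma U1 : ∑' n, phi (7 / 10) (fcc.Q n) ≤ 1.92075 := by
  have hu : exp (-(7 / 10 : ℝ)) ≤ (0.4965853038 : ℚ) := by
    have := exp_neg_le (7 / 10) 0.4965853038 16 (by norm_num) (by decide +kernel)
    simpa using this
  have := (lattice_bound predD G1 0.4965853038 (7 / 10 / 25 + 1 / 625) 4 (by norm_num)
    (by norm_num) (by norm_num) (fun k => by unfold G1; positivity) (fun k hk => by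
      unfold G1
      have hk' : (25 : ℚ) ≤ k := by exact_mod_cast hk
      rw [mul_comm]
      gcongr
      nlinarith) XX XX_inj predD_XX (fun n => phi (7 / 10) (fcc.Q n))
    (fun n => phi_nonneg (by norm_num) (fcc_PD.Q_nonneg n)) (fun n => by
      rw [fcc_Q, phi, G1]
      push_cast
      have := exp_mul_le hu (nsq (XX n))
      push_cast at this
      gcongr)).2
  refine this.trans ?_
  exact ((Rat.cast_le (K := ℝ)).2 bnd1).trans (by norm_num)

def G2 (k : ℕ) : ℚ := if k < 3 then 0 else (0.0302 : ℚ) ^ (k - 3)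

lemma bnd2 : bnd predS G2 0.0302 (1 / 0.0302 ^ 3) 1 ≤ 8.22 := by
  decide +kernel

lemma U2 {s : ℝ} (hs : 14 ≤ s) : fcc.thetaD s ≤ 1 + 8.22 * exp (-(3 / 4 * s)) := by
  have hu : exp (-(7 / 2 : ℝ)) ≤ (0.0302 : ℚ) := by
    have := exp_neg_le (7 / 2) 0.0302 20 (by norm_num) (by decide +kernel)
    simpa using this
  let a : Z3 → ℝ := fun k => if k = 0 then 0 else exp (-(s * fcc.Qd k)) * exp (3 / 4 * s)
  obtain ⟨hsum, hb⟩ := lattice_bound predS G2 0.0302 (1 / 0.0302 ^ 3) 1 (by norm_num)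
    (by norm_num) (by norm_num) (fun k => by unfold G2; split_ifs <;> positivity) (fun k hk => by
      unfold G2
      have : ¬ k < 3 := by omega
      obtain ⟨j, rfl⟩ := Nat.exists_eq_add_of_le (show 3 ≤ k by omega)
      simp only [this, if_false, Nat.add_sub_cancel_left, pow_add]
      norm_num
      linarith) YY YY_inj predS_YY a
    (fun n => by simp only [a]; split_ifs <;> positivity) (fun n => by
      simp only [a]
      split_ifs with hn
      · have : (0 : ℚ) ≤ G2 (nsq (YY n)) := by unfold G2; split_ifs <;> positivity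
        exact_mod_cast this
      · have h3 := nsq_YY hn
        obtain ⟨j, hj⟩ := Nat.exists_eq_add_of_le h3
        have : ¬ (3 + j) < 3 := by omega
        rw [fcc_Qd, hj, G2]
        simp only [this, if_false, Nat.add_sub_cancel_left]
        have h2 := exp_mul_le hu j
        push_cast at h2 ⊢
        refine le_trans ?_ h2
        rw [← exp_add, exp_le_exp]
        nlinarith [(Nat.cast_nonneg j : (0 : ℝ) ≤ j)])
  have hb' : ∑' n, a n ≤ 8.22 := hb.trans (((Rat.cast_le (K := ℝ)).2 bnd2).trans (by norm_num))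
  have e : ∀ k, exp (-(s * fcc.Qd k)) = (if k = 0 then 1 else 0) + a k * exp (-(3 / 4 * s)) := by
    intro k
    simp only [a]
    split_ifs with hk
    · subst hk; simp [SP.Qd, SP.adj]
    · rw [zero_add, mul_assoc, ← exp_add]; simp
  unfold SP.thetaD
  simp_rw [e]
  rw [(hasSum_ite_eq (0 : Z3) (1 : ℝ)).summable.tsum_add (hsum.mul_right _), tsum_ite_eq,
    tsum_mul_right]
  gcongr

def G3 (k : ℕ) : ℚ := (0.3678795 : ℚ) ^ k * (k * (1 / k + 2 / k ^ 2 + 2 / k ^ 3))

lemma bnd3 : bnd predD G3 0.3678795 (1 + 2 / 9 + 2 / 81) 2 ≤ 4.338 := by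
  decide +kernel

lemma U3 : (Summable fun n => beta1 (fcc.Q n) * fcc.Q n) ∧
    ∑' n, beta1 (fcc.Q n) * fcc.Q n ≤ 4.338 := by
  have hu : exp (-(1 : ℝ)) ≤ (0.3678795 : ℚ) := by
    have := exp_neg_le 1 0.3678795 16 (by norm_num) (by decide +kernel)
    simpa using this
  obtain ⟨hsum, hb⟩ := lattice_bound predD G3 0.3678795 (1 + 2 / 9 + 2 / 81) 2 (by norm_num)
    (by norm_num) (by norm_num) (fun k => by unfold G3; positivity) (fun k hk => by
      unfold G3
      have hk' : (9 : ℚ) ≤ k := by exact_mod_cast hk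
      have e : (k : ℚ) * (1 / k + 2 / k ^ 2 + 2 / k ^ 3) = 1 + 2 / k + 2 / k ^ 2 := by
        field_simp
      rw [e, mul_comm]
      gcongr
      nlinarith) XX XX_inj predD_XX (fun n => beta1 (fcc.Q n) * fcc.Q n)
    (fun n => by
      have := fcc_PD.Q_nonneg n
      unfold beta1; positivity) (fun n => by
      rw [fcc_Q, beta1, G3]
      push_cast
      have := exp_mul_le hu (nsq (XX n))
      push_cast at this
      rw [one_mul] at this
      rw [mul_assoc, mul_comm _ ((nsq (XX n) : ℕ) : ℝ)]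
      gcongr)
  exact ⟨hsum, hb.trans (((Rat.cast_le (K := ℝ)).2 bnd3).trans (by norm_num))⟩

def G4 (k : ℕ) : ℚ := k / 4 * (0.0851 : ℚ) ^ (k - 3)

lemma bnd4 : bnd predS G4 0.1702 (1 / (16 * 0.0851 ^ 3)) 1 ≤ 7.2 := by
  decide +kernel

lemma four_mul_le_pow {k : ℕ} (hk : 4 ≤ k) : 4 * k ≤ 2 ^ k := by
  induction k, hk using Nat.le_induction with
  | base => norm_num
  | succ k hk ih => rw [pow_succ]; omega

lemma U4 {s : ℝ} (hs : 9.86 ≤ s) : (Summable fun k => exp (-(s * fcc.Qd k)) * fcc.Qd k) ∧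
    ∑' k, exp (-(s * fcc.Qd k)) * fcc.Qd k ≤ 7.2 * exp (-(3 / 4 * s)) := by
  have hu : exp (-(2.465 : ℝ)) ≤ (0.0851 : ℚ) := by
    have := exp_neg_le 2.465 0.0851 20 (by norm_num) (by decide +kernel)
    simpa using this
  let a : Z3 → ℝ := fun k => exp (-(s * fcc.Qd k)) * fcc.Qd k * exp (3 / 4 * s)
  obtain ⟨hsum, hb⟩ := lattice_bound predS G4 0.1702 (1 / (16 * 0.0851 ^ 3)) 1 (by norm_num)
    (by norm_num) (by norm_num) (fun k => by unfold G4; positivity) (fun k hk => by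
      unfold G4
      have h4 : (4 * k : ℚ) ≤ 2 ^ k := by exact_mod_cast four_mul_le_pow (k := k) (by omega)
      obtain ⟨j, rfl⟩ := Nat.exists_eq_add_of_le (show 3 ≤ k by omega)
      have e : (0.1702 : ℚ) ^ (3 + j) = 2 ^ (3 + j) * (0.0851 ^ 3 * 0.0851 ^ j) := by
        rw [← pow_add, ← mul_pow]; norm_num
      rw [Nat.add_sub_cancel_left, e]
      have hp : (0 : ℚ) < 0.0851 ^ j := by positivity
      have := mul_le_mul_of_nonneg_right h4 hp.le
      field_simp
      linarith) YY YY_inj predS_YY a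
    (fun n => by simp only [a, fcc_Qd]; positivity) (fun n => by
      simp only [a]
      by_cases hn : n = 0
      · subst hn; simp [SP.Qd, SP.adj, G4, YY, nsq]
      · have h3 := nsq_YY hn
        obtain ⟨j, hj⟩ := Nat.exists_eq_add_of_le h3
        rw [fcc_Qd, hj, G4]
        simp only [Nat.add_sub_cancel_left]
        have h2 := exp_mul_le hu j
        push_cast at h2 ⊢
        rw [mul_right_comm, mul_comm]
        gcongr
        refine le_trans ?_ h2
        rw [← exp_add, exp_le_exp]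
        nlinarith [(Nat.cast_nonneg j : (0 : ℝ) ≤ j)])
  have hb' : ∑' n, a n ≤ 7.2 := hb.trans (((Rat.cast_le (K := ℝ)).2 bnd4).trans (by norm_num))
  have e : ∀ k, exp (-(s * fcc.Qd k)) * fcc.Qd k = a k * exp (-(3 / 4 * s)) := by
    intro k
    simp only [a]
    rw [mul_assoc (exp _ * _), ← exp_add]; simp
  simp_rw [e]
  refine ⟨hsum.mul_right _, ?_⟩
  rw [tsum_mul_right]
  gcongr

lemma exp_decay {c τ t : ℝ} {m : ℕ} (hm : (m : ℝ) ≤ c / τ) (ht : 0 < t) (htτ : t ≤ τ) :
    exp (-(c / t)) ≤ exp (-(c / τ)) * (t / τ) ^ m := by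
  have hτ : 0 < τ := lt_of_lt_of_le ht htτ
  set r := τ / t with hr
  have hr1 : 1 ≤ r := by rw [hr, le_div_iff₀ ht]; linarith
  have e : c / t = c / τ + c / τ * (r - 1) := by rw [hr]; field_simp; ring
  rw [e, neg_add, exp_add]
  refine mul_le_mul_of_nonneg_left ?_ (exp_pos _).le
  have h1 : r ^ m ≤ exp (m * (r - 1)) := by
    rw [exp_nat_mul]
    exact pow_le_pow_left₀ (by linarith) (by linarith [add_one_le_exp (r - 1)]) m
  have h2 : exp (m * (r - 1)) ≤ exp (c / τ * (r - 1)) := by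
    rw [exp_le_exp]; exact mul_le_mul_of_nonneg_right hm (by linarith)
  rw [exp_neg, ← inv_div τ t, inv_pow, ← hr]
  exact inv_anti₀ (by positivity) (h1.trans h2)

lemma sqrt_div_le {a τ t : ℝ} (ha : 0 ≤ a) (h : π * τ ≤ a ^ 2) (ht : 0 < t) (htτ : t ≤ τ) :
    √(π / t) ≤ a / t := by
  rw [Real.sqrt_le_iff]
  refine ⟨by positivity, ?_⟩
  rw [div_pow, div_le_div_iff₀ ht (by positivity)]
  have := pi_pos
  have h2 : π * t ≤ a ^ 2 := le_trans (by gcongr) h
  nlinarith

namespace SP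

lemma PD.one_le_thetaD {p : SP} (h : p.PD) {s : ℝ} (hs : 0 < s) : 1 ≤ p.thetaD s := by
  have := (h.summable_thetaD hs).le_tsum 0 fun k _ => (exp_pos _).le
  have e : p.Qd 0 = 0 := by simp [Qd, adj]
  rwa [e, mul_zero, neg_zero, exp_zero] at this

/-- the global comparison: a large truncated sum suffices -/
lemma PD.global {p : SP} (h : p.PD) (hk : p.kap = 4)
    (hb : 1.9208 ≤ ∑' n, phi (7 / 10) (p.Q n)) : fcc.Z ≤ p.Z := by
  have hE : exp (-(10.574 : ℝ)) ≤ (0.0000256 : ℚ) := by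
    have := exp_neg_le 10.574 0.0000256 40 (by norm_num) (by decide +kernel)
    simpa using this
  have hπ := pi_pos
  have hπ1 := pi_gt_d6
  have hπ2 := pi_lt_d4
  have key := h.ewald fcc_PD (τ := 7 / 10) (c := 0.0175) (by norm_num) (by norm_num) 9
    fun t ht htτ => by
      have hs : 14 ≤ π ^ 2 / t := by
        rw [le_div_iff₀ ht]; nlinarith
      have h1 := h.one_le_thetaD (s := π ^ 2 / t) (by positivity)
      have h2 := U2 hs
      rw [h.theta_eq ht, fcc_PD.theta_eq ht, hk, fcc_kap]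
      have h4 : √4 = 2 := by
        rw [show (4 : ℝ) = 2 ^ 2 by norm_num, Real.sqrt_sq (by norm_num)]
      rw [h4]
      have h3 := sqrt_div_le (a := 1.483) (τ := 7 / 10) (by norm_num) (by nlinarith) ht htτ
      have h5 := exp_decay (c := 3 / 4 * π ^ 2) (τ := 7 / 10) (m := 10) (by
        rw [le_div_iff₀ (by norm_num)]; push_cast; nlinarith) ht htτ
      have h6 : exp (-(3 / 4 * π ^ 2 / (7 / 10))) ≤ 0.0000256 := by
        refine le_trans ?_ (hE.trans (by norm_num))
        rw [exp_le_exp]; nlinarith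
      have h7 : exp (-(3 / 4 * (π ^ 2 / t))) ≤ 0.0000256 * (t / (7 / 10)) ^ 10 := by
        rw [← mul_div_assoc]
        exact h5.trans (by gcongr)
      have h8 : t * (π / t * √(π / t) / 2) ≤ 3.1416 * (1.483 / t) / 2 := by
        have : t * (π / t * √(π / t) / 2) = π * √(π / t) / 2 := by field_simp
        rw [this]; gcongr
      have h9 : t * (π / t * √(π / t) / 2) * (fcc.thetaD (π ^ 2 / t) - p.thetaD (π ^ 2 / t))
          ≤ 3.1416 * (1.483 / t) / 2 * (8.22 * (0.0000256 * (t / (7 / 10)) ^ 10)) := by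
        refine le_trans (mul_le_mul_of_nonneg_left (c := 8.22 * (0.0000256 * (t / (7 / 10)) ^ 10))
          (by linarith) (by positivity)) ?_
        gcongr
      have e : 3.1416 * (1.483 / t) / 2 * (8.22 * (0.0000256 * (t / (7 / 10)) ^ 10))
          = 3.1416 * 1.483 / 2 * 8.22 * 0.0000256 / (7 / 10) ^ 10 * t ^ 9 := by
        field_simp
      rw [e] at h9
      have h10 : 3.1416 * 1.483 / 2 * 8.22 * 0.0000256 / (7 / 10) ^ 10 * t ^ 9
          ≤ (0.0175 : ℝ) * t ^ 9 := by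
        gcongr; norm_num
      linarith
  have := U1
  norm_num at key
  linarith

end SP

end Pool.Agent.Lib.MP_3a1514_mp
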