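import Mathlib

/-! Ternary quadratic forms in Selling parameters; summability lemmas. -/

open Real

namespace Pool.Agent.Lib.MP_3a1514_mp

abbrev Z3 : Type := ℤ × ℤ × ℤ

structure SP where
  p01 : ℝ
  p02 : ℝ
  p03 : ℝ
  p12 : ℝ
  p13 : ℝ
  p23 : ℝ

namespace SP

def q (p : SP) (x y z : ℝ) : ℝ :=
  p.p01 * x ^ 2 + p.p02 * y ^ 2 + p.p03 * z ^ 2 + p.p12 * (x - y) ^ 2 + p.p13 * (x - z) ^ 2
    + p.p23 * (y - z) ^ 2

def Q (p : SP) (n : Z3) : ℝ := p.q n.1 n.2.1 n.2.2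

def kap (p : SP) : ℝ :=
  (p.p01 * (p.p02 + p.p12) + p.p02 * p.p12) * (p.p03 + p.p13) + p.p03 * p.p13 * (p.p02 + p.p12)
    + p.p23 * (p.p01 * (p.p02 + p.p12 + (p.p03 + p.p13)) + (p.p02 + p.p03) * (p.p12 + p.p13))

def PD (p : SP) : Prop := ∀ x y z : ℝ, ¬ (x = 0 ∧ y = 0 ∧ z = 0) → 0 < p.q x y z

def g11 (p : SP) : ℝ := p.p01 + p.p12 + p.p13
def g22 (p : SP) : ℝ := p.p02 + p.p12 + p.p23
def g33 (p : SP) : ℝ := p.p03 + p.p13 + p.p23

/-- adjugate form -/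
def adj (p : SP) (x y z : ℝ) : ℝ :=
  (p.g22 * p.g33 - p.p23 ^ 2) * x ^ 2 + (p.g11 * p.g33 - p.p13 ^ 2) * y ^ 2
    + (p.g11 * p.g22 - p.p12 ^ 2) * z ^ 2
    + 2 * (p.p13 * p.p23 + p.p12 * p.g33) * x * y + 2 * (p.p12 * p.p23 + p.p13 * p.g22) * x * z
    + 2 * (p.p12 * p.p13 + p.g11 * p.p23) * y * z

noncomputable def Qd (p : SP) (k : Z3) : ℝ := p.adj k.1 k.2.1 k.2.2 / p.kap

noncomputable def Z (p : SP) : ℝ := ∑' n : Z3, (p.Q n ^ 2)⁻¹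

noncomputable def theta (p : SP) (t : ℝ) : ℝ := ∑' n : Z3, exp (-(t * p.Q n))

noncomputable def thetaD (p : SP) (s : ℝ) : ℝ := ∑' k : Z3, exp (-(s * p.Qd k))

end SP

def fcc : SP := ⟨1, 1, 0, 0, 1, 1⟩

lemma exists_eps (f : ℝ → ℝ → ℝ → ℝ) (hc : Continuous fun v : ℝ × ℝ × ℝ => f v.1 v.2.1 v.2.2)
    (hh : ∀ s x y z, f (s * x) (s * y) (s * z) = s ^ 2 * f x y z)
    (hp : ∀ x y z, ¬ (x = 0 ∧ y = 0 ∧ z = 0) → 0 < f x y z) :
    ∃ ε : ℝ, 0 < ε ∧ ∀ x y z, ε * (x ^ 2 + y ^ 2 + z ^ 2) ≤ f x y z := by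
  have hK : IsCompact (Metric.sphere (0 : ℝ × ℝ × ℝ) 1) := isCompact_sphere _ _
  have hne : (Metric.sphere (0 : ℝ × ℝ × ℝ) 1).Nonempty := ⟨(1, 0, 0), by simp⟩
  obtain ⟨v, hv, hmin⟩ := hK.exists_isMinOn hne hc.continuousOn
  have hv1 : ‖v‖ = 1 := by simpa using hv
  have hvpos : 0 < f v.1 v.2.1 v.2.2 := by
    apply hp
    rintro ⟨h1, h2, h3⟩
    have : v = 0 := Prod.ext h1 (Prod.ext h2 h3)
    simp [this] at hv1
  refine ⟨f v.1 v.2.1 v.2.2 / 3, by positivity, fun x y z => ?_⟩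
  by_cases h0 : ((x, y, z) : ℝ × ℝ × ℝ) = 0
  · simp only [Prod.mk_eq_zero] at h0
    obtain ⟨rfl, rfl, rfl⟩ := h0
    have := hh 0 0 0 0
    simp at this
    simp [this]
  · set r := ‖((x, y, z) : ℝ × ℝ × ℝ)‖ with hr
    have hrpos : 0 < r := norm_pos_iff.2 h0
    have hmem : r⁻¹ • ((x, y, z) : ℝ × ℝ × ℝ) ∈ Metric.sphere (0 : ℝ × ℝ × ℝ) 1 := by
      rw [mem_sphere_zero_iff_norm, norm_smul, norm_inv, Real.norm_of_nonneg hrpos.le, ← hr]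
      field_simp
    have h1 : f v.1 v.2.1 v.2.2 ≤ f (r⁻¹ * x) (r⁻¹ * y) (r⁻¹ * z) := hmin hmem
    rw [hh] at h1
    have hx : |x| ≤ r := norm_fst_le ((x, y, z) : ℝ × ℝ × ℝ)
    have hy : |y| ≤ r := (norm_fst_le ((y, z) : ℝ × ℝ)).trans (norm_snd_le ((x, y, z) : ℝ × ℝ × ℝ))
    have hz : |z| ≤ r := (norm_snd_le ((y, z) : ℝ × ℝ)).trans (norm_snd_le ((x, y, z) : ℝ × ℝ × ℝ))
    have hx2 : x ^ 2 ≤ r ^ 2 := by rw [← sq_abs x]; gcongr
    have hy2 : y ^ 2 ≤ r ^ 2 := by rw [← sq_abs y]; gcongr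
    have hz2 : z ^ 2 ≤ r ^ 2 := by rw [← sq_abs z]; gcongr
    have h2 : r ^ 2 * f v.1 v.2.1 v.2.2 ≤ f x y z := by
      have := mul_le_mul_of_nonneg_left h1 (sq_nonneg r)
      rwa [← mul_assoc, ← mul_pow, mul_inv_cancel₀ hrpos.ne', one_pow, one_mul] at this
    nlinarith

lemma hasSum_geom_int {r : ℝ} (h0 : 0 ≤ r) (h1 : r < 1) :
    HasSum (fun n : ℤ => r ^ n.natAbs) ((1 + r) / (1 - r)) := by
  have ha := hasSum_geometric_of_lt_one h0 h1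
  have hb : HasSum (fun n : ℕ => r ^ (n + 1)) (r * (1 - r)⁻¹) := by
    simpa [pow_succ'] using ha.mul_left r
  have := HasSum.of_nat_of_neg_add_one (f := fun n : ℤ => r ^ n.natAbs) (by simpa using ha)
    (by
      convert hb using 2 with n
      congr 1)
  convert this using 1
  have : 1 - r ≠ 0 := by linarith
  field_simp

lemma natAbs_le_sq (n : ℤ) : (n.natAbs : ℝ) ≤ (n : ℝ) ^ 2 := by
  have h : (n.natAbs : ℤ) ≤ n ^ 2 := by
    have := Int.natAbs_le_self_sq n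
    rw [← Int.natAbs_sq n]
    exact_mod_cast (Nat.le_self_pow (by norm_num) _)
  have h2 : ((n.natAbs : ℤ) : ℝ) ≤ ((n ^ 2 : ℤ) : ℝ) := by exact_mod_cast h
  simpa using h2

lemma summable_gauss1 {ε : ℝ} (hε : 0 < ε) : Summable fun n : ℤ => exp (-(ε * (n : ℝ) ^ 2)) := by
  have hr : exp (-ε) < 1 := by rw [exp_lt_one_iff]; linarith
  refine (hasSum_geom_int (exp_pos _).le hr).summable.of_nonneg_of_le (fun n => (exp_pos _).le)
    fun n => ?_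
  rw [← exp_nat_mul, exp_le_exp]
  nlinarith [natAbs_le_sq n]

lemma summable_mul3 {f : ℤ → ℝ} (hf : Summable f) (h0 : ∀ n, 0 ≤ f n) :
    Summable fun n : Z3 => f n.1 * (f n.2.1 * f n.2.2) :=
  hf.mul_of_nonneg (hf.mul_of_nonneg hf h0 h0) h0 fun _ => mul_nonneg (h0 _) (h0 _)

lemma summable_gauss3 {ε : ℝ} (hε : 0 < ε) :
    Summable fun n : Z3 => exp (-(ε * ((n.1 : ℝ) ^ 2 + (n.2.1 : ℝ) ^ 2 + (n.2.2 : ℝ) ^ 2))) := by
  refine (summable_mul3 (summable_gauss1 hε) fun n => (exp_pos _).le).congr fun n => ?_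
  rw [← exp_add, ← exp_add]
  congr 1; ring

lemma summable_exp_neg (f : ℝ → ℝ → ℝ → ℝ) (hc : Continuous fun v : ℝ × ℝ × ℝ => f v.1 v.2.1 v.2.2)
    (hh : ∀ s x y z, f (s * x) (s * y) (s * z) = s ^ 2 * f x y z)
    (hp : ∀ x y z, ¬ (x = 0 ∧ y = 0 ∧ z = 0) → 0 < f x y z) :
    Summable fun n : Z3 => exp (-(f n.1 n.2.1 n.2.2)) := by
  obtain ⟨ε, hε, h⟩ := exists_eps f hc hh hp
  refine (summable_gauss3 hε).of_nonneg_of_le (fun n => (exp_pos _).le) fun n => ?_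
  rw [exp_le_exp]
  linarith [h n.1 n.2.1 n.2.2]

lemma summable_aux1 : Summable fun n : ℤ => (1 + (n : ℝ) ^ 2) ^ (-(2 / 3 : ℝ)) := by
  have h := Real.summable_abs_int_rpow (b := 4 / 3) (by norm_num)
  refine Summable.of_norm_bounded_eventually h ?_
  have : ∀ᶠ n : ℤ in Filter.cofinite, n ≠ 0 := Filter.eventually_cofinite_ne 0
  filter_upwards [this] with n hn
  rw [Real.norm_of_nonneg (by positivity)]
  have hpos : 0 < |(n : ℝ)| := abs_pos.2 (by exact_mod_cast hn)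
  have e : |(n : ℝ)| ^ (-(4 / 3 : ℝ)) = ((n : ℝ) ^ 2) ^ (-(2 / 3 : ℝ)) := by
    rw [← sq_abs, ← Real.rpow_natCast, ← Real.rpow_mul hpos.le]; norm_num
  rw [e]
  apply Real.rpow_le_rpow_of_nonpos (by rw [← sq_abs]; positivity) (by linarith) (by norm_num)

lemma one_le_normsq {n : Z3} (hn : n ≠ 0) :
    (1 : ℝ) ≤ (n.1 : ℝ) ^ 2 + (n.2.1 : ℝ) ^ 2 + (n.2.2 : ℝ) ^ 2 := by
  have : (1 : ℤ) ≤ n.1 ^ 2 + n.2.1 ^ 2 + n.2.2 ^ 2 := by
    by_contra h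
    apply hn
    have h1 : n.1 = 0 := by nlinarith [sq_nonneg n.1, sq_nonneg n.2.1, sq_nonneg n.2.2]
    have h2 : n.2.1 = 0 := by nlinarith [sq_nonneg n.1, sq_nonneg n.2.1, sq_nonneg n.2.2]
    have h3 : n.2.2 = 0 := by nlinarith [sq_nonneg n.1, sq_nonneg n.2.1, sq_nonneg n.2.2]
    exact Prod.ext h1 (Prod.ext h2 h3)
  exact_mod_cast this

lemma summable_inv_normsq :
    Summable fun n : Z3 => (((n.1 : ℝ) ^ 2 + (n.2.1 : ℝ) ^ 2 + (n.2.2 : ℝ) ^ 2) ^ 2)⁻¹ := by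
  have h := (summable_mul3 summable_aux1 fun n => by positivity).mul_left 4
  refine h.of_nonneg_of_le (fun n => by positivity) fun n => ?_
  by_cases hn : n = 0
  · subst hn; simp
  have h1 := one_le_normsq hn
  set N := (n.1 : ℝ) ^ 2 + (n.2.1 : ℝ) ^ 2 + (n.2.2 : ℝ) ^ 2 with hN
  have key : ∀ a : ℝ, a ^ 2 ≤ N → (2 * N) ^ (-(2 / 3 : ℝ)) ≤ (1 + a ^ 2) ^ (-(2 / 3 : ℝ)) := by
    intro a ha
    apply Real.rpow_le_rpow_of_nonpos (by positivity) (by linarith) (by norm_num)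
  have k1 := key n.1 (by nlinarith [sq_nonneg (n.2.1 : ℝ), sq_nonneg (n.2.2 : ℝ)])
  have k2 := key n.2.1 (by nlinarith [sq_nonneg (n.1 : ℝ), sq_nonneg (n.2.2 : ℝ)])
  have k3 := key n.2.2 (by nlinarith [sq_nonneg (n.1 : ℝ), sq_nonneg (n.2.1 : ℝ)])
  have hw : 0 < (2 * N) ^ (-(2 / 3 : ℝ)) := by positivity
  have e : (N ^ 2)⁻¹ = 4 * ((2 * N) ^ (-(2 / 3 : ℝ)) * ((2 * N) ^ (-(2 / 3 : ℝ))
      * (2 * N) ^ (-(2 / 3 : ℝ)))) := by
    have h2N : 0 < 2 * N := by linarith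
    rw [← Real.rpow_add h2N, ← Real.rpow_add h2N]
    have : (-(2 / 3 : ℝ) + (-(2 / 3) + -(2 / 3))) = -((2 : ℕ) : ℝ) := by norm_num
    rw [this, Real.rpow_neg h2N.le, Real.rpow_natCast]
    field_simp; norm_num
  rw [e]
  gcongr

namespace SP

variable {p : SP}

lemma q_cont (p : SP) : Continuous fun v : ℝ × ℝ × ℝ => p.q v.1 v.2.1 v.2.2 := by
  unfold q; fun_prop

lemma q_hom (p : SP) (s x y z : ℝ) : p.q (s * x) (s * y) (s * z) = s ^ 2 * p.q x y z := by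
  unfold q; ring

@[simp] lemma Q_zero (p : SP) : p.Q 0 = 0 := by simp [Q, q]

lemma PD.Q_pos (h : p.PD) {n : Z3} (hn : n ≠ 0) : 0 < p.Q n := by
  apply h
  rintro ⟨h1, h2, h3⟩
  apply hn
  exact Prod.ext (by exact_mod_cast h1) (Prod.ext (by exact_mod_cast h2) (by exact_mod_cast h3))

lemma PD.Q_nonneg (h : p.PD) (n : Z3) : 0 ≤ p.Q n := by
  by_cases hn : n = 0
  · simp [hn]
  · exact (h.Q_pos hn).le

lemma PD.summable_theta (h : p.PD) {t : ℝ} (ht : 0 < t) :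
    Summable fun n : Z3 => exp (-(t * p.Q n)) :=
  summable_exp_neg (fun x y z => t * p.q x y z) (continuous_const.mul p.q_cont)
    (fun s x y z => by rw [q_hom]; ring) fun x y z hx => mul_pos ht (h x y z hx)

lemma PD.summable_Z (h : p.PD) : Summable fun n : Z3 => (p.Q n ^ 2)⁻¹ := by
  obtain ⟨ε, hε, hb⟩ := exists_eps p.q p.q_cont p.q_hom h
  refine (summable_inv_normsq.mul_left (ε ^ 2)⁻¹).of_nonneg_of_le (fun n => by positivity)
    fun n => ?_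
  by_cases hn : n = 0
  · subst hn; simp
  have h1 := one_le_normsq hn
  rw [← mul_inv, ← mul_pow]
  apply inv_anti₀ (by positivity)
  exact pow_le_pow_left₀ (by positivity) (hb _ _ _) 2

lemma PD.finite_le (h : p.PD) (T : ℝ) : {n : Z3 | p.Q n ≤ T}.Finite := by
  have h1 := (h.summable_theta one_pos).tendsto_cofinite_zero
  have h2 := h1.eventually (gt_mem_nhds (exp_pos (-T)))
  rw [Filter.eventually_cofinite] at h2
  refine h2.subset fun n hn => ?_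
  simp only [Set.mem_ofPred_eq, not_lt, exp_le_exp] at hn ⊢
  linarith

end SP

lemma fcc_q (x y z : ℝ) : fcc.q x y z = z ^ 2 + (y - x) ^ 2 + (x + y - z) ^ 2 := by
  simp only [SP.q, fcc]; ring

lemma fcc_PD : fcc.PD := by
  intro x y z h
  rw [fcc_q]
  by_contra hh
  apply h
  have h1 : z = 0 := by nlinarith [sq_nonneg z, sq_nonneg (y - x), sq_nonneg (x + y - z)]
  have h2 : y - x = 0 := by nlinarith [sq_nonneg z, sq_nonneg (y - x), sq_nonneg (x + y - z)]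
  have h3 : x + y - z = 0 := by nlinarith [sq_nonneg z, sq_nonneg (y - x), sq_nonneg (x + y - z)]
  refine ⟨by linarith, by linarith, h1⟩

lemma fcc_kap : fcc.kap = 4 := by simp only [SP.kap, fcc]; norm_num

end Pool.Agent.Lib.MP_3a1514_mp
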