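import Pool.Agent.Lib.MP_3a1514_mp.LocalPoly

/-! The estimate in the box around the FCC form. -/

open Real

namespace Pool.Agent.Lib.MP_3a1514_mp

def invX1 : Z3 ≃ Z3 := Function.Involutive.toPerm
  (fun n => (n.1 - n.2.2, n.2.1 - n.2.2, -n.2.2)) (by rintro ⟨a, b, c⟩; simp)
def invX2 : Z3 ≃ Z3 := Function.Involutive.toPerm
  (fun n => (n.2.1, n.1, n.2.2)) (by rintro ⟨a, b, c⟩; simp)
def invX3 : Z3 ≃ Z3 := Function.Involutive.toPerm
  (fun n => (n.1, n.2.1, n.1 + n.2.1 - n.2.2)) (by rintro ⟨a, b, c⟩; simp)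
def invX4 : Z3 ≃ Z3 := Function.Involutive.toPerm
  (fun n => (n.2.2 - n.1, n.2.1, n.2.2)) (by rintro ⟨a, b, c⟩; simp)

def invY1 : Z3 ≃ Z3 := Function.Involutive.toPerm
  (fun k => (k.1, k.2.1, -k.1 - k.2.1 - k.2.2)) (by rintro ⟨a, b, c⟩; simp)
def invY3 : Z3 ≃ Z3 := Function.Involutive.toPerm
  (fun k => (k.1 + k.2.2, k.2.1 + k.2.2, -k.2.2)) (by rintro ⟨a, b, c⟩; simp)
def invY4 : Z3 ≃ Z3 := Function.Involutive.toPerm
  (fun k => (-k.1, k.2.1, k.2.2 + k.1)) (by rintro ⟨a, b, c⟩; simp)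

lemma sym_direct (a1 a2 a3 b1 b2 b3 : ℝ) :
    HasSum (fun n => beta1 (fcc.Q n) * Hf a1 a2 a3 b1 b2 b3 (XX n))
      ((a1 + a2 + a3) / 3 * ∑' n, beta1 (fcc.Q n) * fcc.Q n) := by
  have hQ : ∀ n, (((XX n).1 : ℤ) : ℝ) ^ 2 + (((XX n).2.1 : ℤ) : ℝ) ^ 2
      + (((XX n).2.2 : ℤ) : ℝ) ^ 2 = fcc.Q n := fun n => by rw [fcc_Q, nsq_cast]
  have := sym_sum beta1 (fun n => ((XX n).1 : ℝ)) (fun n => ((XX n).2.1 : ℝ))
    (fun n => ((XX n).2.2 : ℝ)) (fun n => by
      rw [hQ]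
      have := fcc_PD.Q_nonneg n
      unfold beta1; positivity) (by simp_rw [hQ]; exact U3.1) invX1 invX2 invX3 invX4
    (fun n => by simp [invX1, XX]; ring) (fun n => by simp [invX2, XX]; ring)
    (fun n => by simp [invX3, XX]) (fun n => by simp [invX4, XX]; constructor <;> ring)
    a1 a2 a3 (2 * b1) (2 * b2) (2 * b3)
  simp_rw [hQ] at this
  exact this

lemma sym_dual {s : ℝ} (hs : 9.86 ≤ s) (a1 a2 a3 b1 b2 b3 : ℝ) :
    HasSum (fun k => exp (-(s * fcc.Qd k)) * (Hf a1 a2 a3 b1 b2 b3 (YY k) / 4))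
      ((a1 + a2 + a3) / 3 * ∑' k, exp (-(s * fcc.Qd k)) * fcc.Qd k) := by
  have hQ : ∀ n, (((YY n).1 : ℤ) : ℝ) ^ 2 + (((YY n).2.1 : ℤ) : ℝ) ^ 2
      + (((YY n).2.2 : ℤ) : ℝ) ^ 2 = 4 * fcc.Qd n := fun n => by
    rw [fcc_Qd, nsq_cast]; ring
  have := sym_sum (fun N => exp (-(s * (N / 4))) / 4) (fun n => ((YY n).1 : ℝ))
    (fun n => ((YY n).2.1 : ℝ)) (fun n => ((YY n).2.2 : ℝ)) (fun n => by positivity)
    (by
      simp_rw [hQ]
      refine (U4 hs).1.congr fun k => ?_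
      rw [mul_div_cancel_left₀ _ (by norm_num : (4 : ℝ) ≠ 0)]; ring) invY1 invX2 invY3 invY4
    (fun n => by simp [invY1, YY]; ring) (fun n => by simp [invX2, YY]; ring)
    (fun n => by simp [invY3, YY]; constructor <;> ring)
    (fun n => by simp [invY4, YY]; refine ⟨?_, ?_, ?_⟩ <;> ring)
    a1 a2 a3 (2 * b1) (2 * b2) (2 * b3)
  simp_rw [hQ, mul_div_cancel_left₀ _ (by norm_num : (4 : ℝ) ≠ 0)] at this
  refine hasSum_of_eq this (fun k => ?_) ?_
  · simp only [Hf]; ring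
  · congr 1
    exact tsum_congr fun k => by ring

lemma shell_term {q0 q E r2 r3 : ℝ} (h0 : 0 < q0) (hq : 0 < q) (hE : E ≤ exp (-q0))
    (h2 : gam2 q0 = exp (-q0) * r2) (h3 : gam3 q0 = exp (-q0) * r3) (hr3 : 0 ≤ r3)
    (hd : q ≤ 1.25 * q0) (hr : r3 * (0.25 * q0) ≤ r2) :
    phi 1 q0 - beta1 q0 * (q - q0) + (E * r2 * (q - q0) ^ 2 - E * r3 * (q - q0) ^ 3)
      ≤ phi 1 q := by
  refine le_trans ?_ (phi_cubic h0 hq)
  rw [h2, h3]
  have h4 : 0 ≤ r2 - r3 * (q - q0) := by nlinarith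
  have h5 : 0 ≤ (exp (-q0) - E) * ((q - q0) ^ 2 * (r2 - r3 * (q - q0))) :=
    mul_nonneg (by linarith) (mul_nonneg (sq_nonneg _) h4)
  nlinarith

lemma exp_lows : (0.135335 : ℝ) ≤ exp (-2) ∧ (0.0183156 : ℝ) ≤ exp (-4)
    ∧ (0.00247875 : ℝ) ≤ exp (-6) := by
  have h := Real.exp_neg_one_gt_d9
  have e : ∀ k : ℕ, (0.36787944116 : ℝ) ^ k ≤ exp (-(k : ℝ)) := by
    intro k
    rw [show -(k : ℝ) = k * (-1) by ring, exp_nat_mul]
    exact pow_le_pow_left₀ (by norm_num) h.le k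
  have e2 := e 2
  have e4 := e 4
  have e6 := e 6
  push_cast at e2 e4 e6
  refine ⟨le_trans ?_ e2, le_trans ?_ e4, le_trans ?_ e6⟩ <;> norm_num

lemma hasSum_ite_mem (S : Finset Z3) (f : Z3 → ℝ) :
    HasSum (fun n => if n ∈ S then f n else 0) (∑ n ∈ S, f n) := by
  have := hasSum_sum_of_ne_finset_zero (L := SummationFilter.unconditional Z3)
    (f := fun n : Z3 => if n ∈ S then f n else 0) (s := S) (fun n hn => by simp [hn])
  exact hasSum_of_eq this (fun _ => rfl) (Finset.sum_congr rfl fun n hn => by simp [hn])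

lemma direct_part {p : SP} (h : p.PD) {a1 a2 a3 b1 b2 b3 : ℝ}
    (hd : ∀ n, p.Q n - fcc.Q n = Hf a1 a2 a3 b1 b2 b3 (XX n))
    (hle : ∀ n, p.Q n ≤ 1.25 * fcc.Q n) (ht : 0 ≤ a1 + a2 + a3) :
    -(1.446 * (a1 + a2 + a3))
      + ((0.135335 * (19 / 16) * mom2 8 4 a1 a2 a3 b1 b2 b3
          - 0.135335 * (7 / 8) * mom3 8 4 0 a1 a2 a3 b1 b2 b3)
        + (0.0183156 * (71 / 256) * mom2 32 0 a1 a2 a3 b1 b2 b3
          - 0.0183156 * (103 / 768) * mom3 128 0 0 a1 a2 a3 b1 b2 b3)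
        + (0.00247875 * (61 / 432) * mom2 144 72 a1 a2 a3 b1 b2 b3
          - 0.00247875 * (115 / 1944) * mom3 528 168 96 a1 a2 a3 b1 b2 b3))
      ≤ (∑' n, phi 1 (p.Q n)) - ∑' n, phi 1 (fcc.Q n) := by
  rw [← sum_S1, ← sum_S2, ← sum_S3]
  set d : Z3 → ℝ := fun n => Hf a1 a2 a3 b1 b2 b3 (XX n) with hdd
  have s1 := hasSum_ite_mem S1 fun n =>
    0.135335 * (19 / 16) * d n ^ 2 - 0.135335 * (7 / 8) * d n ^ 3
  have s2 := hasSum_ite_mem S2 fun n =>
    0.0183156 * (71 / 256) * d n ^ 2 - 0.0183156 * (103 / 768) * d n ^ 3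
  have s3 := hasSum_ite_mem S3 fun n =>
    0.00247875 * (61 / 432) * d n ^ 2 - 0.00247875 * (115 / 1944) * d n ^ 3
  have s0 := ((fcc_PD.summable_phi zero_le_one).hasSum.sub (sym_direct a1 a2 a3 b1 b2 b3)).add
    ((s1.add s2).add s3)
  obtain ⟨l2, l4, l6⟩ := exp_lows
  have hle' := hasSum_le (fun n => ?_) s0 (h.summable_phi zero_le_one).hasSum
  · have hU := mul_le_mul_of_nonneg_left U3.2 (show 0 ≤ (a1 + a2 + a3) / 3 by linarith)
    simp only [hdd] at hle'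
    linarith
  · have hdn : d n = p.Q n - fcc.Q n := (hd n).symm
    by_cases hn : n = 0
    · subst hn
      have m1 : (0 : Z3) ∉ S1 := by decide
      have m2 : (0 : Z3) ∉ S2 := by decide
      have m3 : (0 : Z3) ∉ S3 := by decide
      simp [m1, m2, m3, ← hd]
    have hq := h.Q_pos hn
    have hq0 := fcc_PD.Q_pos hn
    have hl := hle n
    change _ - _ * d n + _ ≤ _
    by_cases m1 : n ∈ S1
    · have e := S1_nsq n m1
      have m2 : n ∉ S2 := fun m => by have := S2_nsq n m; omega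
      have m3 : n ∉ S3 := fun m => by have := S3_nsq n m; omega
      have e' : fcc.Q n = 2 := by rw [fcc_Q, e]; norm_num
      simp only [m1, m2, m3, if_true, if_false, add_zero, hdn]
      rw [e'] at hl ⊢
      exact shell_term (by norm_num) hq l2 (by unfold gam2; ring) (by unfold gam3; ring)
        (by norm_num) hl (by norm_num)
    by_cases m2 : n ∈ S2
    · have e := S2_nsq n m2
      have m3 : n ∉ S3 := fun m => by have := S3_nsq n m; omega
      have e' : fcc.Q n = 4 := by rw [fcc_Q, e]; norm_num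
      simp only [m1, m2, m3, if_true, if_false, add_zero, zero_add, hdn]
      rw [e'] at hl ⊢
      exact shell_term (by norm_num) hq l4 (by unfold gam2; ring) (by unfold gam3; ring)
        (by norm_num) hl (by norm_num)
    by_cases m3 : n ∈ S3
    · have e := S3_nsq n m3
      have e' : fcc.Q n = 6 := by rw [fcc_Q, e]; norm_num
      simp only [m1, m2, m3, if_true, if_false, add_zero, zero_add, hdn]
      rw [e'] at hl ⊢
      exact shell_term (by norm_num) hq l6 (by unfold gam2; ring) (by unfold gam3; ring)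
        (by norm_num) hl (by norm_num)
    · simp only [m1, m2, m3, if_false, add_zero, hdn]
      exact phi_linear hq0 hq

lemma dual_part {p : SP} (h : p.PD) (hk : p.kap = 4) {c1 c2 c3 d1 d2 d3 w : ℝ}
    (hd : ∀ k, p.Qd k = Hf c1 c2 c3 d1 d2 d3 (YY k) / 4) (hw : c1 + c2 + c3 = 3 + w) (hw0 : 0 ≤ w)
    (t : ℝ) (ht : 0 < t) (ht1 : t ≤ 1) :
    -(0.0408 * w * t ^ 5) ≤ t * (p.theta t - fcc.theta t) := by
  have hE : exp (-(7.4 : ℝ)) ≤ (0.000612 : ℚ) := by
    have := exp_neg_le 7.4 0.000612 30 (by norm_num) (by decide +kernel)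
    simpa using this
  have hπ := pi_pos
  have hπ1 := pi_gt_d6
  have hπ2 := pi_lt_d4
  set s := π ^ 2 / t with hs
  have hs0 : 9.86 ≤ s := by rw [hs, le_div_iff₀ ht]; nlinarith
  have hspos : 0 < s := by linarith
  obtain ⟨u1, u2⟩ := U4 hs0
  set S := ∑' k, exp (-(s * fcc.Qd k)) * fcc.Qd k with hS
  have s0 := (fcc_PD.summable_thetaD hspos).hasSum.sub
    (((sym_dual hs0 c1 c2 c3 d1 d2 d3).sub u1.hasSum).mul_left s)
  have h1 := hasSum_le (fun k => ?_) s0 (h.summable_thetaD hspos).hasSum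
  swap
  · rw [← hd]
    have e : exp (-(s * p.Qd k)) = exp (-(s * fcc.Qd k)) * exp (-(s * (p.Qd k - fcc.Qd k))) := by
      rw [← exp_add]; congr 1; ring
    rw [e]
    nlinarith [add_one_le_exp (-(s * (p.Qd k - fcc.Qd k))), exp_pos (-(s * fcc.Qd k))]
  have h2 : fcc.thetaD s - p.thetaD s ≤ s * (w / 3 * S) := by
    unfold SP.thetaD
    rw [hw, ← hS] at h1
    linarith
  rw [h.theta_eq ht, fcc_PD.theta_eq ht, hk, fcc_kap, ← hs]
  have h4 : √4 = 2 := by
    rw [show (4 : ℝ) = 2 ^ 2 by norm_num, Real.sqrt_sq (by norm_num)]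
  rw [h4]
  have h3 := sqrt_div_le (a := 1.7725) (τ := 1) (by norm_num) (by nlinarith) ht ht1
  have h5 := exp_decay (c := 3 / 4 * π ^ 2) (τ := 1) (m := 7) (by
    rw [div_one]; push_cast; nlinarith) ht ht1
  have h6 : exp (-(3 / 4 * π ^ 2 / 1)) ≤ 0.000612 := by
    refine le_trans ?_ (hE.trans (by norm_num))
    rw [exp_le_exp]; nlinarith
  have h7 : exp (-(3 / 4 * s)) ≤ 0.000612 * t ^ 7 := by
    rw [hs, ← mul_div_assoc]
    refine h5.trans ?_
    rw [div_one t]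
    gcongr
  have h8 : t * (π / t * √(π / t) / 2) ≤ 3.1416 * (1.7725 / t) / 2 := by
    have : t * (π / t * √(π / t) / 2) = π * √(π / t) / 2 := by field_simp
    rw [this]; gcongr
  have hs1 : s ≤ 9.87 / t := by
    rw [hs]; gcongr; nlinarith
  have h9 : s * (w / 3 * S) ≤ 9.87 / t * (w / 3 * (7.2 * (0.000612 * t ^ 7))) := by
    have : S ≤ 7.2 * (0.000612 * t ^ 7) := by linarith
    have hS0 : 0 ≤ S := tsum_nonneg fun k => by rw [fcc_Qd]; positivity
    gcongr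
  have h10 : t * (π / t * √(π / t) / 2) * (fcc.thetaD s - p.thetaD s)
      ≤ 3.1416 * (1.7725 / t) / 2 * (9.87 / t * (w / 3 * (7.2 * (0.000612 * t ^ 7)))) := by
    refine le_trans (mul_le_mul_of_nonneg_left (h2.trans h9) (by positivity)) ?_
    gcongr
  have e : 3.1416 * (1.7725 / t) / 2 * (9.87 / t * (w / 3 * (7.2 * (0.000612 * t ^ 7))))
      = 3.1416 * 1.7725 / 2 * 9.87 / 3 * 7.2 * 0.000612 * (w * t ^ 5) := by
    field_simp
  rw [e] at h10
  have h11 : 0 ≤ w * t ^ 5 := by positivity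
  nlinarith

/-- The estimate near the FCC form. -/
lemma SP.PD.near {p : SP} (h : p.PD) (hk : p.kap = 4) (l03 : 0 ≤ p.p03) (u03 : p.p03 ≤ p.p01 / 8)
    (l12 : 0 ≤ p.p12) (u12 : p.p12 ≤ p.p01 / 8) (l02 : 7 / 8 * p.p01 ≤ p.p02) (u02 : p.p02 ≤ p.p01)
    (l13 : 7 / 8 * p.p01 ≤ p.p13) (u13 : p.p13 ≤ p.p01) (l23 : 7 / 8 * p.p01 ≤ p.p23)
    (u23 : p.p23 ≤ p.p01) : fcc.Z ≤ p.Z := by
  obtain ⟨P, a, α, β, c, e⟩ := p
  simp only at *
  have hP0 : 0 ≤ P := by linarith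
  have hkap : (P * (a + β) + a * β) * (α + c) + α * c * (a + β)
      + e * (P * (a + β + (α + c)) + (a + α) * (β + c)) = 4 := hk
  have hP : 0 < P := by
    rcases hP0.eq_or_lt with h0 | h0
    · exfalso
      subst h0
      have : a = 0 := by linarith
      have : α = 0 := by linarith
      have : β = 0 := by linarith
      have : c = 0 := by linarith
      subst_vars
      norm_num at hkap
    · exact h0
  have ha0 : 0 < a := by linarith
  have hc0 : 0 < c := by linarith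
  have he0 : 0 < e := by linarith
  have hP1 : P ≤ 1.105 := by
    by_contra hh
    have hh : 1.105 < P := not_le.1 hh
    have k1 : P * a * c + P * a * e + P * c * e + a * c * e ≤ 4 := by
      have : 0 ≤ (P * (a + β) + a * β) * α + (P * β + a * β) * c + α * c * (a + β)
          + e * (P * (β + α) + a * β + α * (β + c)) := by positivity
      nlinarith
    have q1 : 1.105 * (0.966875 * 0.966875) ≤ P * (a * c) := by gcongr <;> linarith
    have q2 : 1.105 * (0.966875 * 0.966875) ≤ P * (a * e) := by gcongr <;> linarith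
    have q3 : 1.105 * (0.966875 * 0.966875) ≤ P * (c * e) := by gcongr <;> linarith
    have q4 : 0.966875 * (0.966875 * 0.966875) ≤ a * (c * e) := by gcongr <;> linarith
    nlinarith
  set σ := (P + a + c + e) / 4 with hσ
  set b1 := (-P + c - e + a) / 4 with hb1
  set b2 := (P - c - e + a) / 4 with hb2
  set b3 := (-P - c + e + a) / 4 with hb3
  have hdet : (σ + α) * (σ + β) * σ - σ * b1 ^ 2 - (σ + β) * b2 ^ 2 - (σ + α) * b3 ^ 2
      + 2 * (b1 * b2 * b3) = 1 := by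
    rw [hσ, hb1, hb2, hb3]; linear_combination hkap / 4
  have hσ1 : 7 / 8 * P ≤ σ := by rw [hσ]; linarith
  have hσ2 : σ ≤ P := by rw [hσ]; linarith
  have hσ0 : 0 < σ := by linarith
  have sq : ∀ b : ℝ, -(P / 16) ≤ b → b ≤ P / 16 → b ^ 2 ≤ P ^ 2 / 256 := fun b h1 h2 => by
    nlinarith
  have q1 := sq b1 (by rw [hb1]; linarith) (by rw [hb1]; linarith)
  have q2 := sq b2 (by rw [hb2]; linarith) (by rw [hb2]; linarith)
  have q3 := sq b3 (by rw [hb3]; linarith) (by rw [hb3]; linarith)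
  have hσσ : P ^ 2 / 256 < σ * σ := by nlinarith
  have m12 : σ * σ ≤ (σ + α) * (σ + β) := by gcongr <;> linarith
  have m13 : σ * σ ≤ (σ + α) * σ := by gcongr; linarith
  have m23 : σ * σ ≤ (σ + β) * σ := by gcongr; linarith
  have ht0 := trace_ge (x := σ + α) (y := σ + β) (z := σ) (d := b1) (e := b2) (f := b3)
    (by linarith) (by linarith) hσ0 (by linarith) hdet
  have hw0 := trace_ge (x := (σ + β) * σ - b3 ^ 2) (y := (σ + α) * σ - b2 ^ 2)
    (z := (σ + α) * (σ + β) - b1 ^ 2) (d := b2 * b3 - b1 * σ) (e := b1 * b3 - b2 * (σ + β))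
    (f := b1 * b2 - b3 * (σ + α)) (by linarith) (by linarith) (by linarith)
    (by
      have : ((σ + β) * σ - b3 ^ 2) * ((σ + α) * σ - b2 ^ 2) - (b2 * b3 - b1 * σ) ^ 2 = σ := by
        linear_combination σ * hdet
      linarith)
    (by
      linear_combination ((σ + α) * (σ + β) * σ - σ * b1 ^ 2 - (σ + β) * b2 ^ 2 - (σ + α) * b3 ^ 2
        + 2 * (b1 * b2 * b3) + 1) * hdet)
  set t := 3 * σ + α + β - 3 with ht
  have hcon : t + ((σ + α - 1) * (σ + β - 1) + (σ + α - 1) * (σ - 1) + (σ + β - 1) * (σ - 1)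
      - (b1 ^ 2 + b2 ^ 2 + b3 ^ 2)) + detH (σ + α - 1) (σ + β - 1) (σ - 1) b1 b2 b3 = 0 := by
    rw [ht, detH]; linear_combination hdet
  have hdir := direct_part h (a1 := σ + α - 1) (a2 := σ + β - 1) (a3 := σ - 1) (b1 := b1)
    (b2 := b2) (b3 := b3) (fun n => by
      simp only [SP.Q, SP.q, fcc, Hf, XX, hσ, hb1, hb2, hb3]; push_cast; ring)
    (fun n => by
      simp only [SP.Q, SP.q, fcc]
      generalize ((n.1 : ℤ) : ℝ) = x
      generalize ((n.2.1 : ℤ) : ℝ) = y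
      generalize ((n.2.2 : ℤ) : ℝ) = z
      have r1 : P * x ^ 2 ≤ 1.105 * x ^ 2 := by gcongr
      have r2 : a * y ^ 2 ≤ 1.105 * y ^ 2 := by gcongr; linarith
      have r3 : α * z ^ 2 ≤ 0.14 * z ^ 2 := by gcongr; linarith
      have r4 : β * (x - y) ^ 2 ≤ 0.14 * (x - y) ^ 2 := by gcongr; linarith
      have r5 : c * (x - z) ^ 2 ≤ 1.105 * (x - z) ^ 2 := by gcongr; linarith
      have r6 : e * (y - z) ^ 2 ≤ 1.105 * (y - z) ^ 2 := by gcongr; linarith
      nlinarith [sq_nonneg (x + y - z), sq_nonneg x, sq_nonneg y, sq_nonneg (x - z),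
        sq_nonneg (y - z)])
    (by linarith)
  set w := t - detH (σ + α - 1) (σ + β - 1) (σ - 1) b1 b2 b3 with hw
  have hw1 : (σ + β) * σ - b3 ^ 2 + ((σ + α) * σ - b2 ^ 2) + ((σ + α) * (σ + β) - b1 ^ 2)
      = 3 + w := by
    rw [hw]; linear_combination hcon - 2 * ht
  have hw2 : 0 ≤ w := by linarith
  have hdual := dual_part h hk (c1 := (σ + β) * σ - b3 ^ 2) (c2 := (σ + α) * σ - b2 ^ 2)
    (c3 := (σ + α) * (σ + β) - b1 ^ 2) (d1 := b2 * b3 - b1 * σ) (d2 := b1 * b3 - b2 * (σ + β))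
    (d3 := b1 * b2 - b3 * (σ + α)) (w := w) (fun k => by
      rw [SP.Qd, hk]
      simp only [SP.adj, SP.g11, SP.g22, SP.g33, Hf, YY, hσ, hb1, hb2, hb3]; push_cast; ring)
    hw1 hw2
  have hew := h.ewald fcc_PD (τ := 1) (c := 0.0408 * w) one_pos (by positivity) 5 hdual
  have hpoly := local_poly (t := t) (e1 := (2 * α - β) / 3) (e2 := (2 * β - α) / 3) (b1 := b1)
    (b2 := b2) (b3 := b3) (a1 := σ + α - 1) (a2 := σ + β - 1) (a3 := σ - 1)
    (by rw [ht]; ring) (by rw [ht]; ring) (by rw [ht]; ring) (by linarith) (by linarith)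
    (by linarith) (by linarith) (by linarith)
    (by
      have u1 : α ≤ 0.1382 := by linarith
      have u2 : β ≤ 0.1382 := by linarith
      rcases le_total α β with hh | hh <;> nlinarith)
    (by rw [hb1]; linarith) (by rw [hb1]; linarith) (by nlinarith) hcon
  have e1 : σ + α - 1 + (σ + β - 1) + (σ - 1) = t := by rw [ht]; ring
  rw [e1] at hdir
  rw [← hw] at hpoly
  norm_num at hew
  linarith

end Pool.Agent.Lib.MP_3a1514_mp
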