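import Pool.Agent.Lib.MP_3a1514_mp.FccSums

/-! Polynomial part of the local estimate near the FCC form. -/

open Real

namespace Pool.Agent.Lib.MP_3a1514_mp

def Hf (a1 a2 a3 b1 b2 b3 : ℝ) (x : Z3) : ℝ :=
  a1 * (x.1 : ℝ) ^ 2 + a2 * (x.2.1 : ℝ) ^ 2 + a3 * (x.2.2 : ℝ) ^ 2 + 2 * b1 * (x.1 * x.2.1)
    + 2 * b2 * (x.1 * x.2.2) + 2 * b3 * (x.2.1 * x.2.2)

def S1 : Finset Z3 := ⟨↑([(0, -1, -1), (-1, -1, -1), (0, 0, -1), (-1, 0, -1), (0, -1, 0), (1, 0, 0),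
  (-1, 0, 0), (0, 1, 0), (1, 0, 1), (0, 0, 1), (1, 1, 1), (0, 1, 1)] : List Z3), by decide⟩

def S2 : Finset Z3 := ⟨↑([(-1, -1, -2), (1, -1, 0), (-1, -1, 0), (1, 1, 0), (-1, 1, 0),
  (1, 1, 2)] : List Z3), by decide⟩

def S3 : Finset Z3 := ⟨↑([(-1, -2, -2), (0, -1, -2), (-2, -1, -2), (-1, 0, -2), (0, -2, -1),
  (1, -1, -1), (-1, -2, -1), (1, 0, -1), (-2, -1, -1), (0, 1, -1), (-2, 0, -1), (-1, 1, -1),
  (1, -1, 1), (2, 0, 1), (0, -1, 1), (2, 1, 1), (-1, 0, 1), (1, 2, 1), (-1, 1, 1), (0, 2, 1),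
  (1, 0, 2), (2, 1, 2), (0, 1, 2), (1, 2, 2)] : List Z3), by decide⟩

lemma S1_nsq : ∀ n ∈ S1, nsq (XX n) = 2 := by decide
lemma S2_nsq : ∀ n ∈ S2, nsq (XX n) = 4 := by decide
lemma S3_nsq : ∀ n ∈ S3, nsq (XX n) = 6 := by decide

def mom2 (m4 m22 a1 a2 a3 b1 b2 b3 : ℝ) : ℝ :=
  m4 * (a1 ^ 2 + a2 ^ 2 + a3 ^ 2)
    + m22 * (2 * (a1 * a2 + a1 * a3 + a2 * a3) + 4 * (b1 ^ 2 + b2 ^ 2 + b3 ^ 2))

def mom3 (m6 m42 m222 a1 a2 a3 b1 b2 b3 : ℝ) : ℝ :=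
  m6 * (a1 ^ 3 + a2 ^ 3 + a3 ^ 3)
    + 3 * m42 * (a1 ^ 2 * (a2 + a3) + a2 ^ 2 * (a1 + a3) + a3 ^ 2 * (a1 + a2))
    + 6 * m222 * (a1 * a2 * a3)
    + 12 * (b1 ^ 2 * ((a1 + a2) * m42 + a3 * m222) + b2 ^ 2 * ((a1 + a3) * m42 + a2 * m222)
      + b3 ^ 2 * ((a2 + a3) * m42 + a1 * m222)) + 48 * m222 * (b1 * b2 * b3)

lemma sum_S1 (c2 c3 a1 a2 a3 b1 b2 b3 : ℝ) :
    ∑ n ∈ S1, (c2 * Hf a1 a2 a3 b1 b2 b3 (XX n) ^ 2 - c3 * Hf a1 a2 a3 b1 b2 b3 (XX n) ^ 3)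
      = c2 * mom2 8 4 a1 a2 a3 b1 b2 b3 - c3 * mom3 8 4 0 a1 a2 a3 b1 b2 b3 := by
  simp only [S1, Finset.sum_mk, Multiset.map_coe, Multiset.sum_coe, List.map_cons, List.map_nil,
    List.sum_cons, List.sum_nil, Hf, XX, mom2, mom3]
  push_cast
  ring

lemma sum_S2 (c2 c3 a1 a2 a3 b1 b2 b3 : ℝ) :
    ∑ n ∈ S2, (c2 * Hf a1 a2 a3 b1 b2 b3 (XX n) ^ 2 - c3 * Hf a1 a2 a3 b1 b2 b3 (XX n) ^ 3)
      = c2 * mom2 32 0 a1 a2 a3 b1 b2 b3 - c3 * mom3 128 0 0 a1 a2 a3 b1 b2 b3 := by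
  simp only [S2, Finset.sum_mk, Multiset.map_coe, Multiset.sum_coe, List.map_cons, List.map_nil,
    List.sum_cons, List.sum_nil, Hf, XX, mom2, mom3]
  push_cast
  ring

lemma sum_S3 (c2 c3 a1 a2 a3 b1 b2 b3 : ℝ) :
    ∑ n ∈ S3, (c2 * Hf a1 a2 a3 b1 b2 b3 (XX n) ^ 2 - c3 * Hf a1 a2 a3 b1 b2 b3 (XX n) ^ 3)
      = c2 * mom2 144 72 a1 a2 a3 b1 b2 b3 - c3 * mom3 528 168 96 a1 a2 a3 b1 b2 b3 := by
  simp only [S3, Finset.sum_mk, Multiset.map_coe, Multiset.sum_coe, List.map_cons, List.map_nil,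
    List.sum_cons, List.sum_nil, Hf, XX, mom2, mom3]
  push_cast
  ring

def detH (a1 a2 a3 b1 b2 b3 : ℝ) : ℝ :=
  a1 * a2 * a3 - a3 * b1 ^ 2 - a2 * b2 ^ 2 - a1 * b3 ^ 2 + 2 * (b1 * b2 * b3)

lemma local_poly {t e1 e2 b1 b2 b3 a1 a2 a3 : ℝ} (ha1 : a1 = t / 3 + e1) (ha2 : a2 = t / 3 + e2)
    (ha3 : a3 = t / 3 - e1 - e2) (ht1 : t ≤ 0.6)
    (h1 : -0.0921 ≤ e1) (h2 : -0.0921 ≤ e2) (h3 : 0 ≤ e1 + e2) (h3' : e1 + e2 ≤ 0.0921)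
    (hee : e1 ^ 2 + e2 ^ 2 + (e1 + e2) ^ 2 ≤ 0.0128)
    (hb1 : -0.0691 ≤ b1) (hb1' : b1 ≤ 0.0691) (hbb : b1 ^ 2 + b2 ^ 2 + b3 ^ 2 ≤ 0.0144)
    (hdet : t + (a1 * a2 + a1 * a3 + a2 * a3 - (b1 ^ 2 + b2 ^ 2 + b3 ^ 2))
      + detH a1 a2 a3 b1 b2 b3 = 0) :
    0 ≤ -(1.446 * t) - 0.0068 * (t - detH a1 a2 a3 b1 b2 b3)
      + ((0.135335 * (19 / 16) * mom2 8 4 a1 a2 a3 b1 b2 b3
          - 0.135335 * (7 / 8) * mom3 8 4 0 a1 a2 a3 b1 b2 b3)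
        + (0.0183156 * (71 / 256) * mom2 32 0 a1 a2 a3 b1 b2 b3
          - 0.0183156 * (103 / 768) * mom3 128 0 0 a1 a2 a3 b1 b2 b3)
        + (0.00247875 * (61 / 432) * mom2 144 72 a1 a2 a3 b1 b2 b3
          - 0.00247875 * (115 / 1944) * mom3 528 168 96 a1 a2 a3 b1 b2 b3)) := by
  set ee := e1 ^ 2 + e2 ^ 2 + (e1 + e2) ^ 2 with hee_def
  set bb := b1 ^ 2 + b2 ^ 2 + b3 ^ 2 with hbb_def
  set E := e1 * e2 * (-(e1 + e2)) with hE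
  set eb := -(e1 + e2) * b1 ^ 2 + e2 * b2 ^ 2 + e1 * b3 ^ 2 with heb
  set bbb := b1 * b2 * b3 with hbbb
  have key : -(1.446 * t) - 0.0068 * (t - detH a1 a2 a3 b1 b2 b3)
      + ((0.135335 * (19 / 16) * mom2 8 4 a1 a2 a3 b1 b2 b3
          - 0.135335 * (7 / 8) * mom3 8 4 0 a1 a2 a3 b1 b2 b3)
        + (0.0183156 * (71 / 256) * mom2 32 0 a1 a2 a3 b1 b2 b3
          - 0.0183156 * (103 / 768) * mom3 128 0 0 a1 a2 a3 b1 b2 b3)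
        + (0.00247875 * (61 / 432) * mom2 144 72 a1 a2 a3 b1 b2 b3
          - 0.00247875 * (115 / 1944) * mom3 528 168 96 a1 a2 a3 b1 b2 b3))
      = 0.104192825 * ee + 1.2193675 * bb + 85750369 / 60000000 * t ^ 2 + 1.84234535 * E
        - 1.5683753 * (t * ee) - 19353239 / 45000000 * t ^ 3 + 2610697 / 600000 * eb
        - 1358789 / 300000 * (t * bb) + 25239.5 / 11250 * bbb := by
    rw [hee_def, hbb_def, hE, heb, hbbb]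
    simp only [detH, mom2, mom3] at hdet ⊢
    subst ha1 ha2 ha3
    linear_combination (-1.4528 : ℝ) * hdet
  rw [key]
  have hee0 : 0 ≤ ee := by positivity
  have hbb0 : 0 ≤ bb := by positivity
  have i1 : -(0.0921 / 6 * ee) ≤ E := by
    have u1 : 0 ≤ (0.0921 - (e1 + e2)) * ee := mul_nonneg (by linarith) hee0
    have u2 : 0 ≤ (e1 + e2) * (e1 - e2) ^ 2 := mul_nonneg h3 (sq_nonneg _)
    have : E + 0.0921 / 6 * ee = (0.0921 - (e1 + e2)) * ee / 6 + (e1 + e2) * (e1 - e2) ^ 2 / 3 := by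
      rw [hE, hee_def]; ring
    linarith
  have i2 : -(0.0921 * bb) ≤ eb := by
    have u1 : 0 ≤ (0.0921 - (e1 + e2)) * b1 ^ 2 := mul_nonneg (by linarith) (sq_nonneg _)
    have u2 : 0 ≤ (0.0921 + e2) * b2 ^ 2 := mul_nonneg (by linarith) (sq_nonneg _)
    have u3 : 0 ≤ (0.0921 + e1) * b3 ^ 2 := mul_nonneg (by linarith) (sq_nonneg _)
    rw [heb, hbb_def]; nlinarith
  have i3 : -(0.0691 / 2 * bb) ≤ bbb := by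
    have u1 : 0 ≤ (0.0691 + b1) * (b2 + b3) ^ 2 := mul_nonneg (by linarith) (sq_nonneg _)
    have u2 : 0 ≤ (0.0691 - b1) * (b2 - b3) ^ 2 := mul_nonneg (by linarith) (sq_nonneg _)
    rw [hbbb, hbb_def]; nlinarith [sq_nonneg b1]
  have i4 : t ^ 3 ≤ 0.6 * t ^ 2 := by nlinarith [sq_nonneg t]
  have i5 : 1.5683753 * (t * ee) ≤ 0.5 * t ^ 2 + 1.23 * (0.0128 * ee) := by
    nlinarith [sq_nonneg (t - 1.5683753 * ee), mul_le_mul_of_nonneg_left hee hee0]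
  have i6 : 1358789 / 300000 * (t * bb) ≤ 0.65 * t ^ 2 + 7.9 * (0.0144 * bb) := by
    nlinarith [sq_nonneg (1.3 * t - 1358789 / 300000 * bb), mul_le_mul_of_nonneg_left hbb hbb0]
  nlinarith [sq_nonneg t]

lemma amgm3 {x y z : ℝ} (hx : 0 < x) (hy : 0 < y) (hz : 0 < z) (h : 1 ≤ x * y * z) :
    3 ≤ x + y + z := by
  by_contra hh
  have hs : x + y + z < 3 := not_le.1 hh
  have h1 : 27 * (x * y * z) ≤ (x + y + z) ^ 3 := by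
    nlinarith [mul_nonneg hx.le (sq_nonneg (y - z)), mul_nonneg hy.le (sq_nonneg (x - z)),
      mul_nonneg hz.le (sq_nonneg (x - y)),
      mul_nonneg (add_pos (add_pos hx hy) hz).le
        (add_nonneg (add_nonneg (sq_nonneg (x - y)) (sq_nonneg (y - z))) (sq_nonneg (x - z)))]
  have h2 : (x + y + z) ^ 3 < 3 ^ 3 := pow_lt_pow_left₀ hs (by positivity) (by norm_num)
  linarith

lemma trace_ge {x y z d e f : ℝ} (hx : 0 < x) (hy : 0 < y) (hz : 0 < z) (hd : d ^ 2 ≤ x * y)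
    (h : x * y * z - z * d ^ 2 - y * e ^ 2 - x * f ^ 2 + 2 * (d * e * f) = 1) : 3 ≤ x + y + z := by
  refine amgm3 hx hy hz ?_
  have h1 : 0 ≤ x * (x * f ^ 2 + y * e ^ 2 - 2 * (d * e * f)) := by
    nlinarith [sq_nonneg (x * f - d * e), mul_nonneg (sub_nonneg.2 hd) (sq_nonneg e)]
  have h2 : 0 ≤ x * f ^ 2 + y * e ^ 2 - 2 * (d * e * f) := nonneg_of_mul_nonneg_right h1 hx |> id
  nlinarith [mul_nonneg hz.le (sq_nonneg d)]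

end Pool.Agent.Lib.MP_3a1514_mp
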