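import Pool.Agent.Lib.MP_3a1514_mp.Reduce
import Pool.Agent.Lib.MP_3a1514_mp.CertAll

/-! FCC minimises the Epstein zeta value at s = 2 among ternary forms of determinant 4. -/

namespace Pool.Agent.Lib.MP_3a1514_mp

theorem fcc_min {p : SP} (hp : p.PD) (hk : p.kap = 4) : fcc.Z ≤ p.Z := by
  refine reduce ?_ hp hk
  intro a b c d e f hb hc hd he hf cb db eb ba fa h1 h2
  have ha : 0 < a := by
    rcases (hb.trans ba).eq_or_lt with h0 | h0
    · exfalso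
      have : b = 0 := by linarith
      have : c = 0 := by linarith
      have : d = 0 := by linarith
      have : e = 0 := by linarith
      subst_vars
      simp [SP.kap] at h2
    · exact h0
  set l := a / 1024 with hl
  have hl0 : 0 < l := by positivity
  have e1 : (⟨a, b, c, d, e, f⟩ : SP) = sp l (b / l) (c / l) (d / l) (e / l) (f / l) := by
    simp only [sp, SP.mk.injEq, mul_div_cancel₀ _ hl0.ne', and_self, and_true]
    rw [hl]; ring
  have up : ∀ x : ℝ, x ≤ a → x / l ≤ 1024 := fun x hx => by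
    rw [div_le_iff₀ hl0, hl]; linarith
  rw [e1] at h1 h2 ⊢
  refine good_all l _ _ _ _ _ ⟨hl0, h1, h2, by gcongr, by gcongr, by gcongr, up _ ba, up _ fa⟩
    ?_ ?_ ?_ ?_ ?_ ?_ ?_ ?_ ?_ ?_ <;> push_cast <;>
    first | positivity | (apply up; linarith)

def e3 : Z3 ≃ (Fin 3 → ℤ) where
  toFun n := ![n.1, n.2.1, n.2.2]
  invFun x := (x 0, x 1, x 2)
  left_inv n := by simp
  right_inv x := by funext i; fin_cases i <;> simp

noncomputable def ofMat (A : Matrix (Fin 3) (Fin 3) ℝ) (s : ℝ) : SP :=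
  ⟨s * ∑ i, A i 0 * (A i 0 + A i 1 + A i 2), s * ∑ i, A i 1 * (A i 0 + A i 1 + A i 2),
    s * ∑ i, A i 2 * (A i 0 + A i 1 + A i 2), -(s * ∑ i, A i 0 * A i 1),
    -(s * ∑ i, A i 0 * A i 2), -(s * ∑ i, A i 1 * A i 2)⟩

lemma ofMat_q (A : Matrix (Fin 3) (Fin 3) ℝ) (s x y z : ℝ) :
    (ofMat A s).q x y z = s * ∑ i, (A.mulVec ![x, y, z] i) ^ 2 := by
  simp [SP.q, ofMat, Matrix.mulVec, dotProduct, Fin.sum_univ_three]; ring

lemma ofMat_kap (A : Matrix (Fin 3) (Fin 3) ℝ) (s : ℝ) :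
    (ofMat A s).kap = s ^ 3 * A.det ^ 2 := by
  have e : (ofMat A s).gram = s • (A.transpose * A) := by
    ext i j
    fin_cases i <;> fin_cases j <;>
      simp [-mul_eq_mul_left_iff, SP.gram, Matrix.mul_apply, Fin.sum_univ_three, ofMat, SP.g11,
        SP.g22, SP.g33] <;> ring
  rw [SP.kap_eq_det, e, Matrix.det_smul, Matrix.det_mul, Matrix.det_transpose]
  simp [sq]

lemma ofMat_PD {A : Matrix (Fin 3) (Fin 3) ℝ} (hA : A.det ≠ 0) {s : ℝ} (hs : 0 < s) :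
    (ofMat A s).PD := by
  intro x y z h
  rw [ofMat_q]
  refine mul_pos hs (lt_of_le_of_ne (Finset.sum_nonneg fun i _ => sq_nonneg _) fun h0 => h ?_)
  have h1 := (Finset.sum_eq_zero_iff_of_nonneg fun i _ => sq_nonneg _).1 h0.symm
  have h2 : A.mulVec ![x, y, z] = 0 := by
    funext i; simpa using h1 i (Finset.mem_univ i)
  have h3 := Matrix.eq_zero_of_mulVec_eq_zero hA h2
  exact ⟨by simpa using congrFun h3 0, by simpa using congrFun h3 1, by simpa using congrFun h3 2⟩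

theorem main (V : ℝ) (hV : 0 < V) (A : Matrix (Fin 3) (Fin 3) ℝ) (hA : |A.det| = V) :
    (∑' x : {x : Fin 3 → ℤ // x ≠ 0 ∧ Even (x 0 + x 1 + x 2)},
        ((∑ i : Fin 3, ((V / 2) ^ ((1 : ℝ) / 3) * ((x.1 i : ℤ) : ℝ)) ^ 2) ^ 2)⁻¹)
      ≤ ∑' n : {n : Fin 3 → ℤ // n ≠ 0},
        ((∑ i : Fin 3, ((A.mulVec (fun j => ((n.1 j : ℤ) : ℝ))) i) ^ 2) ^ 2)⁻¹ := by
  set c := (V / 2) ^ ((1 : ℝ) / 3) with hc
  have hc0 : 0 < c := Real.rpow_pos_of_pos (by linarith) _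
  have hc3 : c ^ 3 = V / 2 := by
    rw [hc, ← Real.rpow_natCast, ← Real.rpow_mul (by linarith)]; norm_num
  have hd : A.det ≠ 0 := fun h => by rw [h, abs_zero] at hA; linarith
  have hp := ofMat_PD hd (s := (c ^ 2)⁻¹) (by positivity)
  have hk : (ofMat A (c ^ 2)⁻¹).kap = 4 := by
    rw [ofMat_kap, ← sq_abs A.det, hA, inv_pow, ← pow_mul, mul_comm 2 3, pow_mul, hc3]
    field_simp; norm_num
  have key := fcc_min hp hk
  have hR : ∑' n : {n : Fin 3 → ℤ // n ≠ 0},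
      ((∑ i : Fin 3, ((A.mulVec (fun j => ((n.1 j : ℤ) : ℝ))) i) ^ 2) ^ 2)⁻¹
      = (c ^ 4)⁻¹ * (ofMat A (c ^ 2)⁻¹).Z := by
    have h1 := tsum_subtype_eq_of_support_subset (s := {n : Fin 3 → ℤ | n ≠ 0})
      (f := fun n : Fin 3 → ℤ =>
        ((∑ i : Fin 3, ((A.mulVec (fun j => ((n j : ℤ) : ℝ))) i) ^ 2) ^ 2)⁻¹) (by
        intro n hn h0
        apply hn
        subst h0
        simp [Matrix.mulVec, dotProduct])
    refine Eq.trans h1 ?_
    rw [← e3.tsum_eq, SP.Z, ← tsum_mul_left]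
    refine tsum_congr fun n => ?_
    have : (fun j : Fin 3 => ((e3 n j : ℤ) : ℝ)) = ![(n.1 : ℝ), n.2.1, n.2.2] := by
      funext j; fin_cases j <;> simp [e3]
    rw [this, SP.Q, ofMat_q, mul_pow, mul_inv, ← mul_assoc]
    have : (c ^ 4)⁻¹ * ((c ^ 2)⁻¹ ^ 2)⁻¹ = 1 := by field_simp
    rw [this, one_mul]
  have hL : (∑' x : {x : Fin 3 → ℤ // x ≠ 0 ∧ Even (x 0 + x 1 + x 2)},
      ((∑ i : Fin 3, (c * ((x.1 i : ℤ) : ℝ)) ^ 2) ^ 2)⁻¹) ≤ (c ^ 4)⁻¹ * fcc.Z := by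
    let ι : {x : Fin 3 → ℤ // x ≠ 0 ∧ Even (x 0 + x 1 + x 2)} → Z3 := fun x =>
      ((x.1 0 - x.1 1 + x.1 2) / 2, (x.1 0 + x.1 1 + x.1 2) / 2, x.1 0)
    have hX : ∀ x, XX (ι x) = (x.1 0, x.1 1, x.1 2) := by
      intro x
      obtain ⟨k, hk⟩ := x.2.2
      simp only [XX, ι, Prod.mk.injEq]
      generalize x.1 0 = u at *
      generalize x.1 1 = v at *
      generalize x.1 2 = w at *
      refine ⟨?_, ?_, ?_⟩ <;> first | trivial | omega
    have hι : Function.Injective ι := by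
      intro x y h
      have := congrArg XX h
      rw [hX, hX] at this
      simp only [Prod.mk.injEq] at this
      refine Subtype.ext ?_
      funext i; fin_cases i
      · exact this.1
      · exact this.2.1
      · exact this.2.2
    have hs := fcc_PD.summable_Z.mul_left (c ^ 4)⁻¹
    have hf : ∀ x : {x : Fin 3 → ℤ // x ≠ 0 ∧ Even (x 0 + x 1 + x 2)},
        ((∑ i : Fin 3, (c * ((x.1 i : ℤ) : ℝ)) ^ 2) ^ 2)⁻¹ = (c ^ 4)⁻¹ * (fcc.Q (ι x) ^ 2)⁻¹ := by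
      intro x
      rw [fcc_Q, nsq_cast, hX, Fin.sum_univ_three, ← mul_inv]
      congr 1; ring
    rw [SP.Z, ← tsum_mul_left]
    simp_rw [hf]
    exact (hs.comp_injective hι).tsum_le_tsum_of_inj ι hι (fun n _ => by positivity)
      (fun x => le_rfl) hs
  rw [hR]
  exact hL.trans (mul_le_mul_of_nonneg_left key (by positivity))

end Pool.Agent.Lib.MP_3a1514_mp
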