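import Pool.Agent.Lib.MP_3a1514_mp.Form

/-! Poisson summation for ternary Gaussians, by three one-dimensional steps. -/

open Real

namespace Pool.Agent.Lib.MP_3a1514_mp

noncomputable def EE (R Φ : ℝ) : ℂ := Complex.exp (-(R : ℂ) + (Φ : ℂ) * Complex.I)

lemma norm_EE (R Φ : ℝ) : ‖EE R Φ‖ = exp (-R) := by
  simp [EE, Complex.norm_exp]

lemma EE_zero (R : ℝ) : EE R 0 = ((exp (-R) : ℝ) : ℂ) := by
  simp [EE]

lemma poisson1 {a : ℝ} (ha : 0 < a) (c φ R0 Φ0 : ℝ) :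
    ∑' n : ℤ, EE (π * (a * (n + c) ^ 2) + R0) (2 * π * φ * n + Φ0)
      = (((√a)⁻¹ : ℝ) : ℂ) *
        ∑' m : ℤ, EE (π * ((m - φ) ^ 2 / a) + R0) (2 * π * (m - φ) * c + Φ0) := by
  have h := Complex.tsum_exp_neg_quadratic (a := (a : ℂ)) (by simpa using ha)
    (-(a : ℂ) * c + Complex.I * φ)
  have hs : (1 : ℂ) / (a : ℂ) ^ (1 / 2 : ℂ) = (((√a)⁻¹ : ℝ) : ℂ) := by
    rw [Real.sqrt_eq_rpow, Complex.ofReal_inv, Complex.ofReal_cpow ha.le]
    simp
  rw [hs] at h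
  set κ : ℂ := Complex.exp (-(π * a * c ^ 2 + R0 : ℝ) + (Φ0 : ℂ) * Complex.I) with hκ
  have ha' : (a : ℂ) ≠ 0 := by exact_mod_cast ha.ne'
  have e1 : ∀ n : ℤ, EE (π * (a * (n + c) ^ 2) + R0) (2 * π * φ * n + Φ0)
      = κ * Complex.exp (-π * a * n ^ 2 + 2 * π * (-(a : ℂ) * c + Complex.I * φ) * n) := by
    intro n
    rw [EE, hκ, ← Complex.exp_add]
    congr 1
    push_cast
    ring
  have e2 : ∀ m : ℤ, EE (π * ((m - φ) ^ 2 / a) + R0) (2 * π * (m - φ) * c + Φ0)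
      = κ * Complex.exp (-π / a * (m + Complex.I * (-(a : ℂ) * c + Complex.I * φ)) ^ 2) := by
    intro m
    rw [EE, hκ, ← Complex.exp_add]
    congr 1
    push_cast
    have hI : Complex.I * Complex.I = -1 := Complex.I_mul_I
    have e : (m + Complex.I * (-(a : ℂ) * c + Complex.I * φ)) = (m - φ) - Complex.I * a * c := by
      linear_combination (φ : ℂ) * hI
    rw [e]
    field_simp
    linear_combination (π * (a : ℂ) ^ 2 * (c : ℂ) ^ 2) * hI
  simp_rw [e1, e2, tsum_mul_left, h]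
  ring

lemma tsum_step1 {β : Type} {F G : ℤ × β → ℂ} (hF : Summable F) (hG : Summable G) (κ : ℂ)
    (h : ∀ b, ∑' a, F (a, b) = κ * ∑' a, G (a, b)) : ∑' x, F x = κ * ∑' x, G x := by
  rw [← (Equiv.prodComm β ℤ).tsum_eq F, ← (Equiv.prodComm β ℤ).tsum_eq G]
  have hF' : Summable fun x : β × ℤ => F (Equiv.prodComm β ℤ x) :=
    (Equiv.prodComm β ℤ).summable_iff.2 hF
  have hG' : Summable fun x : β × ℤ => G (Equiv.prodComm β ℤ x) :=
    (Equiv.prodComm β ℤ).summable_iff.2 hG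
  rw [hF'.tsum_prod, hG'.tsum_prod, ← tsum_mul_left]
  exact tsum_congr h

lemma tsum_step2 {F G : Z3 → ℂ} (hF : Summable F) (hG : Summable G) (κ : ℂ)
    (h : ∀ a c, ∑' b, F (a, b, c) = κ * ∑' b, G (a, b, c)) : ∑' x, F x = κ * ∑' x, G x := by
  rw [hF.tsum_prod, hG.tsum_prod, ← tsum_mul_left]
  refine tsum_congr fun a => ?_
  exact tsum_step1 (hF.prod_factor a) (hG.prod_factor a) κ (h a)

lemma tsum_step3 {F G : Z3 → ℂ} (hF : Summable F) (hG : Summable G) (κ : ℂ)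
    (h : ∀ a b, ∑' c, F (a, b, c) = κ * ∑' c, G (a, b, c)) : ∑' x, F x = κ * ∑' x, G x := by
  rw [hF.tsum_prod, hG.tsum_prod, ← tsum_mul_left]
  refine tsum_congr fun a => ?_
  rw [(hF.prod_factor a).tsum_prod, (hG.prod_factor a).tsum_prod, ← tsum_mul_left]
  exact tsum_congr (h a)

lemma pos3 {a b c u v w : ℝ} (ha : 0 < a) (hb : 0 < b) (hc : 0 < c)
    (h : ¬ (u = 0 ∧ v = 0 ∧ w = 0)) : 0 < a * u ^ 2 + b * v ^ 2 + c * w ^ 2 := by
  by_contra hh
  apply h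
  have h1 := mul_nonneg ha.le (sq_nonneg u)
  have h2 := mul_nonneg hb.le (sq_nonneg v)
  have h3 := mul_nonneg hc.le (sq_nonneg w)
  refine ⟨?_, ?_, ?_⟩
  · have : a * u ^ 2 = 0 := by linarith
    simpa [ha.ne'] using this
  · have : b * v ^ 2 = 0 := by linarith
    simpa [hb.ne'] using this
  · have : c * w ^ 2 = 0 := by linarith
    simpa [hc.ne'] using this

lemma summable_EE (f : ℝ → ℝ → ℝ → ℝ) (hc : Continuous fun v : ℝ × ℝ × ℝ => f v.1 v.2.1 v.2.2)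
    (hh : ∀ s x y z, f (s * x) (s * y) (s * z) = s ^ 2 * f x y z)
    (hp : ∀ x y z, ¬ (x = 0 ∧ y = 0 ∧ z = 0) → 0 < f x y z) (Φ : Z3 → ℝ) :
    Summable fun n : Z3 => EE (f n.1 n.2.1 n.2.2) (Φ n) := by
  refine Summable.of_norm ?_
  simp_rw [norm_EE]
  exact summable_exp_neg f hc hh hp

lemma poisson3 {d1 d2 d3 : ℝ} (h1 : 0 < d1) (h2 : 0 < d2) (h3 : 0 < d3) (l12 l13 l23 : ℝ) :
    ∑' n : Z3, exp (-(π * (d1 * (n.1 + (l12 * n.2.1 + l13 * n.2.2)) ^ 2
        + d2 * (n.2.1 + l23 * n.2.2) ^ 2 + d3 * (n.2.2 : ℝ) ^ 2)))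
      = (√d1)⁻¹ * (√d2)⁻¹ * (√d3)⁻¹ * ∑' n : Z3, exp (-(π * ((n.1 : ℝ) ^ 2 / d1
        + (n.2.1 - l12 * n.1) ^ 2 / d2
        + (n.2.2 - ((n.2.1 - l12 * n.1) * l23 + n.1 * l13)) ^ 2 / d3))) := by
  have hπ := pi_pos
  let f0 : ℝ → ℝ → ℝ → ℝ := fun x y z =>
    π * (d1 * (x + (l12 * y + l13 * z)) ^ 2 + d2 * (y + l23 * z) ^ 2 + d3 * z ^ 2)
  let f1 : ℝ → ℝ → ℝ → ℝ := fun x y z =>
    π * (x ^ 2 / d1 + d2 * (y + l23 * z) ^ 2 + d3 * z ^ 2)
  let f2 : ℝ → ℝ → ℝ → ℝ := fun x y z =>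
    π * (x ^ 2 / d1 + (y - l12 * x) ^ 2 / d2 + d3 * z ^ 2)
  let f3 : ℝ → ℝ → ℝ → ℝ := fun x y z =>
    π * (x ^ 2 / d1 + (y - l12 * x) ^ 2 / d2 + (z - ((y - l12 * x) * l23 + x * l13)) ^ 2 / d3)
  have s0 := summable_EE f0 (by fun_prop) (fun s x y z => by simp only [f0]; ring)
    (fun x y z h => mul_pos hπ (pos3 h1 h2 h3 fun ⟨a, b, c⟩ => h (by
      subst c; simp only [mul_zero, add_zero] at a b; subst b; simpa using a))) (fun _ => 0)
  have s1 := summable_EE f1 (by fun_prop) (fun s x y z => by simp only [f1]; ring)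
    (fun x y z h => mul_pos hπ (by
      have := pos3 (inv_pos.2 h1) h2 h3 (u := x) (v := y + l23 * z) (w := z) fun ⟨a, b, c⟩ => h (by
        subst c; simp only [mul_zero, add_zero] at b; exact ⟨a, b, rfl⟩)
      rwa [inv_mul_eq_div] at this))
    (fun n => 2 * π * n.1 * (l12 * n.2.1 + l13 * n.2.2))
  have s2 := summable_EE f2 (by fun_prop) (fun s x y z => by simp only [f2]; ring)
    (fun x y z h => mul_pos hπ (by
      have := pos3 (inv_pos.2 h1) (inv_pos.2 h2) h3 (u := x) (v := y - l12 * x) (w := z)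
        fun ⟨a, b, c⟩ => h (by
          subst a; simp only [mul_zero, sub_zero] at b; exact ⟨rfl, b, c⟩)
      rwa [inv_mul_eq_div, inv_mul_eq_div] at this))
    (fun n => 2 * π * ((n.2.1 - l12 * n.1) * l23 + n.1 * l13) * n.2.2)
  have s3 := summable_EE f3 (by fun_prop) (fun s x y z => by simp only [f3]; ring)
    (fun x y z h => mul_pos hπ (by
      have := pos3 (inv_pos.2 h1) (inv_pos.2 h2) (inv_pos.2 h3) (u := x) (v := y - l12 * x)
        (w := z - ((y - l12 * x) * l23 + x * l13))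
        fun ⟨a, b, c⟩ => h (by
          subst a; simp only [mul_zero, sub_zero] at b; subst b; simpa using c)
      rwa [inv_mul_eq_div, inv_mul_eq_div, inv_mul_eq_div] at this)) (fun _ => 0)
  have e1 := tsum_step1 s0 s1 (((√d1)⁻¹ : ℝ) : ℂ) fun b => by
    have := poisson1 h1 (l12 * b.1 + l13 * b.2) 0
      (π * (d2 * (b.1 + l23 * b.2) ^ 2 + d3 * (b.2 : ℝ) ^ 2)) 0
    refine Eq.trans (tsum_congr fun n => ?_) (this.trans (congrArg _ (tsum_congr fun n => ?_)))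
    · congr 1
      · simp only [f0]; ring
      · ring
    · congr 1
      · simp only [f1]; ring
      · ring
  have e2 := tsum_step2 s1 s2 (((√d2)⁻¹ : ℝ) : ℂ) fun a c => by
    have := poisson1 h2 (l23 * c) (l12 * a)
      (π * ((a : ℝ) ^ 2 / d1 + d3 * (c : ℝ) ^ 2)) (2 * π * a * l13 * c)
    refine Eq.trans (tsum_congr fun n => ?_) (this.trans (congrArg _ (tsum_congr fun n => ?_)))
    · congr 1
      · simp only [f1]; ring
      · ring
    · congr 1
      · simp only [f2]; ring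
      · ring
  have e3 := tsum_step3 s2 s3 (((√d3)⁻¹ : ℝ) : ℂ) fun a b => by
    have := poisson1 h3 0 ((b - l12 * a) * l23 + a * l13)
      (π * ((a : ℝ) ^ 2 / d1 + (b - l12 * a) ^ 2 / d2)) 0
    refine Eq.trans (tsum_congr fun n => ?_) (this.trans (congrArg _ (tsum_congr fun n => ?_)))
    · congr 1
      · simp only [f2]; ring
      · ring
    · congr 1
      · simp only [f3]; ring
      · ring
  rw [e2, e3] at e1
  simp only [EE_zero, ← Complex.ofReal_tsum, ← Complex.ofReal_mul, Complex.ofReal_inj] at e1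
  rw [mul_assoc, mul_assoc]
  exact e1

namespace SP

variable {p : SP}

lemma PD.g11_pos (h : p.PD) : 0 < p.g11 := by
  have := h 1 0 0 (by simp)
  simp only [q, g11] at this ⊢
  nlinarith

lemma PD.minor_pos (h : p.PD) : 0 < p.g11 * p.g22 - p.p12 ^ 2 := by
  have h1 := h.g11_pos
  have := h p.p12 p.g11 0 (by simp [h1.ne'])
  have e : p.q p.p12 p.g11 0 = p.g11 * (p.g11 * p.g22 - p.p12 ^ 2) := by
    simp only [q, g11, g22]; ring
  rw [e] at this
  rcases pos_and_pos_or_neg_and_neg_of_mul_pos this with h | h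
  · exact h.2
  · linarith [h.1]

lemma PD.kap_pos (h : p.PD) : 0 < p.kap := by
  have h2 := h.minor_pos
  have := h (p.p12 * p.p23 + p.p13 * p.g22) (p.p12 * p.p13 + p.g11 * p.p23)
    (p.g11 * p.g22 - p.p12 ^ 2) (by simp [h2.ne'])
  have e : p.q (p.p12 * p.p23 + p.p13 * p.g22) (p.p12 * p.p13 + p.g11 * p.p23)
      (p.g11 * p.g22 - p.p12 ^ 2) = (p.g11 * p.g22 - p.p12 ^ 2) * p.kap := by
    simp only [q, g11, g22, kap]; ring
  rw [e] at this
  rcases pos_and_pos_or_neg_and_neg_of_mul_pos this with h | h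
  · exact h.2
  · linarith [h.1]

lemma PD.adj_eq (h : p.PD) (x y z : ℝ) : p.adj x y z / p.kap = x ^ 2 / p.g11
    + (y - (-p.p12 / p.g11) * x) ^ 2 / ((p.g11 * p.g22 - p.p12 ^ 2) / p.g11)
    + (z - ((y - (-p.p12 / p.g11) * x)
        * (-(p.p12 * p.p13 + p.g11 * p.p23) / (p.g11 * p.g22 - p.p12 ^ 2))
        + x * (-p.p13 / p.g11))) ^ 2 / (p.kap / (p.g11 * p.g22 - p.p12 ^ 2)) := by
  have h1 := h.g11_pos.ne'
  have h2 := h.minor_pos.ne'
  have h3 := h.kap_pos.ne'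
  field_simp
  simp only [adj, kap, g11, g22, g33]
  ring

lemma PD.q_eq (h : p.PD) (x y z : ℝ) : p.q x y z =
    p.g11 * (x + ((-p.p12 / p.g11) * y + (-p.p13 / p.g11) * z)) ^ 2
    + (p.g11 * p.g22 - p.p12 ^ 2) / p.g11
      * (y + (-(p.p12 * p.p13 + p.g11 * p.p23) / (p.g11 * p.g22 - p.p12 ^ 2)) * z) ^ 2
    + p.kap / (p.g11 * p.g22 - p.p12 ^ 2) * z ^ 2 := by
  have h1 := h.g11_pos.ne'
  have h2 := h.minor_pos.ne'
  field_simp
  simp only [q, kap, g11, g22]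
  ring

lemma PD.adj_pos (h : p.PD) (x y z : ℝ) (hx : ¬ (x = 0 ∧ y = 0 ∧ z = 0)) :
    0 < p.adj x y z / p.kap := by
  have h1 := h.g11_pos
  have h2 := h.minor_pos
  have h3 := h.kap_pos
  rw [h.adj_eq]
  have := pos3 (inv_pos.2 h1) (inv_pos.2 (div_pos h2 h1)) (inv_pos.2 (div_pos h3 h2)) (u := x)
    (v := y - (-p.p12 / p.g11) * x)
    (w := z - ((y - (-p.p12 / p.g11) * x)
        * (-(p.p12 * p.p13 + p.g11 * p.p23) / (p.g11 * p.g22 - p.p12 ^ 2))
        + x * (-p.p13 / p.g11))) fun ⟨a, b, c⟩ => hx (by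
          subst a; simp only [mul_zero, sub_zero] at b; subst b; simpa using c)
  rwa [inv_mul_eq_div, inv_mul_eq_div, inv_mul_eq_div] at this

lemma PD.summable_thetaD (h : p.PD) {s : ℝ} (hs : 0 < s) :
    Summable fun k : Z3 => exp (-(s * p.Qd k)) :=
  summable_exp_neg (fun x y z => s * (p.adj x y z / p.kap)) (by unfold adj; fun_prop)
    (fun s x y z => by simp only [adj]; ring) fun x y z hx => mul_pos hs (h.adj_pos x y z hx)

/-- Poisson summation: theta transformation formula. -/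
lemma PD.theta_eq (h : p.PD) {t : ℝ} (ht : 0 < t) :
    p.theta t = (π / t * √(π / t)) / √p.kap * p.thetaD (π ^ 2 / t) := by
  have h1 := h.g11_pos
  have h2 := h.minor_pos
  have h3 := h.kap_pos
  have hπ := pi_pos
  have hu : 0 < t / π := by positivity
  have := poisson3 (d1 := t / π * p.g11) (d2 := t / π * ((p.g11 * p.g22 - p.p12 ^ 2) / p.g11))
    (d3 := t / π * (p.kap / (p.g11 * p.g22 - p.p12 ^ 2))) (by positivity) (by positivity)
    (by positivity) (-p.p12 / p.g11) (-p.p13 / p.g11)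
    (-(p.p12 * p.p13 + p.g11 * p.p23) / (p.g11 * p.g22 - p.p12 ^ 2))
  unfold theta thetaD
  convert this using 2
  · funext n
    rw [Q, h.q_eq]
    congr 2
    field_simp
  · rw [← mul_inv, ← mul_inv, ← Real.sqrt_mul (by positivity), ← Real.sqrt_mul (by positivity)]
    have e : t / π * p.g11 * (t / π * ((p.g11 * p.g22 - p.p12 ^ 2) / p.g11))
        * (t / π * (p.kap / (p.g11 * p.g22 - p.p12 ^ 2))) = (t / π) ^ 2 * ((t / π) * p.kap) := by
      field_simp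
    rw [e, Real.sqrt_mul (by positivity), Real.sqrt_sq hu.le, Real.sqrt_mul hu.le,
      ← inv_div t π, Real.sqrt_inv]
    have : 0 < √(t / π) := Real.sqrt_pos.2 hu
    have : 0 < √p.kap := Real.sqrt_pos.2 h3
    field_simp
  · congr 1
    funext n
    rw [Qd, h.adj_eq]
    congr 2
    field_simp

end SP

end Pool.Agent.Lib.MP_3a1514_mp
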