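import Pool.Agent.Lib.MP_3a1514_mp.Form

/-! Selling reduction: change of basis and existence of an obtuse superbase. -/

namespace Pool.Agent.Lib.MP_3a1514_mp

namespace SP

/-- polar bilinear form -/
def bil (p : SP) (u v : Z3) : ℝ :=
  p.p01 * u.1 * v.1 + p.p02 * u.2.1 * v.2.1 + p.p03 * u.2.2 * v.2.2
    + p.p12 * (u.1 - u.2.1) * (v.1 - v.2.1) + p.p13 * (u.1 - u.2.2) * (v.1 - v.2.2)
    + p.p23 * (u.2.1 - u.2.2) * (v.2.1 - v.2.2)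

/-- the form in the basis u, v, w -/
def chg (p : SP) (u v w : Z3) : SP :=
  ⟨p.bil u (u + v + w), p.bil v (u + v + w), p.bil w (u + v + w),
    -p.bil u v, -p.bil u w, -p.bil v w⟩

end SP

def det3 (u v w : Z3) : ℤ :=
  u.1 * (v.2.1 * w.2.2 - v.2.2 * w.2.1) - v.1 * (u.2.1 * w.2.2 - u.2.2 * w.2.1)
    + w.1 * (u.2.1 * v.2.2 - u.2.2 * v.2.1)

def lin (u v w n : Z3) : Z3 :=
  (n.1 * u.1 + n.2.1 * v.1 + n.2.2 * w.1, n.1 * u.2.1 + n.2.1 * v.2.1 + n.2.2 * w.2.1,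
    n.1 * u.2.2 + n.2.1 * v.2.2 + n.2.2 * w.2.2)

def linEquiv (u v w : Z3) (h : det3 u v w ^ 2 = 1) : Z3 ≃ Z3 where
  toFun := lin u v w
  invFun m := (det3 u v w * det3 m v w, det3 u v w * det3 u m w, det3 u v w * det3 u v m)
  left_inv n := by
    refine Prod.ext ?_ (Prod.ext ?_ ?_)
    · simp only [lin, det3] at h ⊢; linear_combination n.1 * h
    · simp only [lin, det3] at h ⊢; linear_combination n.2.1 * h
    · simp only [lin, det3] at h ⊢; linear_combination n.2.2 * h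
  right_inv m := by
    refine Prod.ext ?_ (Prod.ext ?_ ?_)
    · simp only [lin, det3] at h ⊢; linear_combination m.1 * h
    · simp only [lin, det3] at h ⊢; linear_combination m.2.1 * h
    · simp only [lin, det3] at h ⊢; linear_combination m.2.2 * h

namespace SP

variable {p : SP} {u v w : Z3}

lemma chg_q (p : SP) (u v w : Z3) (x y z : ℝ) : (p.chg u v w).q x y z
    = p.q (x * u.1 + y * v.1 + z * w.1) (x * u.2.1 + y * v.2.1 + z * w.2.1)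
      (x * u.2.2 + y * v.2.2 + z * w.2.2) := by
  simp only [q, chg, bil, Prod.fst_add, Prod.snd_add]; push_cast; ring

lemma chg_Q (p : SP) (u v w n : Z3) : (p.chg u v w).Q n = p.Q (lin u v w n) := by
  simp only [Q, chg_q, lin]; push_cast; rfl

def gram (p : SP) : Matrix (Fin 3) (Fin 3) ℝ :=
  !![p.g11, -p.p12, -p.p13; -p.p12, p.g22, -p.p23; -p.p13, -p.p23, p.g33]

lemma kap_eq_det (p : SP) : p.kap = p.gram.det := by
  simp [gram, Matrix.det_fin_three, kap, g11, g22, g33]; ring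

lemma chg_kap (p : SP) (u v w : Z3) : (p.chg u v w).kap = (det3 u v w : ℝ) ^ 2 * p.kap := by
  let U : Matrix (Fin 3) (Fin 3) ℝ :=
    !![u.1, v.1, w.1; u.2.1, v.2.1, w.2.1; u.2.2, v.2.2, w.2.2]
  have hU : U.det = det3 u v w := by
    simp [U, Matrix.det_fin_three, det3]; ring
  have e : (p.chg u v w).gram = U.transpose * p.gram * U := by
    ext i j
    fin_cases i <;> fin_cases j <;>
      simp [U, gram, Matrix.mul_apply, Fin.sum_univ_three, chg, bil, g11, g22, g33] <;> ring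
  rw [kap_eq_det, kap_eq_det, e, Matrix.det_mul, Matrix.det_mul, Matrix.det_transpose, hU]
  ring

lemma chg_Z (p : SP) (h : det3 u v w ^ 2 = 1) : (p.chg u v w).Z = p.Z := by
  unfold Z
  simp_rw [chg_Q]
  exact (linEquiv u v w h).tsum_eq fun n => (p.Q n ^ 2)⁻¹

lemma chg_kap' (p : SP) (h : det3 u v w ^ 2 = 1) : (p.chg u v w).kap = p.kap := by
  have : (det3 u v w : ℝ) ^ 2 = 1 := by exact_mod_cast h
  rw [chg_kap, this, one_mul]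

lemma PD.chg (hp : p.PD) (h : det3 u v w ^ 2 = 1) : (p.chg u v w).PD := by
  intro x y z hx
  rw [chg_q]
  apply hp
  rintro ⟨h1, h2, h3⟩
  have hd : (det3 u v w : ℝ) ^ 2 = 1 := by exact_mod_cast h
  have hd0 : (det3 u v w : ℝ) ≠ 0 := fun h0 => by rw [h0] at hd; norm_num at hd
  apply hx
  refine ⟨mul_left_cancel₀ hd0 ?_, mul_left_cancel₀ hd0 ?_, mul_left_cancel₀ hd0 ?_⟩
  · simp only [det3]; push_cast
    linear_combination ((v.2.1 : ℝ) * w.2.2 - v.2.2 * w.2.1) * h1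
      - ((v.1 : ℝ) * w.2.2 - v.2.2 * w.1) * h2 + ((v.1 : ℝ) * w.2.1 - v.2.1 * w.1) * h3
  · simp only [det3]; push_cast
    linear_combination -((u.2.1 : ℝ) * w.2.2 - u.2.2 * w.2.1) * h1
      + ((u.1 : ℝ) * w.2.2 - u.2.2 * w.1) * h2 - ((u.1 : ℝ) * w.2.1 - u.2.1 * w.1) * h3
  · simp only [det3]; push_cast
    linear_combination ((u.2.1 : ℝ) * v.2.2 - u.2.2 * v.2.1) * h1
      - ((u.1 : ℝ) * v.2.2 - u.2.2 * v.1) * h2 + ((u.1 : ℝ) * v.2.1 - u.2.1 * v.1) * h3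

def Nonneg (p : SP) : Prop :=
  0 ≤ p.p01 ∧ 0 ≤ p.p02 ∧ 0 ≤ p.p03 ∧ 0 ≤ p.p12 ∧ 0 ≤ p.p13 ∧ 0 ≤ p.p23

def TT (p : SP) (t : Z3 × Z3 × Z3) : ℝ :=
  p.Q t.1 + p.Q t.2.1 + p.Q t.2.2 + p.Q (t.1 + t.2.1 + t.2.2)

lemma PD.selling (hp : p.PD) :
    ∃ u v w : Z3, det3 u v w ^ 2 = 1 ∧ (p.chg u v w).Nonneg := by
  let t0 : Z3 × Z3 × Z3 := ((1, 0, 0), (0, 1, 0), (0, 0, 1))
  let W : Set (Z3 × Z3 × Z3) := {t | det3 t.1 t.2.1 t.2.2 ^ 2 = 1 ∧ p.TT t ≤ p.TT t0}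
  have hF := hp.finite_le (p.TT t0)
  have hW : W.Finite := by
    refine (hF.prod (hF.prod hF)).subset ?_
    rintro ⟨u, v, w⟩ ⟨_, h2⟩
    have a1 := hp.Q_nonneg u
    have a2 := hp.Q_nonneg v
    have a3 := hp.Q_nonneg w
    have a4 := hp.Q_nonneg (u + v + w)
    simp only [TT] at h2
    refine ⟨?_, ?_, ?_⟩ <;> simp only [Set.mem_ofPred_eq, TT] <;> linarith
  obtain ⟨⟨u, v, w⟩, ⟨h1, h2⟩, hmin⟩ := Set.exists_min_image W p.TT hW ⟨t0, by decide, le_rfl⟩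
  have hm : ∀ t : Z3 × Z3 × Z3, det3 t.1 t.2.1 t.2.2 ^ 2 = 1 → p.TT (u, v, w) ≤ p.TT t := by
    intro t ht
    by_cases h : p.TT t ≤ p.TT t0
    · exact hmin t ⟨ht, h⟩
    · linarith
  simp only at h1
  have key : ∀ (t : Z3 × Z3 × Z3) (r : ℝ), det3 t.1 t.2.1 t.2.2 ^ 2 = det3 u v w ^ 2 →
      p.TT t = p.TT (u, v, w) + 2 * r → 0 ≤ r := by
    intro t r e1 e2
    have := hm t (e1.trans h1)
    linarith
  refine ⟨u, v, w, h1, key (-u, v + u, w + u) _ ?_ ?_, key (u + v, -v, w + v) _ ?_ ?_,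
    key (u + w, v + w, -w) _ ?_ ?_, key (-u, v, w + u) _ ?_ ?_, key (-u, v + u, w) _ ?_ ?_,
    key (u + v, -v, w) _ ?_ ?_⟩
  all_goals first
    | (simp only [det3, Prod.fst_add, Prod.snd_add, Prod.fst_neg, Prod.snd_neg]; ring1)
    | (simp only [TT, Q, q, SP.chg, bil, Prod.fst_add, Prod.snd_add, Prod.fst_neg, Prod.snd_neg]
       push_cast; ring1)

lemma perm_01 (p : SP) : p.chg (-1, -1, -1) (0, 1, 0) (0, 0, 1)
    = ⟨p.p01, p.p12, p.p13, p.p02, p.p03, p.p23⟩ := by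
  simp only [SP.chg, bil, Prod.mk_add_mk, SP.mk.injEq]; push_cast
  refine ⟨?_, ?_, ?_, ?_, ?_, ?_⟩ <;> ring

lemma perm_12 (p : SP) : p.chg (0, 1, 0) (1, 0, 0) (0, 0, 1)
    = ⟨p.p02, p.p01, p.p03, p.p12, p.p23, p.p13⟩ := by
  simp only [SP.chg, bil, Prod.mk_add_mk, SP.mk.injEq]; push_cast
  refine ⟨?_, ?_, ?_, ?_, ?_, ?_⟩ <;> ring

lemma perm_23 (p : SP) : p.chg (1, 0, 0) (0, 0, 1) (0, 1, 0)
    = ⟨p.p01, p.p03, p.p02, p.p13, p.p12, p.p23⟩ := by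
  simp only [SP.chg, bil, Prod.mk_add_mk, SP.mk.injEq]; push_cast
  refine ⟨?_, ?_, ?_, ?_, ?_, ?_⟩ <;> ring

end SP

/-- the claim for a given parameter vector -/
def Goal (p01 p02 p03 p12 p13 p23 : ℝ) : Prop :=
  (⟨p01, p02, p03, p12, p13, p23⟩ : SP).PD → (⟨p01, p02, p03, p12, p13, p23⟩ : SP).kap = 4 →
    fcc.Z ≤ (⟨p01, p02, p03, p12, p13, p23⟩ : SP).Z

lemma goal_of_chg {p p' : SP} {u v w : Z3} (h : det3 u v w ^ 2 = 1) (e : p.chg u v w = p')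
    (H : p'.PD → p'.kap = 4 → fcc.Z ≤ p'.Z) : p.PD → p.kap = 4 → fcc.Z ≤ p.Z := by
  intro h1 h2
  subst e
  rw [← p.chg_Z h]
  exact H (h1.chg h) (by rw [p.chg_kap' h, h2])

variable {a b c d e f : ℝ}

lemma Goal.s01 (H : Goal a d e b c f) : Goal a b c d e f :=
  goal_of_chg (by decide) (SP.perm_01 _) H

lemma Goal.s12 (H : Goal b a c d f e) : Goal a b c d e f :=
  goal_of_chg (by decide) (SP.perm_12 _) H

lemma Goal.s23 (H : Goal a c b e d f) : Goal a b c d e f :=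
  goal_of_chg (by decide) (SP.perm_23 _) H

lemma max4 (b c d e : ℝ) : (c ≤ b ∧ d ≤ b ∧ e ≤ b) ∨ (b ≤ c ∧ d ≤ c ∧ e ≤ c)
    ∨ (b ≤ d ∧ c ≤ d ∧ e ≤ d) ∨ (b ≤ e ∧ c ≤ e ∧ d ≤ e) := by
  obtain ⟨m, hm, hx⟩ := Finset.exists_max_image ({b, c, d, e} : Finset ℝ) id ⟨b, by simp⟩
  simp only [Finset.mem_insert, Finset.mem_singleton, id, forall_eq_or_imp, forall_eq] at hm hx
  rcases hm with rfl | rfl | rfl | rfl <;> tauto

lemma max6 (a b c d e f : ℝ) :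
    (b ≤ a ∧ c ≤ a ∧ d ≤ a ∧ e ≤ a ∧ f ≤ a) ∨ (a ≤ b ∧ c ≤ b ∧ d ≤ b ∧ e ≤ b ∧ f ≤ b)
    ∨ (a ≤ c ∧ b ≤ c ∧ d ≤ c ∧ e ≤ c ∧ f ≤ c) ∨ (a ≤ d ∧ b ≤ d ∧ c ≤ d ∧ e ≤ d ∧ f ≤ d)
    ∨ (a ≤ e ∧ b ≤ e ∧ c ≤ e ∧ d ≤ e ∧ f ≤ e) ∨ (a ≤ f ∧ b ≤ f ∧ c ≤ f ∧ d ≤ f ∧ e ≤ f) := by
  obtain ⟨m, hm, hx⟩ := Finset.exists_max_image ({a, b, c, d, e, f} : Finset ℝ) id ⟨a, by simp⟩
  simp only [Finset.mem_insert, Finset.mem_singleton, id, forall_eq_or_imp, forall_eq] at hm hx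
  obtain ⟨h1, h2, h3, h4, h5, h6⟩ := hx
  rcases hm with rfl | rfl | rfl | rfl | rfl | rfl <;> simp only [*, and_self, true_or, or_true]

/-- It suffices to treat the fundamental domain. -/
lemma reduce (H : ∀ a b c d e f : ℝ, 0 ≤ b → 0 ≤ c → 0 ≤ d → 0 ≤ e → 0 ≤ f → c ≤ b → d ≤ b → e ≤ b →
    b ≤ a → f ≤ a → Goal a b c d e f) {p : SP} (hp : p.PD) (hk : p.kap = 4) : fcc.Z ≤ p.Z := by
  have H1 : ∀ a b c d e f : ℝ, 0 ≤ b → 0 ≤ c → 0 ≤ d → 0 ≤ e → 0 ≤ f → b ≤ a → c ≤ a → d ≤ a →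
      e ≤ a → f ≤ a → Goal a b c d e f := by
    intro a b c d e f hb hc hd he hf ba ca da ea fa
    rcases max4 b c d e with ⟨x, y, z⟩ | ⟨x, y, z⟩ | ⟨x, y, z⟩ | ⟨x, y, z⟩
    · exact H a b c d e f hb hc hd he hf x y z ba fa
    · exact Goal.s23 (H a c b e d f hc hb he hd hf x z y ca fa)
    · exact Goal.s01 (H a d e b c f hd he hb hc hf z x y da fa)
    · exact Goal.s01 (Goal.s23 (H a e d c b f he hd hc hb hf z y x ea fa))
  have H2 : ∀ a b c d e f : ℝ, 0 ≤ a → 0 ≤ b → 0 ≤ c → 0 ≤ d → 0 ≤ e → 0 ≤ f →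
      Goal a b c d e f := by
    intro a b c d e f ha hb hc hd he hf
    rcases max6 a b c d e f with ⟨x1, x2, x3, x4, x5⟩ | ⟨x1, x2, x3, x4, x5⟩ | ⟨x1, x2, x3, x4, x5⟩
      | ⟨x1, x2, x3, x4, x5⟩ | ⟨x1, x2, x3, x4, x5⟩ | ⟨x1, x2, x3, x4, x5⟩
    · apply H1 <;> assumption
    · apply Goal.s12; apply H1 <;> assumption
    · apply Goal.s23; apply Goal.s12; apply H1 <;> assumption
    · apply Goal.s01; apply Goal.s12; apply H1 <;> assumption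
    · apply Goal.s01; apply Goal.s23; apply Goal.s12; apply H1 <;> assumption
    · apply Goal.s12; apply Goal.s01; apply Goal.s23; apply Goal.s12; apply H1 <;> assumption
  obtain ⟨u, v, w, h, h1, h2, h3, h4, h5, h6⟩ := hp.selling
  exact goal_of_chg h rfl (H2 _ _ _ _ _ _ h1 h2 h3 h4 h5 h6) hp hk

end Pool.Agent.Lib.MP_3a1514_mp
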