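import Pool.Agent.Lib.MP_3a1514_mp.Ewald

/-! Upper bounds for lattice sums and the cubic symmetry lemma. -/

open Real

namespace Pool.Agent.Lib.MP_3a1514_mp

def nsq (x : Z3) : ℕ := x.1.natAbs ^ 2 + x.2.1.natAbs ^ 2 + x.2.2.natAbs ^ 2

lemma nsq_cast (x : Z3) : (nsq x : ℝ) = (x.1 : ℝ) ^ 2 + (x.2.1 : ℝ) ^ 2 + (x.2.2 : ℝ) ^ 2 := by
  simp [nsq]

def box1 (m : ℕ) : Finset ℤ :=
  (Finset.range (2 * m + 1)).map ⟨fun i : ℕ => (i : ℤ) - m, fun i j h => by
    simp only at h; omega⟩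

lemma mem_box1 {m : ℕ} {n : ℤ} : n ∈ box1 m ↔ n.natAbs ≤ m := by
  simp only [box1, Finset.mem_map, Finset.mem_range, Function.Embedding.coeFn_mk]
  constructor
  · rintro ⟨i, hi, rfl⟩; omega
  · intro h; exact ⟨(n + m).toNat, by omega, by omega⟩

lemma hasSum_of_eq {ι : Type} {f g : ι → ℝ} {a b : ℝ} (h : HasSum f a) (hf : ∀ i, g i = f i)
    (ha : b = a) : HasSum g b := by
  rw [ha, funext hf]; exact h

def box (m : ℕ) : Finset Z3 := box1 m ×ˢ box1 m ×ˢ box1 m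

lemma hasSum_tail {u : ℝ} (h0 : 0 ≤ u) (h1 : u < 1) (m : ℕ) :
    HasSum (fun n : ℤ => if n.natAbs ≤ m then 0 else u ^ (n.natAbs - (m + 1))) (2 / (1 - u)) := by
  have ha := hasSum_geometric_of_lt_one h0 h1
  have key : ∀ k : ℕ, HasSum (fun n : ℕ => if n < k then (0 : ℝ) else u ^ (n - k)) (1 - u)⁻¹ := by
    intro k
    rw [← hasSum_nat_add_iff' k]
    have : ∑ i ∈ Finset.range k, (if i < k then (0 : ℝ) else u ^ (i - k)) = 0 :=
      Finset.sum_eq_zero fun i hi => by simp [Finset.mem_range.1 hi]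
    rw [this, sub_zero]
    simpa using ha
  have := HasSum.of_nat_of_neg_add_one
    (f := fun n : ℤ => if n.natAbs ≤ m then (0 : ℝ) else u ^ (n.natAbs - (m + 1)))
    (by simpa [Nat.lt_succ_iff] using key (m + 1))
    (by
      convert key m using 2 with n
      have : (-((n : ℤ) + 1)).natAbs = n + 1 := by omega
      rw [this]
      simp)
  convert this using 1
  ring

lemma summable_th {u : ℝ} (h0 : 0 ≤ u) (h1 : u < 1) : Summable fun n : ℤ => u ^ (n.natAbs ^ 2) :=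
  (hasSum_geom_int h0 h1).summable.of_nonneg_of_le (fun n => by positivity) fun n =>
    pow_le_pow_of_le_one h0 h1.le (Nat.le_self_pow (by norm_num) _)

lemma th_le {u : ℝ} (h0 : 0 ≤ u) (h1 : u < 1) (m : ℕ) :
    ∑' n : ℤ, u ^ (n.natAbs ^ 2)
      ≤ ∑ n ∈ box1 m, u ^ (n.natAbs ^ 2) + 2 * u ^ ((m + 1) ^ 2) / (1 - u) := by
  have hA : HasSum (fun n : ℤ => if n ∈ box1 m then u ^ (n.natAbs ^ 2) else 0)
      (∑ n ∈ box1 m, u ^ (n.natAbs ^ 2)) := by
    have := hasSum_sum_of_ne_finset_zero (L := SummationFilter.unconditional ℤ)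
      (f := fun n : ℤ => if n ∈ box1 m then u ^ (n.natAbs ^ 2) else 0) (s := box1 m)
      (fun n hn => by simp [hn])
    convert this using 1
    exact Finset.sum_congr rfl fun n hn => by simp [hn]
  have hB := (hasSum_tail h0 h1 m).mul_left (u ^ ((m + 1) ^ 2))
  have := hasSum_le (fun n => ?_) (summable_th h0 h1).hasSum (hA.add hB)
  · refine this.trans (le_of_eq ?_); ring
  · by_cases hn : n.natAbs ≤ m
    · have : n ∈ box1 m := by rw [mem_box1]; omega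
      simp [this, hn]
    · have : n ∉ box1 m := by rw [mem_box1]; omega
      simp only [this, hn, if_false, zero_add, ← pow_add]
      apply pow_le_pow_of_le_one h0 h1.le
      obtain ⟨k, hk⟩ := Nat.exists_eq_add_of_le (show m + 1 ≤ n.natAbs by omega)
      rw [hk, Nat.add_sub_cancel_left]
      nlinarith

lemma nsq_ge_of_notMem {m : ℕ} {x : Z3} (hx : x ∉ box m) : (m + 1) ^ 2 ≤ nsq x := by
  simp only [box, Finset.mem_product, mem_box1] at hx
  have : m + 1 ≤ x.1.natAbs ∨ m + 1 ≤ x.2.1.natAbs ∨ m + 1 ≤ x.2.2.natAbs := by omega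
  unfold nsq
  rcases this with h | h | h
  · have := Nat.pow_le_pow_left h 2; omega
  · have := Nat.pow_le_pow_left h 2; omega
  · have := Nat.pow_le_pow_left h 2; omega

def thQ (u : ℚ) (m : ℕ) : ℚ := ∑ n ∈ box1 m, u ^ (n.natAbs ^ 2)

def bnd (pred : Z3 → Bool) (G : ℕ → ℚ) (u c : ℚ) (m : ℕ) : ℚ :=
  (∑ x ∈ box m, if pred x then G (nsq x) else 0)
    + c * ((thQ u m + 2 * u ^ ((m + 1) ^ 2) / (1 - u)) ^ 3 - thQ u m ^ 3)

lemma lattice_bound (pred : Z3 → Bool) (G : ℕ → ℚ) (u c : ℚ) (m : ℕ) (hu0 : 0 ≤ u) (hu1 : u < 1)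
    (hc : 0 ≤ c) (hG0 : ∀ k, 0 ≤ G k) (hG : ∀ k, (m + 1) ^ 2 ≤ k → G k ≤ c * u ^ k)
    (X : Z3 → Z3) (hX : Function.Injective X) (hp : ∀ n, pred (X n) = true) (a : Z3 → ℝ)
    (ha0 : ∀ n, 0 ≤ a n) (ha : ∀ n, a n ≤ G (nsq (X n))) :
    Summable a ∧ ∑' n, a n ≤ bnd pred G u c m := by
  have h0 : (0 : ℝ) ≤ u := by exact_mod_cast hu0
  have h1 : (u : ℝ) < 1 := by exact_mod_cast hu1
  have hc' : (0 : ℝ) ≤ c := by exact_mod_cast hc
  let f : Z3 → ℝ := fun x => if pred x then (G (nsq x) : ℝ) else 0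
  have hf0 : ∀ x, 0 ≤ f x := fun x => by
    simp only [f]; split_ifs
    · exact_mod_cast hG0 _
    · exact le_rfl
  have hth := summable_th h0 h1
  have hprod : ∀ x : Z3, (u : ℝ) ^ nsq x
      = (u : ℝ) ^ (x.1.natAbs ^ 2) * ((u : ℝ) ^ (x.2.1.natAbs ^ 2) * (u : ℝ) ^ (x.2.2.natAbs ^ 2)) := by
    intro x; simp only [nsq, pow_add, mul_assoc]
  set ϑ := ∑' n : ℤ, (u : ℝ) ^ (n.natAbs ^ 2) with hϑ
  have hU : HasSum (fun x : Z3 => (u : ℝ) ^ nsq x) (ϑ ^ 3) := by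
    simp_rw [hprod]
    have s2 := hth.mul_of_nonneg hth (fun n => by positivity) (fun n => by positivity)
    have s3 := summable_mul3 hth (fun n => by positivity)
    exact hasSum_of_eq (hth.hasSum.mul (hth.hasSum.mul hth.hasSum s2) s3) (fun _ => rfl)
      (by rw [hϑ]; ring)
  have hA : HasSum (fun x : Z3 => if x ∈ box m then f x - c * (u : ℝ) ^ nsq x else 0)
      (∑ x ∈ box m, (f x - c * (u : ℝ) ^ nsq x)) := by
    have := hasSum_sum_of_ne_finset_zero (L := SummationFilter.unconditional Z3)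
      (f := fun x : Z3 => if x ∈ box m then f x - c * (u : ℝ) ^ nsq x else 0) (s := box m)
      (fun n hn => by simp [hn])
    convert this using 1
    exact Finset.sum_congr rfl fun n hn => by simp [hn]
  have hg := hA.add (hU.mul_left (c : ℝ))
  have hle : ∀ x, f x ≤ (if x ∈ box m then f x - c * (u : ℝ) ^ nsq x else 0)
      + c * (u : ℝ) ^ nsq x := by
    intro x
    split_ifs with hx
    · linarith
    · rw [zero_add]
      simp only [f]; split_ifs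
      · exact_mod_cast hG _ (nsq_ge_of_notMem hx)
      · positivity
  have hfs : Summable f := hg.summable.of_nonneg_of_le hf0 hle
  have haf : ∀ n, a n ≤ f (X n) := fun n => by simpa [f, hp n] using ha n
  have has : Summable a := (hfs.comp_injective hX).of_nonneg_of_le ha0 haf
  refine ⟨has, ?_⟩
  have e1 : ∑' n, a n ≤ ∑' x, f x := has.tsum_le_tsum_of_inj X hX (fun x _ => hf0 x) haf hfs
  have e2 := hasSum_le hle hfs.hasSum hg
  have e3 : ∑ x ∈ box m, (u : ℝ) ^ nsq x = ((thQ u m : ℚ) : ℝ) ^ 3 := by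
    simp_rw [hprod]
    simp only [box, thQ, Finset.sum_product, ← Finset.mul_sum, ← Finset.sum_mul]
    push_cast
    ring
  have e4 : ϑ ≤ ((thQ u m + 2 * u ^ ((m + 1) ^ 2) / (1 - u) : ℚ) : ℝ) := by
    have := th_le h0 h1 m
    simp only [thQ]
    push_cast
    exact this
  have e5 : ϑ ^ 3 ≤ ((thQ u m + 2 * u ^ ((m + 1) ^ 2) / (1 - u) : ℚ) : ℝ) ^ 3 :=
    pow_le_pow_left₀ (tsum_nonneg fun n => by positivity) e4 3
  rw [Finset.sum_sub_distrib, ← Finset.mul_sum, e3] at e2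
  have e6 : ((bnd pred G u c m : ℚ) : ℝ) = ∑ x ∈ box m, f x
      + c * (((thQ u m + 2 * u ^ ((m + 1) ^ 2) / (1 - u) : ℚ) : ℝ) ^ 3
        - ((thQ u m : ℚ) : ℝ) ^ 3) := by
    simp only [bnd, f]
    rw [Rat.cast_add, Rat.cast_sum]
    congr 1
    · exact Finset.sum_congr rfl fun x _ => by split_ifs <;> simp
    · push_cast; ring
  rw [e6]
  nlinarith [mul_le_mul_of_nonneg_left e5 hc']

lemma exp_neg_le (x u : ℚ) (n : ℕ) (hx : 0 ≤ x)
    (h : 1 ≤ u * ∑ i ∈ Finset.range n, x ^ i / (i.factorial : ℚ)) : exp (-(x : ℝ)) ≤ u := by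
  have h1 := Real.sum_le_exp_of_nonneg (x := (x : ℝ)) (by exact_mod_cast hx) n
  have h2 : (1 : ℝ) ≤ u * ∑ i ∈ Finset.range n, (x : ℝ) ^ i / (i.factorial : ℝ) := by
    exact_mod_cast h
  have hs : 0 ≤ ∑ i ∈ Finset.range n, (x : ℝ) ^ i / (i.factorial : ℝ) :=
    Finset.sum_nonneg fun i _ => by
      have : (0 : ℝ) ≤ x := by exact_mod_cast hx
      positivity
  have hu : (0 : ℝ) < u := by
    by_contra hh
    nlinarith [mul_nonneg (neg_nonneg.2 (not_lt.1 hh)) hs]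
  rw [exp_neg, inv_le_comm₀ (exp_pos _) hu, inv_eq_one_div, div_le_iff₀ hu]
  nlinarith

/-- cubic symmetry -/
lemma sym_sum {ι : Type} (W : ℝ → ℝ) (X Y Z : ι → ℝ) (hW : ∀ i, 0 ≤ W (X i ^ 2 + Y i ^ 2 + Z i ^ 2))
    (hs : Summable fun i => W (X i ^ 2 + Y i ^ 2 + Z i ^ 2) * (X i ^ 2 + Y i ^ 2 + Z i ^ 2))
    (e1 e2 e3 e4 : ι ≃ ι)
    (h1 : ∀ i, X (e1 i) = -X i ∧ Y (e1 i) = Y i ∧ Z (e1 i) = Z i)
    (h2 : ∀ i, X (e2 i) = X i ∧ Y (e2 i) = -Y i ∧ Z (e2 i) = Z i)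
    (h3 : ∀ i, X (e3 i) = Z i ∧ Y (e3 i) = Y i ∧ Z (e3 i) = X i)
    (h4 : ∀ i, X (e4 i) = X i ∧ Y (e4 i) = Z i ∧ Z (e4 i) = Y i) (a b c d e f : ℝ) :
    HasSum (fun i => W (X i ^ 2 + Y i ^ 2 + Z i ^ 2) * (a * X i ^ 2 + b * Y i ^ 2 + c * Z i ^ 2
      + d * (X i * Y i) + e * (X i * Z i) + f * (Y i * Z i)))
      ((a + b + c) / 3 * ∑' i, W (X i ^ 2 + Y i ^ 2 + Z i ^ 2) * (X i ^ 2 + Y i ^ 2 + Z i ^ 2)) := by
  set w : ι → ℝ := fun i => W (X i ^ 2 + Y i ^ 2 + Z i ^ 2) with hw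
  have w1 : ∀ i, w (e1 i) = w i := fun i => by simp only [hw, h1 i, neg_sq]
  have w2 : ∀ i, w (e2 i) = w i := fun i => by simp only [hw, h2 i, neg_sq]
  have w3 : ∀ i, w (e3 i) = w i := fun i => by
    simp only [hw, h3 i]; congr 1; ring
  have w4 : ∀ i, w (e4 i) = w i := fun i => by
    simp only [hw, h4 i]; congr 1; ring
  have sm : ∀ g : ι → ℝ, (∀ i, |g i| ≤ X i ^ 2 + Y i ^ 2 + Z i ^ 2) →
      Summable fun i => w i * g i := by
    intro g hg
    refine Summable.of_norm_bounded hs fun i => ?_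
    rw [Real.norm_eq_abs, abs_mul, abs_of_nonneg (hW i)]
    exact mul_le_mul_of_nonneg_left (hg i) (hW i)
  have sX := sm (fun i => X i ^ 2) fun i => by
    rw [abs_of_nonneg (sq_nonneg _)]; nlinarith [sq_nonneg (Y i), sq_nonneg (Z i)]
  have sY := sm (fun i => Y i ^ 2) fun i => by
    rw [abs_of_nonneg (sq_nonneg _)]; nlinarith [sq_nonneg (X i), sq_nonneg (Z i)]
  have sZ := sm (fun i => Z i ^ 2) fun i => by
    rw [abs_of_nonneg (sq_nonneg _)]; nlinarith [sq_nonneg (X i), sq_nonneg (Y i)]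
  have sXY := sm (fun i => X i * Y i) fun i => by
    rw [abs_le]; constructor <;>
      nlinarith [sq_nonneg (X i + Y i), sq_nonneg (X i - Y i), sq_nonneg (Z i)]
  have sXZ := sm (fun i => X i * Z i) fun i => by
    rw [abs_le]; constructor <;>
      nlinarith [sq_nonneg (X i + Z i), sq_nonneg (X i - Z i), sq_nonneg (Y i)]
  have sYZ := sm (fun i => Y i * Z i) fun i => by
    rw [abs_le]; constructor <;>
      nlinarith [sq_nonneg (Y i + Z i), sq_nonneg (Y i - Z i), sq_nonneg (X i)]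
  have odd : ∀ (g : ι → ℝ) (σ : ι ≃ ι), (∀ i, w (σ i) = w i) → (∀ i, g (σ i) = -g i) →
      ∑' i, w i * g i = 0 := by
    intro g σ hσ hg
    have := σ.tsum_eq fun i => w i * g i
    simp only [hσ, hg, mul_neg, tsum_neg] at this
    linarith
  have zXY := odd (fun i => X i * Y i) e1 w1 fun i => by simp only [h1 i]; ring
  have zXZ := odd (fun i => X i * Z i) e1 w1 fun i => by simp only [h1 i]; ring
  have zYZ := odd (fun i => Y i * Z i) e2 w2 fun i => by simp only [h2 i]; ring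
  have eXZ : ∑' i, w i * X i ^ 2 = ∑' i, w i * Z i ^ 2 := by
    have := e3.tsum_eq fun i => w i * X i ^ 2
    simp only [w3, h3] at this
    exact this.symm
  have eYZ : ∑' i, w i * Y i ^ 2 = ∑' i, w i * Z i ^ 2 := by
    have := e4.tsum_eq fun i => w i * Y i ^ 2
    simp only [w4, h4] at this
    exact this.symm
  have tot : ∑' i, w i * (X i ^ 2 + Y i ^ 2 + Z i ^ 2) = 3 * ∑' i, w i * Z i ^ 2 := by
    simp_rw [mul_add]
    rw [(sX.add sY).tsum_add sZ, sX.tsum_add sY, eXZ, eYZ]; ring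
  have := (((((sX.hasSum.mul_left a).add (sY.hasSum.mul_left b)).add (sZ.hasSum.mul_left c)).add
    (sXY.hasSum.mul_left d)).add (sXZ.hasSum.mul_left e)).add (sYZ.hasSum.mul_left f)
  rw [zXY, zXZ, zYZ, eXZ, eYZ] at this
  refine hasSum_of_eq this (fun i => ?_) ?_
  · simp only [hw]; ring
  · change (a + b + c) / 3 * ∑' i, w i * (X i ^ 2 + Y i ^ 2 + Z i ^ 2) = _
    rw [tot]; ring

end Pool.Agent.Lib.MP_3a1514_mp
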